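import Mathlib

/-!
# Membership in finitely generated submonoids of `ℕ ^ q`, by successive halving

Vectors are lists of natural numbers.
-/

namespace Pool.Agent.Lib.MP_7c7c4f_lc

/-- A list as a function. -/
def vf (v : List ℕ) : ℕ → ℕ := fun i => v.getD i 0

/-- Difference. -/
def vsub (v g : List ℕ) : List ℕ := List.zipWith (fun a b => a - b) v g

/-- Comparison. -/
def vle (g v : List ℕ) : Bool := (List.zipWith (fun a b => decide (a ≤ b)) g v).all (fun b => b)

/-- Equality of vectors. -/
def veq (v w : List ℕ) : Bool :=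
  decide (v.length = w.length) && (List.zipWith (fun a b => decide (a = b)) v w).all (fun b => b)

/-- Half. -/
def vhalf (v : List ℕ) : List ℕ := v.map (fun a => a / 2)

/-- Are all coordinates even? -/
def veven (v : List ℕ) : Bool := v.all (fun a => decide (a % 2 = 0))

theorem vf_of_le {v : List ℕ} {i : ℕ} (h : v.length ≤ i) : vf v i = 0 := by
  unfold vf; rw [List.getD_eq_default _ _ h]

theorem vf_inj {v w : List ℕ} (hl : v.length = w.length) (h : vf v = vf w) : v = w := by
  refine List.ext_getElem hl (fun i h1 h2 => ?_)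
  have := congrFun h i
  unfold vf at this
  rwa [List.getD_eq_getElem _ _ h1, List.getD_eq_getElem _ _ h2] at this

theorem veq_iff {v w : List ℕ} : veq v w = true ↔ v = w := by
  unfold veq
  rw [Bool.and_eq_true, decide_eq_true_eq, List.all_eq_true]
  constructor
  · rintro ⟨hl, h⟩
    refine List.ext_getElem hl (fun i h1 h2 => ?_)
    have := h (decide (v[i] = w[i])) (by
      rw [List.mem_iff_getElem]
      exact ⟨i, by rw [List.length_zipWith]; omega, by rw [List.getElem_zipWith]⟩)
    simpa using this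
  · rintro rfl
    refine ⟨rfl, fun b hb => ?_⟩
    obtain ⟨i, hi, rfl⟩ := List.mem_iff_getElem.1 hb
    rw [List.getElem_zipWith]
    simp

theorem vle_iff {g v : List ℕ} (hl : g.length = v.length) :
    vle g v = true ↔ ∀ i, vf g i ≤ vf v i := by
  unfold vle
  rw [List.all_eq_true]
  constructor
  · intro h i
    rcases Nat.lt_or_ge i g.length with hi | hi
    · have hi' : i < v.length := by omega
      have := h (decide (g[i] ≤ v[i])) (by
        rw [List.mem_iff_getElem]
        exact ⟨i, by rw [List.length_zipWith]; omega, by rw [List.getElem_zipWith]⟩)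
      unfold vf
      rw [List.getD_eq_getElem _ _ hi, List.getD_eq_getElem _ _ hi']
      simpa using this
    · rw [vf_of_le hi]; exact Nat.zero_le _
  · intro h b hb
    obtain ⟨i, hi, rfl⟩ := List.mem_iff_getElem.1 hb
    rw [List.getElem_zipWith]
    rw [List.length_zipWith] at hi
    have := h i
    unfold vf at this
    rw [List.getD_eq_getElem _ _ (by omega), List.getD_eq_getElem _ _ (by omega)] at this
    simpa using this

theorem length_vsub {v g : List ℕ} (hl : v.length = g.length) : (vsub v g).length = v.length := by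
  unfold vsub; rw [List.length_zipWith]; omega

theorem vf_vsub {v g : List ℕ} (hl : v.length = g.length) (i : ℕ) :
    vf (vsub v g) i = vf v i - vf g i := by
  rcases Nat.lt_or_ge i g.length with hi | hi
  · have hi' : i < v.length := by omega
    have hi2 : i < (vsub v g).length := by rw [length_vsub hl]; omega
    unfold vf
    rw [List.getD_eq_getElem g 0 hi, List.getD_eq_getElem v 0 hi',
      List.getD_eq_getElem (vsub v g) 0 hi2]
    exact List.getElem_zipWith
  · rw [vf_of_le (by rw [length_vsub hl]; omega), vf_of_le (v := v) (by omega)]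
    simp

@[simp] theorem length_vhalf (v : List ℕ) : (vhalf v).length = v.length := by simp [vhalf]

theorem vf_vhalf (v : List ℕ) (i : ℕ) : vf (vhalf v) i = vf v i / 2 := by
  rcases Nat.lt_or_ge i v.length with hi | hi
  · unfold vf vhalf
    rw [List.getD_eq_getElem _ _ (by simpa using hi), List.getD_eq_getElem _ _ hi]
    simp
  · rw [vf_of_le (by simpa using hi), vf_of_le hi]

theorem veven_iff {v : List ℕ} : veven v = true ↔ ∀ i, vf v i % 2 = 0 := by
  unfold veven
  rw [List.all_eq_true]
  constructor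
  · intro h i
    rcases Nat.lt_or_ge i v.length with hi | hi
    · unfold vf
      rw [List.getD_eq_getElem _ _ hi]
      have := h v[i] (List.getElem_mem hi)
      simpa using this
    · rw [vf_of_le hi]
  · intro h a ha
    obtain ⟨i, hi, rfl⟩ := List.mem_iff_getElem.1 ha
    have := h i
    unfold vf at this
    rw [List.getD_eq_getElem _ _ hi] at this
    simpa using this

/-- Insertion in a list of vectors without duplicates (the list is truncated at length `pad`). -/
def ins (pad : ℕ) (S : List (List ℕ)) (v : List ℕ) : List (List ℕ) :=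
  if S.any (fun w => veq w v) then S else (v :: S).take pad

/-- One generator. -/
def stepG (pad : ℕ) (S : List (List ℕ)) (g : List ℕ) : List (List ℕ) :=
  ((S.filter (fun v => vle g v)).map (fun v => vsub v g)).foldl (ins pad) S

/-- One round. -/
def round (pad : ℕ) (gens : List (List ℕ)) (S : List (List ℕ)) : List (List ℕ) :=
  (((gens.foldl (stepG pad) S).filter (fun v => veven v)).map (fun v => vhalf v)).foldl
    (ins pad) []

/-- Membership test. -/
def memb (pad : ℕ) (gens : List (List ℕ)) (t : List ℕ) (m : ℕ) : Bool :=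
  !((round pad gens)^[m] [t]).isEmpty

/-- The vectors of `S` are distinct and in a box. -/
structure InBox (q : ℕ) (b : ℕ → ℕ) (D : ℕ) (S : List (List ℕ)) : Prop where
  nodup : S.Nodup
  len : ∀ v ∈ S, v.length = q
  le : ∀ v ∈ S, ∀ i, vf v i ≤ b i
  ge : ∀ v ∈ S, ∀ i, b i ≤ vf v i + D

theorem InBox.length_le {q : ℕ} {b : ℕ → ℕ} {D : ℕ} {S : List (List ℕ)} (h : InBox q b D S) :
    S.length ≤ (D + 1) ^ q := by
  classical
  let F : List ℕ → (Fin q → Fin (D + 1)) := fun v i =>
    ⟨min (b i - vf v i) D, by omega⟩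
  have hinj : ∀ v ∈ S, ∀ w ∈ S, F v = F w → v = w := by
    intro v hv w hw hvw
    refine vf_inj (by rw [h.len v hv, h.len w hw]) (funext fun i => ?_)
    rcases Nat.lt_or_ge i q with hi | hi
    · have h1 : min (b i - vf v i) D = min (b i - vf w i) D :=
        congrArg Fin.val (congrFun hvw ⟨i, hi⟩)
      have h2 := h.le v hv i
      have h3 := h.le w hw i
      have h4 := h.ge v hv i
      have h5 := h.ge w hw i
      omega
    · rw [vf_of_le (by rw [h.len v hv]; exact hi), vf_of_le (by rw [h.len w hw]; exact hi)]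
  have h1 : (S.map F).Nodup := List.Nodup.map_on hinj h.nodup
  have h2 : (S.map F).length ≤ Fintype.card (Fin q → Fin (D + 1)) := h1.length_le_card
  rw [List.length_map, Fintype.card_fun, Fintype.card_fin, Fintype.card_fin] at h2
  exact h2

theorem InBox.mono {q : ℕ} {b : ℕ → ℕ} {D D' : ℕ} {S : List (List ℕ)} (h : InBox q b D S)
    (hD : D ≤ D') : InBox q b D' S :=
  ⟨h.nodup, h.len, h.le, fun v hv i => (h.ge v hv i).trans (by omega)⟩

theorem InBox.ins {q : ℕ} {b : ℕ → ℕ} {D pad : ℕ} {S : List (List ℕ)} {v : List ℕ}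
    (h : InBox q b D S) (hpad : (D + 1) ^ q ≤ pad) (hl : v.length = q)
    (hle : ∀ i, vf v i ≤ b i) (hge : ∀ i, b i ≤ vf v i + D) :
    InBox q b D (ins pad S v) ∧ ∀ w, w ∈ ins pad S v ↔ w ∈ S ∨ w = v := by
  unfold MP_7c7c4f_lc.ins
  by_cases hv : v ∈ S
  · have : S.any (fun w => veq w v) = true := List.any_eq_true.2 ⟨v, hv, veq_iff.2 rfl⟩
    rw [if_pos this]
    refine ⟨h, fun w => ⟨Or.inl, ?_⟩⟩
    rintro (h1 | rfl)
    · exact h1
    · exact hv
  · have : ¬ S.any (fun w => veq w v) = true := by
      intro hc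
      obtain ⟨w, hw, h1⟩ := List.any_eq_true.1 hc
      rw [veq_iff.1 h1] at hw
      exact hv hw
    rw [if_neg this]
    have hbox : InBox q b D (v :: S) := by
      refine ⟨List.nodup_cons.2 ⟨hv, h.nodup⟩, ?_, ?_, ?_⟩
      · intro w hw
        rcases List.mem_cons.1 hw with rfl | hw
        · exact hl
        · exact h.len w hw
      · intro w hw
        rcases List.mem_cons.1 hw with rfl | hw
        · exact hle
        · exact h.le w hw
      · intro w hw
        rcases List.mem_cons.1 hw with rfl | hw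
        · exact hge
        · exact h.ge w hw
    have htake : (v :: S).take pad = v :: S :=
      List.take_of_length_le (hbox.length_le.trans hpad)
    rw [htake]
    refine ⟨hbox, fun w => ?_⟩
    rw [List.mem_cons, or_comm]

theorem InBox.foldl_ins {q : ℕ} {b : ℕ → ℕ} {D pad : ℕ} (hpad : (D + 1) ^ q ≤ pad)
    (L : List (List ℕ)) (hl : ∀ v ∈ L, v.length = q) (hle : ∀ v ∈ L, ∀ i, vf v i ≤ b i)
    (hge : ∀ v ∈ L, ∀ i, b i ≤ vf v i + D) : ∀ S : List (List ℕ), InBox q b D S →
    InBox q b D (L.foldl (MP_7c7c4f_lc.ins pad) S) ∧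
      ∀ w, w ∈ L.foldl (MP_7c7c4f_lc.ins pad) S ↔ w ∈ S ∨ w ∈ L := by
  induction L with
  | nil => intro S hS; exact ⟨hS, fun w => by simp⟩
  | cons v L ih =>
    intro S hS
    obtain ⟨h1, h2⟩ := hS.ins (pad := pad) hpad (hl v (by simp)) (hle v (by simp))
      (hge v (by simp))
    obtain ⟨h3, h4⟩ := ih (fun v hv => hl v (by simp [hv])) (fun v hv => hle v (by simp [hv]))
      (fun v hv => hge v (by simp [hv])) _ h1
    refine ⟨h3, fun w => ?_⟩
    rw [List.foldl_cons, h4, h2, List.mem_cons, or_assoc]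

theorem stepG_spec {q : ℕ} {b : ℕ → ℕ} {D K pad : ℕ} (hpad : (D + K + 1) ^ q ≤ pad)
    {g : List ℕ} (hg : g.length = q) (hgK : ∀ i, vf g i ≤ K) {S : List (List ℕ)}
    (hS : InBox q b D S) :
    InBox q b (D + K) (stepG pad S g) ∧
      ∀ w, w ∈ stepG pad S g ↔ w ∈ S ∨ (w.length = q ∧ ∃ v ∈ S, vf v = vf w + vf g) := by
  have hS' : InBox q b (D + K) S := hS.mono (by omega)
  have key := InBox.foldl_ins (b := b) hpad
    ((S.filter (fun v => vle g v)).map (fun v => vsub v g)) ?_ ?_ ?_ S hS'
  · obtain ⟨h1, h2⟩ := key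
    refine ⟨h1, fun w => ?_⟩
    unfold stepG
    rw [h2]
    constructor
    · rintro (h | h)
      · exact Or.inl h
      · right
        obtain ⟨v, hv, rfl⟩ := List.mem_map.1 h
        obtain ⟨hv, hgv⟩ := List.mem_filter.1 hv
        have hlv := hS.len v hv
        have hgv' := (vle_iff (by rw [hg, hlv])).1 hgv
        refine ⟨by rw [length_vsub (by rw [hg, hlv])]; exact hlv, v, hv, funext fun i => ?_⟩
        rw [Pi.add_apply, vf_vsub (by rw [hg, hlv])]
        have := hgv' i
        omega
    · rintro (h | ⟨hlw, v, hv, hvw⟩)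
      · exact Or.inl h
      · right
        have hlv := hS.len v hv
        refine List.mem_map.2 ⟨v, List.mem_filter.2 ⟨hv, ?_⟩, ?_⟩
        · refine (vle_iff (by rw [hg, hlv])).2 (fun i => ?_)
          rw [hvw, Pi.add_apply]; omega
        · refine vf_inj (by rw [length_vsub (by rw [hg, hlv]), hlv, hlw]) (funext fun i => ?_)
          rw [vf_vsub (by rw [hg, hlv]), hvw, Pi.add_apply]; omega
  · intro w hw
    obtain ⟨v, hv, rfl⟩ := List.mem_map.1 hw
    have hlv := hS.len v (List.mem_filter.1 hv).1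
    rw [length_vsub (by rw [hg, hlv]), hlv]
  · intro w hw i
    obtain ⟨v, hv, rfl⟩ := List.mem_map.1 hw
    have hlv := hS.len v (List.mem_filter.1 hv).1
    rw [vf_vsub (by rw [hg, hlv])]
    have := hS.le v (List.mem_filter.1 hv).1 i
    omega
  · intro w hw i
    obtain ⟨v, hv, rfl⟩ := List.mem_map.1 hw
    have hlv := hS.len v (List.mem_filter.1 hv).1
    rw [vf_vsub (by rw [hg, hlv])]
    have := hS.ge v (List.mem_filter.1 hv).1 i
    have := hgK i
    omega

theorem foldl_stepG_spec {q K pad : ℕ} {b : ℕ → ℕ} (gens : List (List ℕ))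
    (hg : ∀ g ∈ gens, g.length = q) (hgK : ∀ g ∈ gens, ∀ i, vf g i ≤ K) :
    ∀ (D : ℕ), (D + gens.length * K + 1) ^ q ≤ pad → ∀ S : List (List ℕ), InBox q b D S →
    InBox q b (D + gens.length * K) (gens.foldl (stepG pad) S) ∧
      ∀ w, w ∈ gens.foldl (stepG pad) S ↔ w.length = q ∧ ∃ v ∈ S, ∃ P : List (List ℕ),
        P.Sublist gens ∧ vf v = vf w + (P.map vf).sum := by
  induction gens with
  | nil =>
    intro D hpad S hS
    refine ⟨by simpa using hS, fun w => ?_⟩
    rw [List.foldl_nil]
    constructor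
    · intro hw
      exact ⟨hS.len w hw, w, hw, [], List.Sublist.refl _, by simp⟩
    · rintro ⟨hl, v, hv, P, hP, hvw⟩
      rw [List.sublist_nil] at hP
      subst hP
      simp only [List.map_nil, List.sum_nil, add_zero] at hvw
      rwa [vf_inj (by rw [hl, hS.len v hv]) hvw] at hv
  | cons g gens ih =>
    intro D hpad S hS
    rw [List.length_cons] at hpad
    have hpad1 : (D + K + 1) ^ q ≤ pad := by
      refine le_trans (Nat.pow_le_pow_left ?_ q) hpad
      have : (gens.length + 1) * K = gens.length * K + K := by ring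
      rw [this]; omega
    obtain ⟨h1, h2⟩ := stepG_spec hpad1 (hg g (by simp)) (hgK g (by simp)) hS
    have e : D + K + gens.length * K = D + (gens.length + 1) * K := by ring
    obtain ⟨h3, h4⟩ := ih (fun g hg' => hg g (by simp [hg'])) (fun g hg' => hgK g (by simp [hg']))
      (D + K) (by rw [e]; exact hpad) _ h1
    rw [List.foldl_cons, List.length_cons, ← e]
    refine ⟨h3, fun w => ?_⟩
    rw [h4]
    constructor
    · rintro ⟨hl, v, hv, P, hP, hvw⟩
      refine ⟨hl, ?_⟩
      rcases (h2 v).1 hv with hv' | ⟨hlv, u, hu, huv⟩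
      · exact ⟨v, hv', P, hP.cons _, hvw⟩
      · refine ⟨u, hu, g :: P, hP.cons_cons _, ?_⟩
        rw [huv, hvw, List.map_cons, List.sum_cons]
        abel
    · rintro ⟨hl, v, hv, P, hP, hvw⟩
      refine ⟨hl, ?_⟩
      rcases List.sublist_cons_iff.1 hP with hP | ⟨P', rfl, hP'⟩
      · exact ⟨v, (h2 v).2 (Or.inl hv), P, hP, hvw⟩
      · rw [List.map_cons, List.sum_cons] at hvw
        have hlv := hS.len v hv
        have hlg := hg g (by simp)
        refine ⟨vsub v g, (h2 _).2 (Or.inr ⟨?_, v, hv, ?_⟩), P', hP', ?_⟩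
        · rw [length_vsub (by rw [hlv, hlg]), hlv]
        · funext i
          rw [Pi.add_apply, vf_vsub (by rw [hlv, hlg]), hvw]
          simp only [Pi.add_apply]
          omega
        · funext i
          rw [vf_vsub (by rw [hlv, hlg]), hvw]
          simp only [Pi.add_apply]
          omega

theorem round_spec {q K pad : ℕ} {b : ℕ → ℕ} (gens : List (List ℕ))
    (hg : ∀ g ∈ gens, g.length = q) (hgK : ∀ g ∈ gens, ∀ i, vf g i ≤ K) (D : ℕ)
    (hD : gens.length * K + 2 ≤ D) (hpad : (D + gens.length * K + 1) ^ q ≤ pad)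
    (S : List (List ℕ)) (hS : InBox q b D S) :
    InBox q (fun i => b i / 2) D (round pad gens S) ∧
      ∀ w, w ∈ round pad gens S ↔ w.length = q ∧ ∃ v ∈ S, ∃ P : List (List ℕ),
        P.Sublist gens ∧ vf v = 2 • vf w + (P.map vf).sum := by
  obtain ⟨h1, h2⟩ := foldl_stepG_spec (b := b) gens hg hgK D hpad S hS
  have hpad' : (D + 1) ^ q ≤ pad :=
    le_trans (Nat.pow_le_pow_left (by omega) q) hpad
  have key := InBox.foldl_ins (b := fun i => b i / 2) hpad'
    (((gens.foldl (stepG pad) S).filter (fun v => veven v)).map (fun v => vhalf v)) ?_ ?_ ?_ []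
    ⟨List.nodup_nil, by simp, by simp, by simp⟩
  · obtain ⟨h3, h4⟩ := key
    refine ⟨h3, fun w => ?_⟩
    unfold round
    rw [h4]
    constructor
    · rintro (h | h)
      · simp at h
      · obtain ⟨v, hv, rfl⟩ := List.mem_map.1 h
        obtain ⟨hv, hev⟩ := List.mem_filter.1 hv
        obtain ⟨hlv, u, hu, P, hP, huv⟩ := (h2 v).1 hv
        refine ⟨by rw [length_vhalf]; exact hlv, u, hu, P, hP, ?_⟩
        rw [huv]
        congr 1
        funext i
        have := veven_iff.1 hev i
        rw [Pi.smul_apply, vf_vhalf, smul_eq_mul]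
        omega
    · rintro ⟨hl, v, hv, P, hP, hvw⟩
      right
      refine List.mem_map.2 ⟨w.map (fun a => 2 * a), List.mem_filter.2 ⟨?_, ?_⟩, ?_⟩
      · refine (h2 _).2 ⟨by simpa using hl, v, hv, P, hP, ?_⟩
        rw [hvw]
        congr 1
        funext i
        rcases Nat.lt_or_ge i w.length with hi | hi
        · rw [Pi.smul_apply, smul_eq_mul]
          unfold vf
          rw [List.getD_eq_getElem _ _ hi, List.getD_eq_getElem _ _ (by simpa using hi)]
          simp
        · rw [Pi.smul_apply, vf_of_le hi, vf_of_le (by simpa using hi)]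
          rfl
      · unfold veven
        rw [List.all_eq_true]
        intro a ha
        obtain ⟨c, -, rfl⟩ := List.mem_map.1 ha
        simp
      · unfold vhalf
        rw [List.map_map]
        conv_rhs => rw [← List.map_id w]
        refine List.map_congr_left (fun a _ => ?_)
        simp
  · intro w hw
    obtain ⟨v, hv, rfl⟩ := List.mem_map.1 hw
    rw [length_vhalf]
    exact h1.len v (List.mem_filter.1 hv).1
  · intro w hw i
    obtain ⟨v, hv, rfl⟩ := List.mem_map.1 hw
    rw [vf_vhalf]
    exact Nat.div_le_div_right (h1.le v (List.mem_filter.1 hv).1 i)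
  · intro w hw i
    obtain ⟨v, hv, rfl⟩ := List.mem_map.1 hw
    rw [vf_vhalf]
    have := h1.ge v (List.mem_filter.1 hv).1 i
    show b i / 2 ≤ _
    omega

theorem closure_parity (gens : List (List ℕ)) : ∀ f ∈ AddSubmonoid.closure {f | ∃ g ∈ gens, vf g = f},
    ∃ P : List (List ℕ), P.Sublist gens ∧ ∃ h ∈ AddSubmonoid.closure {f | ∃ g ∈ gens, vf g = f},
      f = 2 • h + (P.map vf).sum := by
  induction gens with
  | nil =>
    intro f hf
    have : {f : ℕ → ℕ | ∃ g ∈ ([] : List (List ℕ)), vf g = f} = ∅ := by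
      ext f; simp
    rw [this, AddSubmonoid.closure_empty] at hf
    rw [AddSubmonoid.mem_bot] at hf
    subst hf
    exact ⟨[], List.Sublist.refl _, 0, zero_mem _, by simp⟩
  | cons g gens ih =>
    intro f hf
    have hset : {f : ℕ → ℕ | ∃ g' ∈ g :: gens, vf g' = f} =
        {vf g} ∪ {f | ∃ g ∈ gens, vf g = f} := by
      ext f
      simp [eq_comm]
    have hsub : {f : ℕ → ℕ | ∃ g' ∈ gens, vf g' = f} ⊆ {f | ∃ g' ∈ g :: gens, vf g' = f} := by
      rw [hset]; exact Set.subset_union_right
    have hf2 := hf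
    rw [hset, AddSubmonoid.closure_union, AddSubmonoid.mem_sup] at hf2
    obtain ⟨f1, hf1, f2, hf2, rfl⟩ := hf2
    obtain ⟨n, rfl⟩ := AddSubmonoid.mem_closure_singleton.1 hf1
    obtain ⟨P, hP, h, hh, rfl⟩ := ih f2 hf2
    have hg' : vf g ∈ AddSubmonoid.closure {f | ∃ g' ∈ g :: gens, vf g' = f} :=
      AddSubmonoid.subset_closure ⟨g, by simp, rfl⟩
    refine ⟨if n % 2 = 1 then g :: P else P, ?_, (n / 2) • vf g + h,
      add_mem (AddSubmonoid.nsmul_mem _ hg' _) (AddSubmonoid.closure_mono hsub hh), ?_⟩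
    · split_ifs
      · exact hP.cons_cons _
      · exact hP.cons _
    · by_cases hn : n % 2 = 1
      · rw [if_pos hn, List.map_cons, List.sum_cons]
        have : n = 2 * (n / 2) + 1 := by omega
        conv_lhs => rw [this, add_smul, mul_smul, one_smul]
        rw [smul_add]
        abel
      · rw [if_neg hn]
        have : n = 2 * (n / 2) := by omega
        conv_lhs => rw [this, mul_smul]
        rw [smul_add]
        abel

theorem sum_sublist_mem {gens P : List (List ℕ)} (hP : P.Sublist gens) :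
    (P.map vf).sum ∈ AddSubmonoid.closure {f | ∃ g ∈ gens, vf g = f} := by
  refine list_sum_mem (fun f hf => ?_)
  obtain ⟨g, hg, rfl⟩ := List.mem_map.1 hf
  exact AddSubmonoid.subset_closure ⟨g, hP.subset hg, rfl⟩

/-- The closure only contains functions vanishing from `q` on. -/
theorem closure_vanish {q : ℕ} {gens : List (List ℕ)} (hg : ∀ g ∈ gens, g.length = q) :
    ∀ f ∈ AddSubmonoid.closure {f | ∃ g ∈ gens, vf g = f}, ∀ i, q ≤ i → f i = 0 := by
  intro f hf
  induction hf using AddSubmonoid.closure_induction with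
  | mem f hf =>
    obtain ⟨g, hg', rfl⟩ := hf
    intro i hi
    exact vf_of_le (by rw [hg g hg']; exact hi)
  | zero => intro i _; rfl
  | add f g _ _ hf hg => intro i hi; rw [Pi.add_apply, hf i hi, hg i hi]

theorem vf_map_range {q : ℕ} {f : ℕ → ℕ} (hf : ∀ i, q ≤ i → f i = 0) :
    vf ((List.range q).map f) = f := by
  funext i
  rcases Nat.lt_or_ge i q with hi | hi
  · unfold vf
    rw [List.getD_eq_getElem _ _ (by simpa using hi)]
    simp
  · rw [vf_of_le (by simpa using hi), hf i hi]

theorem iterate_round_spec {q K pad : ℕ} (gens : List (List ℕ))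
    (hg : ∀ g ∈ gens, g.length = q) (hgK : ∀ g ∈ gens, ∀ i, vf g i ≤ K) (D : ℕ)
    (hD : gens.length * K + 2 ≤ D) (hpad : (D + gens.length * K + 1) ^ q ≤ pad) (m : ℕ) :
    ∀ (b : ℕ → ℕ) (S : List (List ℕ)), InBox q b D S →
    (∀ w ∈ (round pad gens)^[m] S, w.length = q ∧ ∀ i, vf w i ≤ b i / 2 ^ m) ∧
    ((∃ w ∈ (round pad gens)^[m] S, vf w ∈ AddSubmonoid.closure {f | ∃ g ∈ gens, vf g = f}) ↔
      ∃ w ∈ S, vf w ∈ AddSubmonoid.closure {f | ∃ g ∈ gens, vf g = f}) := by
  induction m with
  | zero =>
    intro b S hS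
    exact ⟨fun w hw => ⟨hS.len w hw, fun i => by simpa using hS.le w hw i⟩, Iff.rfl⟩
  | succ m ih =>
    intro b S hS
    obtain ⟨h1, h2⟩ := round_spec gens hg hgK D hD hpad S hS
    obtain ⟨h3, h4⟩ := ih _ _ h1
    rw [Function.iterate_succ_apply]
    constructor
    · intro w hw
      obtain ⟨h5, h6⟩ := h3 w hw
      refine ⟨h5, fun i => (h6 i).trans (le_of_eq ?_)⟩
      rw [Nat.div_div_eq_div_mul, pow_succ, mul_comm]
    · rw [h4]
      constructor
      · rintro ⟨w, hw, hwc⟩
        obtain ⟨-, v, hv, P, hP, hvw⟩ := (h2 w).1 hw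
        refine ⟨v, hv, ?_⟩
        rw [hvw]
        exact add_mem (AddSubmonoid.nsmul_mem _ hwc _) (sum_sublist_mem hP)
      · rintro ⟨v, hv, hvc⟩
        obtain ⟨P, hP, h, hh, hvh⟩ := closure_parity gens _ hvc
        have hvan := closure_vanish hg h hh
        refine ⟨(List.range q).map h, (h2 _).2 ⟨by simp, v, hv, P, hP, ?_⟩, ?_⟩
        · rw [vf_map_range hvan]; exact hvh
        · rw [vf_map_range hvan]; exact hh

/-- Correctness of the membership test. -/
theorem memb_iff {q K pad : ℕ} (gens : List (List ℕ))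
    (hg : ∀ g ∈ gens, g.length = q) (hgK : ∀ g ∈ gens, ∀ i, vf g i ≤ K)
    (hpad : (2 * (gens.length * K) + 3) ^ q ≤ pad) {t : List ℕ} (ht : t.length = q) {m : ℕ}
    (hm : ∀ i, vf t i < 2 ^ m) :
    memb pad gens t m = true ↔ vf t ∈ AddSubmonoid.closure {f | ∃ g ∈ gens, vf g = f} := by
  have hbox : InBox q (vf t) (gens.length * K + 2) [t] := by
    refine ⟨by simp, ?_, ?_, ?_⟩
    · intro v hv; rw [List.mem_singleton.1 hv]; exact ht
    · intro v hv i; rw [List.mem_singleton.1 hv]
    · intro v hv i; rw [List.mem_singleton.1 hv]; omega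
  have hpad' : (gens.length * K + 2 + gens.length * K + 1) ^ q ≤ pad := by
    have : gens.length * K + 2 + gens.length * K + 1 = 2 * (gens.length * K) + 3 := by ring
    rw [this]; exact hpad
  obtain ⟨h1, h2⟩ := iterate_round_spec gens hg hgK (gens.length * K + 2) le_rfl
    hpad' m (vf t) [t] hbox
  unfold memb
  have h3 : (∃ w ∈ [t], vf w ∈ AddSubmonoid.closure {f | ∃ g ∈ gens, vf g = f}) ↔
      vf t ∈ AddSubmonoid.closure {f | ∃ g ∈ gens, vf g = f} := by simp
  rw [← h3, ← h2]
  constructor
  · intro h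
    have hne : (round pad gens)^[m] [t] ≠ [] := by
      intro h0
      rw [h0] at h
      simp at h
    obtain ⟨w, hw⟩ := List.exists_mem_of_ne_nil _ hne
    refine ⟨w, hw, ?_⟩
    have : vf w = 0 := by
      funext i
      have h4 := (h1 w hw).2 i
      rw [Nat.div_eq_of_lt (hm i)] at h4
      simpa using h4
    rw [this]
    exact zero_mem _
  · rintro ⟨w, hw, -⟩
    have : (round pad gens)^[m] [t] ≠ [] := List.ne_nil_of_mem hw
    cases h5 : (round pad gens)^[m] [t] with
    | nil => exact absurd h5 this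
    | cons => rfl

end Pool.Agent.Lib.MP_7c7c4f_lc
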