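import Mathlib

/-!
# Parikh images of the accepted words of a finite automaton

Words are written latest letter first. The automaton is given by a state function `st` on words
and a predicate `ok` telling which letters may be appended.
-/

namespace Pool.Agent.Lib.MP_7c7c4f_lc

variable {α σ M : Type}

/-- Words all of whose letters may be written. -/
def Val (ok : List α → α → Prop) : List α → Prop
  | [] => True
  | a :: x => ok x a ∧ Val ok x

/-- `st` and `ok` come from an automaton. -/
structure IsAut (st : List α → σ) (ok : List α → α → Prop) : Prop where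
  cong : ∀ x y a, st x = st y → st (a :: x) = st (a :: y)
  okc : ∀ x y a, st x = st y → (ok x a ↔ ok y a)

theorem Val.of_append {ok : List α → α → Prop} : ∀ {y x : List α}, Val ok (y ++ x) → Val ok x
  | [], _, h => h
  | _ :: _, _, h => Val.of_append h.2

theorem IsAut.append {st : List α → σ} {ok : List α → α → Prop} (h : IsAut st ok)
    {x x' : List α} (hx : st x = st x') : ∀ y : List α, st (y ++ x) = st (y ++ x')
  | [] => hx
  | a :: y => h.cong _ _ a (h.append hx y)

theorem IsAut.val_append {st : List α → σ} {ok : List α → α → Prop} (h : IsAut st ok)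
    {x x' : List α} (hx : st x = st x') (hv : Val ok x') :
    ∀ y : List α, Val ok (y ++ x) → Val ok (y ++ x')
  | [], _ => hv
  | a :: y, hy => ⟨(h.okc _ _ a (h.append hx y)).1 hy.1, h.val_append hx hv y hy.2⟩

theorem suffix_append_cases {z y x : List α} (h : z <:+ y ++ x) :
    z <:+ x ∨ ∃ t, z = t ++ x ∧ t <:+ y := by
  rcases le_total z.length x.length with hl | hl
  · exact Or.inl (List.suffix_of_suffix_length_le h (List.suffix_append _ _) hl)
  · right
    obtain ⟨t, ht⟩ := List.suffix_of_suffix_length_le (List.suffix_append y x) h hl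
    refine ⟨t, ht.symm, ?_⟩
    obtain ⟨r, hr⟩ := h
    rw [← ht, ← List.append_assoc] at hr
    exact ⟨r, List.append_cancel_right hr⟩

/-- The states visited by a word. -/
def Vis (st : List α → σ) (x : List α) : Set σ := {s | ∃ y, y <:+ x ∧ st y = s}

/-- Images of the short cycles at the visited states. -/
def CycSet (st : List α → σ) (ok : List α → α → Prop) (Ψ : List α → M) (K : ℕ)
    (ω : List α) : Set M :=
  {m | ∃ c x, x <:+ ω ∧ Val ok (c ++ x) ∧ st (c ++ x) = st x ∧ c.length ≤ K ∧ Ψ c = m}

theorem IsAut.vis_insert {st : List α → σ} {ok : List α → α → Prop} (h : IsAut st ok)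
    {y c x : List α} (hc : st (c ++ x) = st x) : Vis st (y ++ x) ⊆ Vis st (y ++ (c ++ x)) := by
  rintro s ⟨z, hz, rfl⟩
  rcases suffix_append_cases hz with h1 | ⟨t, rfl, ht⟩
  · exact ⟨z, h1.trans ⟨y ++ c, by simp⟩, rfl⟩
  · refine ⟨t ++ (c ++ x), ?_, h.append hc t⟩
    obtain ⟨r, hr⟩ := ht
    exact ⟨r, by rw [← hr]; simp⟩

variable [Fintype σ] [AddCommMonoid M]

/-- A long word contains a short cycle whose removal does not change the set of visited
states. -/
theorem IsAut.exists_cycle {st : List α → σ} (ω : List α)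
    (hω : Fintype.card σ * (Fintype.card σ + 1) ≤ ω.length) :
    ∃ y c x : List α, ω = y ++ (c ++ x) ∧ st (c ++ x) = st x ∧ c ≠ [] ∧
      c.length ≤ Fintype.card σ * (Fintype.card σ + 1) ∧
      ∀ z, z <:+ c ++ x → ∃ z', z' <:+ x ∧ st z' = st z := by
  classical
  set K := Fintype.card σ * (Fintype.card σ + 1) with hK
  -- the suffix of length `k`
  let suf : ℕ → List α := fun k => ω.drop (ω.length - k)
  let V : ℕ → Finset σ := fun k => Finset.univ.filter (fun s => ∃ j ≤ k, st (suf j) = s)
  have hVmono : ∀ j k, j ≤ k → V j ⊆ V k := by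
    intro j k hjk s hs
    simp only [V, Finset.mem_filter, Finset.mem_univ, true_and] at hs ⊢
    obtain ⟨i, hi, h⟩ := hs
    exact ⟨i, hi.trans hjk, h⟩
  have hVcard : ∀ k, (V k).card < Fintype.card σ + 1 := fun k =>
    Nat.lt_succ_of_le (Finset.card_le_univ _)
  let F : Fin (K + 1) → σ × Fin (Fintype.card σ + 1) := fun k => (st (suf k), ⟨(V k).card, hVcard k⟩)
  have hcard : Fintype.card (σ × Fin (Fintype.card σ + 1)) < Fintype.card (Fin (K + 1)) := by
    rw [Fintype.card_prod, Fintype.card_fin, Fintype.card_fin, ← hK]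
    exact Nat.lt_succ_self _
  obtain ⟨a, b, hab, hF⟩ := Fintype.exists_ne_map_eq_of_card_lt F hcard
  -- wlog `a < b`
  have key : ∀ a b : Fin (K + 1), a < b → F a = F b → ∃ y c x : List α, ω = y ++ (c ++ x) ∧
      st (c ++ x) = st x ∧ c ≠ [] ∧ c.length ≤ K ∧
      ∀ z, z <:+ c ++ x → ∃ z', z' <:+ x ∧ st z' = st z := by
    intro a b hab hF
    have hab' : (a : ℕ) < b := hab
    have hb := b.2
    have hst : st (suf a) = st (suf b) := (Prod.ext_iff.1 hF).1
    have hcd : (V a).card = (V b).card := congrArg Fin.val (Prod.ext_iff.1 hF).2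
    have hV : V a = V b := Finset.eq_of_subset_of_card_le (hVmono _ _ hab'.le) hcd.ge
    refine ⟨ω.take (ω.length - b), (suf b).take (b - a), suf a, ?_, ?_, ?_, ?_, ?_⟩
    · have h1 : (suf b).take (b - a) ++ suf a = suf b := by
        have : suf a = (suf b).drop (b - a) := by
          simp only [suf, List.drop_drop]
          congr 1
          omega
        rw [this, List.take_append_drop]
      rw [h1, List.take_append_drop]
    · have h1 : (suf b).take (b - a) ++ suf a = suf b := by
        have : suf a = (suf b).drop (b - a) := by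
          simp only [suf, List.drop_drop]
          congr 1
          omega
        rw [this, List.take_append_drop]
      rw [h1, hst]
    · intro h0
      have := congrArg List.length h0
      simp only [suf, List.length_take, List.length_drop, List.length_nil] at this
      omega
    · simp only [suf, List.length_take, List.length_drop]
      omega
    · intro z hz
      have h1 : (suf b).take (b - a) ++ suf a = suf b := by
        have : suf a = (suf b).drop (b - a) := by
          simp only [suf, List.drop_drop]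
          congr 1
          omega
        rw [this, List.take_append_drop]
      rw [h1] at hz
      have hzω : z <:+ ω := hz.trans (List.drop_suffix _ _)
      have hzl : z.length ≤ b := by
        have := hz.length_le
        simp only [suf, List.length_drop] at this
        omega
      have hz2 : z = suf z.length := by
        have := List.suffix_iff_eq_drop.1 hzω
        exact this
      have hzV : st z ∈ V b := by
        simp only [V, Finset.mem_filter, Finset.mem_univ, true_and]
        exact ⟨z.length, hzl, by rw [← hz2]⟩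
      rw [← hV] at hzV
      simp only [V, Finset.mem_filter, Finset.mem_univ, true_and] at hzV
      obtain ⟨j, hj, hj2⟩ := hzV
      refine ⟨suf j, ?_, hj2⟩
      have : suf j = (suf a).drop (a - j) := by
        simp only [suf, List.drop_drop]
        congr 1
        omega
      rw [this]
      exact List.drop_suffix _ _
  rcases lt_or_gt_of_ne hab with h | h
  · exact key a b h hF
  · exact key b a h hF.symm

/-- Decomposition of valid words. -/
theorem IsAut.decomp {st : List α → σ} {ok : List α → α → Prop} (h : IsAut st ok)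
    {Ψ : List α → M} (hΨ : ∀ x y, Ψ (x ++ y) = Ψ x + Ψ y) {K : ℕ}
    (hK : Fintype.card σ * (Fintype.card σ + 1) ≤ K) (n : ℕ) :
    ∀ ω : List α, ω.length ≤ n → Val ok ω → ∃ ω0, Val ok ω0 ∧ ω0.length ≤ K ∧ st ω0 = st ω ∧
      Vis st ω ⊆ Vis st ω0 ∧ ∃ z ∈ AddSubmonoid.closure (CycSet st ok Ψ K ω0),
        Ψ ω = Ψ ω0 + z := by
  induction n with
  | zero =>
    intro ω hω hv
    exact ⟨ω, hv, by omega, rfl, subset_rfl, 0, zero_mem _, by simp⟩
  | succ n ih =>
    intro ω hω hv
    by_cases hl : ω.length ≤ K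
    · exact ⟨ω, hv, hl, rfl, subset_rfl, 0, zero_mem _, by simp⟩
    obtain ⟨y, c, x, hyc, hst, hc0, hcl, hvis⟩ := IsAut.exists_cycle (st := st) ω (by omega)
    have hvcx : Val ok (c ++ x) := by rw [hyc] at hv; exact Val.of_append hv
    have hvx : Val ok x := Val.of_append hvcx
    have hv1 : Val ok (y ++ x) := by
      rw [hyc] at hv
      exact h.val_append hst hvx y hv
    have hlen : (y ++ x).length ≤ n := by
      have h1 := congrArg List.length hyc
      simp only [List.length_append] at h1 ⊢
      have : 0 < c.length := List.length_pos_iff.2 hc0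
      omega
    obtain ⟨ω0, hv0, hl0, hst0, hvis0, z, hz, hΨz⟩ := ih (y ++ x) hlen hv1
    have hstω : st (y ++ x) = st ω := by rw [hyc]; exact (h.append hst y).symm
    have hvisω : Vis st ω ⊆ Vis st (y ++ x) := by
      rintro s ⟨z, hz, rfl⟩
      rw [hyc] at hz
      rcases suffix_append_cases hz with h1 | ⟨t, rfl, ht⟩
      · obtain ⟨z', hz', hs⟩ := hvis z h1
        exact ⟨z', hz'.trans (List.suffix_append _ _), hs⟩
      · refine ⟨t ++ x, ?_, (h.append hst t).symm⟩
        obtain ⟨r, hr⟩ := ht
        exact ⟨r, by rw [← hr]; simp⟩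
    refine ⟨ω0, hv0, hl0, hst0.trans hstω, hvisω.trans hvis0, z + Ψ c, ?_, ?_⟩
    · refine add_mem hz (AddSubmonoid.subset_closure ?_)
      obtain ⟨x', hx', hs⟩ := hvis0 ⟨x, List.suffix_append _ _, rfl⟩
      have hvx' : Val ok x' := by
        obtain ⟨r, hr⟩ := hx'
        rw [← hr] at hv0
        exact Val.of_append hv0
      refine ⟨c, x', hx', h.val_append hs.symm hvx' c hvcx, ?_, hcl.trans hK, rfl⟩
      rw [← h.append hs.symm c, hst, hs]
    · rw [← add_assoc, ← hΨz, hyc, hΨ, hΨ, hΨ]
      abel

omit [Fintype σ] in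
/-- Insertion of cycles. -/
theorem IsAut.recomp {st : List α → σ} {ok : List α → α → Prop} (h : IsAut st ok)
    {Ψ : List α → M} (hΨ : ∀ x y, Ψ (x ++ y) = Ψ x + Ψ y) {K : ℕ} {ω0 : List α}
    (hv0 : Val ok ω0) {z : M} (hz : z ∈ AddSubmonoid.closure (CycSet st ok Ψ K ω0)) :
    ∃ ω, Val ok ω ∧ st ω = st ω0 ∧ Vis st ω0 ⊆ Vis st ω ∧ Ψ ω = Ψ ω0 + z := by
  induction hz using AddSubmonoid.closure_induction_left with
  | zero => exact ⟨ω0, hv0, rfl, subset_rfl, by simp⟩
  | add_left m hm z hz ih =>
    obtain ⟨ω, hv, hst, hvis, hΨz⟩ := ih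
    obtain ⟨c, x, hx, hvc, hsc, -, rfl⟩ := hm
    obtain ⟨x', hx', hs⟩ := hvis ⟨x, hx, rfl⟩
    obtain ⟨y, hy⟩ := hx'
    subst hy
    have hvx' : Val ok x' := Val.of_append hv
    have hc1 : st (c ++ x') = st x' := by rw [← h.append hs.symm c, hsc, hs]
    have hvc' : Val ok (c ++ x') := h.val_append hs.symm hvx' c hvc
    refine ⟨y ++ (c ++ x'), h.val_append hc1.symm hvc' y hv, ?_, ?_, ?_⟩
    · rw [h.append hc1 y, hst]
    · exact hvis.trans (h.vis_insert hc1)
    · rw [hΨ, hΨ]
      rw [hΨ] at hΨz
      have : Ψ y + (Ψ c + Ψ x') = Ψ c + (Ψ y + Ψ x') := by abel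
      rw [this, hΨz]
      abel

/-- The Parikh images of the accepted words. -/
theorem IsAut.parikh {st : List α → σ} {ok : List α → α → Prop} (h : IsAut st ok)
    {Ψ : List α → M} (hΨ : ∀ x y, Ψ (x ++ y) = Ψ x + Ψ y) {K : ℕ}
    (hK : Fintype.card σ * (Fintype.card σ + 1) ≤ K) (acc : List α → Prop)
    (hacc : ∀ x y, st x = st y → acc x → acc y) (t : M) :
    (∃ ω, Val ok ω ∧ acc ω ∧ Ψ ω = t) ↔
      ∃ ω0, Val ok ω0 ∧ acc ω0 ∧ ω0.length ≤ K ∧
        ∃ z ∈ AddSubmonoid.closure (CycSet st ok Ψ K ω0), t = Ψ ω0 + z := by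
  constructor
  · rintro ⟨ω, hv, ha, rfl⟩
    obtain ⟨ω0, hv0, hl0, hst0, -, z, hz, hΨz⟩ := h.decomp hΨ hK _ ω le_rfl hv
    exact ⟨ω0, hv0, hacc _ _ hst0.symm ha, hl0, z, hz, hΨz⟩
  · rintro ⟨ω0, hv0, ha, -, z, hz, rfl⟩
    obtain ⟨ω, hv, hst, -, hΨz⟩ := h.recomp hΨ hv0 hz
    exact ⟨ω, hv, hacc _ _ hst.symm ha, hΨz⟩

end Pool.Agent.Lib.MP_7c7c4f_lc
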