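import Pool.Agent.Lib.MP_7c7c4f_lc.Words
import Pool.Agent.Lib.MP_7c7c4f_lc.Parikh
import Pool.Agent.Lib.MP_7c7c4f_lc.Memb

/-!
# The algorithm on the compressed instance
-/

namespace Pool.Agent.Lib.MP_7c7c4f_lc

/-- A matrix given by lists. -/
def Hf (H : List (List Bool)) (i j : ℕ) : Bool := (H.getD i []).getD j false

/-- Has the segment `i` been started? -/
def started (x : List Letter) (i : ℕ) : Bool := x.any (fun b => decide (b.1 = i))

/-- Has the segment `i` been ended? -/
def ended (x : List Letter) (i : ℕ) : Bool := x.any (fun b => b.2 && decide (b.1 = i))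

/-- Is the segment `i` among the last `B` letters? -/
def inwin (B : ℕ) (x : List Letter) (i : ℕ) : Bool := started (x.take B) i

/-- May the letter `a` be written after `x`? -/
def okb (q B : ℕ) (H : List (List Bool)) (x : List Letter) (a : Letter) : Bool :=
  decide (a.1 < q) && (!(ended x a.1) &&
    (if started x a.1 = true then inwin B x a.1
      else (List.range q).all (fun j => !(Hf H j a.1) || (ended x j && inwin B x j))))

theorem started_iff {x : List Letter} {i : ℕ} : started x i = true ↔ i ∈ x.map Prod.fst := by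
  unfold started
  rw [List.any_eq_true, List.mem_map]
  simp

theorem ended_iff {x : List Letter} {i : ℕ} : ended x i = true ↔ (i, true) ∈ x := by
  unfold ended
  rw [List.any_eq_true]
  constructor
  · rintro ⟨⟨j, b⟩, hb, h⟩
    simp only [Bool.and_eq_true, decide_eq_true_eq] at h
    obtain ⟨rfl, rfl⟩ := h
    exact hb
  · intro h
    exact ⟨_, h, by simp⟩

theorem inwin_iff {B : ℕ} {x : List Letter} {i : ℕ} :
    inwin B x i = true ↔ i ∈ (x.map Prod.fst).take B := by
  unfold inwin
  rw [started_iff, List.map_take]

theorem okb_iff {q B : ℕ} {H : List (List Bool)} {x : List Letter} {a : Letter} :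
    okb q B H x a = true ↔ Ok q B (Hf H) x a := by
  unfold okb Ok
  rw [Bool.and_eq_true, Bool.and_eq_true, decide_eq_true_eq, Bool.not_eq_true', ← ended_iff,
    Bool.not_eq_true, ← started_iff]
  refine and_congr Iff.rfl (and_congr Iff.rfl ?_)
  by_cases hs : started x a.1 = true
  · rw [if_pos hs, inwin_iff]
    simp [hs]
  · rw [if_neg hs, List.all_eq_true]
    constructor
    · intro h
      refine ⟨fun h1 => absurd h1 hs, fun _ j hj hH => ?_⟩
      have := h j (List.mem_range.2 hj)
      rw [hH] at this
      simp only [Bool.not_true, Bool.false_or, Bool.and_eq_true] at this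
      rw [← ended_iff, ← inwin_iff]
      exact this
    · rintro ⟨-, h⟩ j hj
      by_cases hH : Hf H j a.1 = true
      · have := h hs j (List.mem_range.1 hj) hH
        rw [← ended_iff, ← inwin_iff] at this
        rw [hH, this.1, this.2]
        rfl
      · rw [Bool.not_eq_true] at hH
        rw [hH]
        rfl

/-- Is the word valid? -/
def validb (q B : ℕ) (H : List (List Bool)) (x : List Letter) : Bool :=
  (x.foldr (fun a s => (a :: s.1, okb q B H s.1 a && s.2)) (([] : List Letter), true)).2

theorem validb_fst {q B : ℕ} {H : List (List Bool)} (x : List Letter) :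
    (x.foldr (fun a s => (a :: s.1, okb q B H s.1 a && s.2)) (([] : List Letter), true)).1 = x := by
  induction x with
  | nil => rfl
  | cons a x ih => rw [List.foldr_cons]; simp only [ih]

theorem validb_iff {q B : ℕ} {H : List (List Bool)} : ∀ {x : List Letter},
    validb q B H x = true ↔ Val (Ok q B (Hf H)) x
  | [] => by simp [validb, Val]
  | a :: x => by
    have ih := validb_iff (q := q) (B := B) (H := H) (x := x)
    unfold validb at ih ⊢
    rw [List.foldr_cons]
    simp only [validb_fst]
    rw [Bool.and_eq_true, ih, okb_iff]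
    rfl

theorem valid_iff_val {q B : ℕ} {H : ℕ → ℕ → Bool} : ∀ {x : List Letter},
    Valid q B H x ↔ Val (Ok q B H) x
  | [] => Iff.rfl
  | a :: x => by
    have ih := valid_iff_val (q := q) (B := B) (H := H) (x := x)
    exact and_congr Iff.rfl ih

/-- The letter at position `k`, truncated. -/
def winAt (q : ℕ) (x : List Letter) (k : ℕ) : ℕ :=
  (x.getD k (q, false)).1 - ((x.getD k (q, false)).1 - q)

theorem winAt_eq {q : ℕ} {x : List Letter} {k : ℕ} :
    winAt q x k = min (x.getD k (q, false)).1 q := by
  unfold winAt; omega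

/-- The state of the automaton, as a list of numbers. -/
def stl (q B : ℕ) (x : List Letter) : List ℕ :=
  (List.range B).map (fun k => winAt q x k) ++
    ((List.range q).map (fun i => if started x i = true then 1 else 0) ++
    (List.range q).map (fun i => if ended x i = true then 1 else 0))

theorem length_stl {q B : ℕ} (x : List Letter) : (stl q B x).length = B + (q + q) := by
  simp [stl]

theorem stl_le {q B : ℕ} (x : List Letter) : ∀ a ∈ stl q B x, a ≤ q := by
  intro a ha
  unfold stl at ha
  rw [List.mem_append, List.mem_append, List.mem_map, List.mem_map, List.mem_map] at ha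
  rcases ha with ⟨k, -, rfl⟩ | ⟨k, hk, rfl⟩ | ⟨k, hk, rfl⟩
  · rw [winAt_eq]; exact min_le_right _ _
  · rw [List.mem_range] at hk
    split_ifs <;> omega
  · rw [List.mem_range] at hk
    split_ifs <;> omega

theorem stl_eq_iff {q B : ℕ} {x y : List Letter} : stl q B x = stl q B y ↔
    (∀ k < B, winAt q x k = winAt q y k) ∧ (∀ i < q, started x i = started y i) ∧
      (∀ i < q, ended x i = ended y i) := by
  have aux : ∀ (f g : ℕ → Bool), ((List.range q).map (fun i => if f i = true then 1 else 0) =
      (List.range q).map (fun i => if g i = true then 1 else 0)) ↔ ∀ i < q, f i = g i := by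
    intro f g
    rw [List.map_inj_left]
    constructor
    · intro h i hi
      have := h i (List.mem_range.2 hi)
      cases hf : f i <;> cases hg : g i <;> simp_all
    · intro h i hi
      rw [h i (List.mem_range.1 hi)]
  constructor
  · intro h
    unfold stl at h
    obtain ⟨h1, h2⟩ := List.append_inj h (by simp)
    obtain ⟨h3, h4⟩ := List.append_inj h2 (by simp)
    refine ⟨?_, (aux _ _).1 h3, (aux _ _).1 h4⟩
    rw [List.map_inj_left] at h1
    exact fun k hk => h1 k (List.mem_range.2 hk)
  · rintro ⟨h1, h2, h3⟩
    unfold stl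
    rw [(aux _ _).2 h2, (aux _ _).2 h3, List.map_inj_left.2 (fun k hk => h1 k (List.mem_range.1 hk))]

/-- The state of the automaton. -/
def st (q B : ℕ) (x : List Letter) : Fin (B + (q + q)) → Fin (q + 1) :=
  fun k => ⟨min ((stl q B x).getD k 0) q, by omega⟩

theorem st_eq_iff {q B : ℕ} {x y : List Letter} :
    st q B x = st q B y ↔ stl q B x = stl q B y := by
  constructor
  · intro h
    refine List.ext_getElem (by rw [length_stl, length_stl]) (fun i h1 h2 => ?_)
    have hi : i < B + (q + q) := by rw [length_stl] at h1; exact h1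
    have h3 : min ((stl q B x).getD i 0) q = min ((stl q B y).getD i 0) q :=
      congrArg Fin.val (congrFun h ⟨i, hi⟩)
    rw [List.getD_eq_getElem _ _ h1, List.getD_eq_getElem _ _ h2] at h3
    have h4 := stl_le x _ (List.getElem_mem h1)
    have h5 := stl_le y _ (List.getElem_mem h2)
    omega
  · intro h
    funext k
    refine Fin.ext ?_
    show min ((stl q B x).getD k 0) q = min ((stl q B y).getD k 0) q
    rw [h]

theorem inwin_iff_winAt {q B : ℕ} {x : List Letter} {j : ℕ} (hj : j < q) :
    inwin B x j = true ↔ ∃ k < B, winAt q x k = j := by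
  rw [inwin_iff, List.mem_iff_getElem]
  constructor
  · rintro ⟨k, hk, h⟩
    rw [List.length_take, List.length_map] at hk
    refine ⟨k, by omega, ?_⟩
    rw [winAt_eq, List.getD_eq_getElem _ _ (by omega)]
    rw [List.getElem_take, List.getElem_map] at h
    rw [h]; omega
  · rintro ⟨k, hk, h⟩
    rw [winAt_eq] at h
    have hkx : k < x.length := by
      by_contra hc
      rw [List.getD_eq_default _ _ (by omega)] at h
      simp only [min_self] at h
      omega
    refine ⟨k, by rw [List.length_take, List.length_map]; omega, ?_⟩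
    rw [List.getElem_take, List.getElem_map]
    rw [List.getD_eq_getElem _ _ hkx] at h
    omega

theorem inwin_congr {q B : ℕ} {x y : List Letter} (h : ∀ k < B, winAt q x k = winAt q y k)
    {j : ℕ} (hj : j < q) : inwin B x j = inwin B y j := by
  rw [Bool.eq_iff_iff, inwin_iff_winAt hj, inwin_iff_winAt hj]
  constructor
  · rintro ⟨k, hk, h1⟩
    exact ⟨k, hk, by rw [← h k hk]; exact h1⟩
  · rintro ⟨k, hk, h1⟩
    exact ⟨k, hk, by rw [h k hk]; exact h1⟩

theorem isAut {q B : ℕ} {H : List (List Bool)} :
    IsAut (st q B) (Ok q B (Hf H)) := by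
  constructor
  · intro x y a h
    rw [st_eq_iff, stl_eq_iff] at h ⊢
    obtain ⟨h1, h2, h3⟩ := h
    refine ⟨?_, ?_, ?_⟩
    · intro k hk
      cases k with
      | zero => rw [winAt_eq, winAt_eq]; rfl
      | succ k =>
        have := h1 k (by omega)
        rw [winAt_eq, winAt_eq] at this ⊢
        exact this
    · intro i hi
      have := h2 i hi
      unfold started at this ⊢
      rw [List.any_cons, List.any_cons, this]
    · intro i hi
      have := h3 i hi
      unfold ended at this ⊢
      rw [List.any_cons, List.any_cons, this]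
  · intro x y a h
    rw [st_eq_iff, stl_eq_iff] at h
    obtain ⟨h1, h2, h3⟩ := h
    rw [← okb_iff, ← okb_iff]
    by_cases ha : a.1 < q
    · have : okb q B H x a = okb q B H y a := by
        unfold okb
        rw [h2 _ ha, h3 _ ha, inwin_congr h1 ha]
        have : (List.range q).all (fun j => !(Hf H j a.1) || (ended x j && inwin B x j)) =
            (List.range q).all (fun j => !(Hf H j a.1) || (ended y j && inwin B y j)) := by
          rw [Bool.eq_iff_iff, List.all_eq_true, List.all_eq_true]
          constructor
          · intro h j hj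
            rw [← h3 _ (List.mem_range.1 hj), ← inwin_congr h1 (List.mem_range.1 hj)]
            exact h j hj
          · intro h j hj
            rw [h3 _ (List.mem_range.1 hj), inwin_congr h1 (List.mem_range.1 hj)]
            exact h j hj
        rw [this]
      rw [this]
    · unfold okb
      simp [ha]

/-- The letter counts. -/
def psi (q : ℕ) (x : List Letter) : List ℕ :=
  (List.range q).map (fun i => (x.filter (fun b => !(b.2) && decide (b.1 = i))).length)

theorem length_psi {q : ℕ} (x : List Letter) : (psi q x).length = q := by simp [psi]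

theorem vf_psi {q : ℕ} (x : List Letter) (i : ℕ) :
    vf (psi q x) i = if i < q then x.count (i, false) else 0 := by
  have hc : (x.filter (fun b => !(b.2) && decide (b.1 = i))).length = x.count (i, false) := by
    rw [List.count_eq_length_filter]
    congr 1
    refine List.filter_congr (fun b _ => ?_)
    obtain ⟨j, c⟩ := b
    rw [Bool.eq_iff_iff]
    cases c <;> simp
  split_ifs with hi
  · unfold psi vf
    rw [List.getD_eq_getElem _ _ (by simpa using hi), List.getElem_map, List.getElem_range, hc]
  · exact vf_of_le (by rw [length_psi]; omega)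

theorem vf_psi_append {q : ℕ} (x y : List Letter) :
    vf (psi q (x ++ y)) = vf (psi q x) + vf (psi q y) := by
  funext i
  rw [Pi.add_apply, vf_psi, vf_psi, vf_psi]
  split_ifs
  · rw [List.count_append]
  · rfl

theorem vf_psi_le {q : ℕ} (x : List Letter) (i : ℕ) : vf (psi q x) i ≤ x.length := by
  rw [vf_psi]
  split_ifs
  · exact List.count_le_length
  · exact Nat.zero_le _

/-- Acceptance: all segments are ended. -/
def accb (q : ℕ) (x : List Letter) : Bool := (List.range q).all (fun i => ended x i)

theorem accb_iff {q : ℕ} {x : List Letter} : accb q x = true ↔ ∀ i < q, (i, true) ∈ x := by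
  unfold accb
  rw [List.all_eq_true]
  constructor
  · intro h i hi
    exact ended_iff.1 (h i (List.mem_range.2 hi))
  · intro h i hi
    exact ended_iff.2 (h i (List.mem_range.1 hi))

/-- All words of length at most `k` (truncated at `pad` words). -/
def allWords (pad : ℕ) (L : List Letter) (k : ℕ) : List (List Letter) :=
  (fun W => (W ++ W.flatMap (fun w => L.map (fun a => a :: w))).take pad)^[k] [[]]

theorem allWords_spec {pad : ℕ} {L : List Letter} : ∀ {k : ℕ}, (1 + L.length) ^ k ≤ pad →
    (allWords pad L k).length ≤ (1 + L.length) ^ k ∧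
      ∀ w, w ∈ allWords pad L k ↔ w.length ≤ k ∧ ∀ a ∈ w, a ∈ L
  | 0, _ => by
    refine ⟨by simp [allWords], fun w => ?_⟩
    unfold allWords
    rw [Function.iterate_zero, id, List.mem_singleton]
    constructor
    · rintro rfl; simp
    · rintro ⟨h, -⟩
      exact List.length_eq_zero_iff.1 (by omega)
  | k + 1, hk => by
    have hk' : (1 + L.length) ^ k ≤ pad :=
      le_trans (Nat.pow_le_pow_right (by omega) (by omega)) hk
    obtain ⟨h1, h2⟩ := allWords_spec hk'
    have hlen : (allWords pad L k ++ (allWords pad L k).flatMap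
        (fun w => L.map (fun a => a :: w))).length ≤ (1 + L.length) ^ (k + 1) := by
      rw [List.length_append, List.length_flatMap]
      simp only [List.length_map, List.map_const', List.sum_replicate, smul_eq_mul]
      calc _ = (allWords pad L k).length * (1 + L.length) := by ring
        _ ≤ (1 + L.length) ^ k * (1 + L.length) := Nat.mul_le_mul_right _ h1
        _ = _ := by rw [pow_succ]
    have e : allWords pad L (k + 1) = allWords pad L k ++ (allWords pad L k).flatMap
        (fun w => L.map (fun a => a :: w)) := by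
      unfold allWords
      rw [Function.iterate_succ_apply']
      exact List.take_of_length_le (hlen.trans hk)
    rw [e]
    refine ⟨hlen, fun w => ?_⟩
    rw [List.mem_append, List.mem_flatMap, h2]
    constructor
    · rintro (⟨h3, h4⟩ | ⟨v, hv, hw⟩)
      · exact ⟨by omega, h4⟩
      · obtain ⟨a, ha, rfl⟩ := List.mem_map.1 hw
        obtain ⟨h3, h4⟩ := (h2 v).1 hv
        refine ⟨by rw [List.length_cons]; omega, fun b hb => ?_⟩
        rcases List.mem_cons.1 hb with rfl | hb
        · exact ha
        · exact h4 b hb
    · rintro ⟨h3, h4⟩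
      cases w with
      | nil => exact Or.inl ⟨by simp, h4⟩
      | cons a w =>
        right
        refine ⟨w, (h2 w).2 ⟨?_, fun b hb => h4 b (by simp [hb])⟩,
          List.mem_map.2 ⟨a, h4 a (by simp), rfl⟩⟩
        rw [List.length_cons] at h3; omega

/-- The alphabet. -/
def letters (q : ℕ) : List Letter := (List.range q).flatMap (fun i => [(i, false), (i, true)])

theorem length_letters (q : ℕ) : (letters q).length = 2 * q := by
  unfold letters
  rw [List.length_flatMap]
  simp [mul_comm]

theorem mem_letters {q : ℕ} {a : Letter} : a ∈ letters q ↔ a.1 < q := by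
  obtain ⟨i, b⟩ := a
  unfold letters
  rw [List.mem_flatMap]
  cases b <;> simp

/-- The suffixes of a word. -/
def sufs (x : List Letter) : List (List Letter) :=
  (List.range (x.length + 1)).map (fun k => x.drop k)

theorem mem_sufs {x y : List Letter} : y ∈ sufs x ↔ y <:+ x := by
  unfold sufs
  rw [List.mem_map]
  constructor
  · rintro ⟨k, -, rfl⟩
    exact List.drop_suffix _ _
  · intro h
    refine ⟨x.length - y.length, ?_, (List.suffix_iff_eq_drop.1 h).symm⟩
    rw [List.mem_range]; omega

/-- Is `c` a cycle at `x`? -/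
def isCyc (q B : ℕ) (H : List (List Bool)) (c x : List Letter) : Bool :=
  validb q B H (c ++ x) && veq (stl q B (c ++ x)) (stl q B x)

/-- The generators. -/
def gensOf (q B : ℕ) (H : List (List Bool)) (Ws : List (List Letter)) (ω : List Letter) :
    List (List ℕ) :=
  (Ws.filter (fun c => (sufs ω).any (fun x => isCyc q B H c x))).map (fun c => psi q c)

/-- The algorithm. -/
def mainAlg (q B : ℕ) (H : List (List Bool)) (t : List ℕ) (K pad m : ℕ) : Bool :=
  (allWords pad (letters q) K).any (fun ω => validb q B H ω && (accb q ω &&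
    (vle (psi q ω) t &&
      memb pad (gensOf q B H (allWords pad (letters q) K) ω) (vsub t (psi q ω)) m)))

theorem mainAlg_iff {q B : ℕ} {H : List (List Bool)} {t : List ℕ} {K pad m : ℕ}
    (ht : t.length = q) (hm : ∀ i, vf t i < 2 ^ m)
    (hK : (q + 1) ^ (B + (q + q)) * ((q + 1) ^ (B + (q + q)) + 1) ≤ K)
    (hpad1 : (1 + 2 * q) ^ K ≤ pad) (hpad2 : (2 * ((1 + 2 * q) ^ K * K) + 3) ^ q ≤ pad) :
    mainAlg q B H t K pad m = true ↔ ∃ ω : List Letter, Valid q B (Hf H) ω ∧
      (∀ i < q, (i, true) ∈ ω) ∧ ∀ i < q, ω.count (i, false) = vf t i := by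
  obtain ⟨hW1, hW2⟩ := allWords_spec (pad := pad) (L := letters q) (k := K)
    (by rw [length_letters]; exact hpad1)
  rw [length_letters] at hW1
  set Ws := allWords pad (letters q) K with hWs
  have hcard : Fintype.card (Fin (B + (q + q)) → Fin (q + 1)) = (q + 1) ^ (B + (q + q)) := by
    rw [Fintype.card_fun, Fintype.card_fin, Fintype.card_fin]
  have hpar := (isAut (q := q) (B := B) (H := H)).parikh (Ψ := fun x => vf (psi q x))
    (vf_psi_append (q := q)) (K := K) (by rw [hcard]; exact hK)
    (fun x => ∀ i < q, (i, true) ∈ x) (by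
      intro x y h hx i hi
      rw [st_eq_iff, stl_eq_iff] at h
      rw [← ended_iff, ← h.2.2 i hi, ended_iff]
      exact hx i hi) (vf t)
  have e1 : (∃ ω : List Letter, Valid q B (Hf H) ω ∧
      (∀ i < q, (i, true) ∈ ω) ∧ ∀ i < q, ω.count (i, false) = vf t i) ↔
      ∃ ω, Val (Ok q B (Hf H)) ω ∧ (∀ i < q, (i, true) ∈ ω) ∧ vf (psi q ω) = vf t := by
    refine exists_congr (fun ω => and_congr valid_iff_val (and_congr Iff.rfl ?_))
    constructor
    · intro h
      funext i
      rw [vf_psi]
      split_ifs with hi
      · exact h i hi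
      · exact (vf_of_le (by omega)).symm
    · intro h i hi
      rw [← h, vf_psi, if_pos hi]
  rw [e1, hpar]
  -- membership in the submonoid
  have hgen : ∀ ω0, Val (Ok q B (Hf H)) ω0 → {f | ∃ g ∈ gensOf q B H Ws ω0, vf g = f} =
      CycSet (st q B) (Ok q B (Hf H)) (fun x => vf (psi q x)) K ω0 := by
    intro ω0 hv0
    ext f
    unfold gensOf CycSet
    constructor
    · rintro ⟨g, hg, rfl⟩
      obtain ⟨c, hc, rfl⟩ := List.mem_map.1 hg
      obtain ⟨hc, hcyc⟩ := List.mem_filter.1 hc
      obtain ⟨x, hx, hcx⟩ := List.any_eq_true.1 hcyc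
      unfold isCyc at hcx
      rw [Bool.and_eq_true, validb_iff, veq_iff] at hcx
      exact ⟨c, x, mem_sufs.1 hx, hcx.1, st_eq_iff.2 hcx.2, ((hW2 c).1 hc).1, rfl⟩
    · rintro ⟨c, x, hx, hvc, hst, hl, rfl⟩
      refine ⟨psi q c, List.mem_map.2 ⟨c, List.mem_filter.2 ⟨(hW2 c).2 ⟨hl, fun a ha => ?_⟩,
        List.any_eq_true.2 ⟨x, mem_sufs.2 hx, ?_⟩⟩, rfl⟩, rfl⟩
      · rw [mem_letters]
        exact Valid.seg_lt (valid_iff_val.2 hvc) a (by simp [ha])
      · unfold isCyc
        rw [Bool.and_eq_true, validb_iff, veq_iff]
        exact ⟨hvc, st_eq_iff.1 hst⟩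
  have hmem : ∀ ω0, Val (Ok q B (Hf H)) ω0 → (memb pad (gensOf q B H Ws ω0)
      (vsub t (psi q ω0)) m = true ↔ vf (vsub t (psi q ω0)) ∈ AddSubmonoid.closure
        (CycSet (st q B) (Ok q B (Hf H)) (fun x => vf (psi q x)) K ω0)) := by
    intro ω0 hv0
    have hgl : (gensOf q B H Ws ω0).length ≤ (1 + 2 * q) ^ K := by
      unfold gensOf
      rw [List.length_map]
      exact (List.length_filter_le _ _).trans hW1
    rw [← hgen ω0 hv0]
    refine memb_iff (q := q) (K := K) _ ?_ ?_ ?_ ?_ ?_
    · intro g hg
      obtain ⟨c, -, rfl⟩ := List.mem_map.1 hg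
      exact length_psi c
    · intro g hg i
      obtain ⟨c, hc, rfl⟩ := List.mem_map.1 hg
      exact (vf_psi_le c i).trans ((hW2 c).1 (List.mem_filter.1 hc).1).1
    · refine le_trans (Nat.pow_le_pow_left ?_ q) hpad2
      have := Nat.mul_le_mul_right K hgl
      omega
    · rw [length_vsub (by rw [ht, length_psi]), ht]
    · intro i
      rw [vf_vsub (by rw [ht, length_psi])]
      exact lt_of_le_of_lt (Nat.sub_le _ _) (hm i)
  unfold mainAlg
  rw [List.any_eq_true]
  constructor
  · rintro ⟨ω0, hω0, h⟩
    rw [Bool.and_eq_true, Bool.and_eq_true, Bool.and_eq_true, validb_iff, accb_iff] at h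
    obtain ⟨hv0, ha, hle, hm0⟩ := h
    rw [← hWs, hmem ω0 hv0] at hm0
    rw [vle_iff (by rw [length_psi, ht])] at hle
    refine ⟨ω0, hv0, ha, ((hW2 ω0).1 hω0).1, _, hm0, funext fun i => ?_⟩
    rw [Pi.add_apply, vf_vsub (by rw [ht, length_psi])]
    have := hle i
    omega
  · rintro ⟨ω0, hv0, ha, hl, z, hz, htz⟩
    refine ⟨ω0, (hW2 ω0).2 ⟨hl, fun a ha => ?_⟩, ?_⟩
    · rw [mem_letters]
      exact Valid.seg_lt (valid_iff_val.2 hv0) a ha
    · rw [Bool.and_eq_true, Bool.and_eq_true, Bool.and_eq_true, validb_iff, accb_iff]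
      refine ⟨hv0, ha, ?_, ?_⟩
      · rw [vle_iff (by rw [length_psi, ht])]
        intro i
        rw [htz, Pi.add_apply]
        omega
      · rw [← hWs, hmem ω0 hv0]
        have : vf (vsub t (psi q ω0)) = z := by
          funext i
          rw [vf_vsub (by rw [ht, length_psi]), htz, Pi.add_apply]
          omega
        rw [this]
        exact hz

end Pool.Agent.Lib.MP_7c7c4f_lc
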