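import Pool.Agent.Lib.MP_7c7c4f_lc.Skel

/-!
# The number of segments of a directed tree is at most four times its width
-/

namespace Pool.Agent.Lib.MP_7c7c4f_lc

open Finset

section

variable {V : Type} [Fintype V]

open Classical in
/-- Out-degree. -/
noncomputable def od (G : Digraph V) (u : V) : ℕ := (univ.filter (fun v => G.Adj u v)).card

open Classical in
/-- In-degree. -/
noncomputable def idg (G : Digraph V) (v : V) : ℕ := (univ.filter (fun u => G.Adj u v)).card

theorem sum_od_eq (G : Digraph V) : ∑ u, od G u = ∑ v, idg G v := by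
  classical
  exact Finset.sum_card_bipartiteAbove_eq_sum_card_bipartiteBelow (fun u v => G.Adj u v)

theorem IsDirectedTree.sum_deg {G : Digraph V} (h : IsDirectedTree G) :
    ∑ u, od G u + 1 = Fintype.card V ∧ ∑ v, idg G v + 1 = Fintype.card V := by
  classical
  obtain ⟨h1, hT⟩ := h
  have h2 := hT.card_edgeFinset
  have h3 := G.toSimpleGraphInclusive.sum_degrees_eq_twice_card_edges
  have h4 : ∀ v, G.toSimpleGraphInclusive.degree v = od G v + idg G v := by
    intro v
    unfold od idg
    rw [← Finset.card_union_of_disjoint]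
    · rw [← SimpleGraph.card_neighborFinset_eq_degree]
      congr 1
      ext u
      rw [SimpleGraph.mem_neighborFinset, adj_incl_iff h1]
      simp
    · rw [Finset.disjoint_left]
      intro u hu hu'
      rw [Finset.mem_filter] at hu hu'
      exact h1 _ _ hu.2 hu'.2
  rw [Finset.sum_congr rfl (fun v _ => h4 v), Finset.sum_add_distrib, sum_od_eq] at h3
  have h5 := sum_od_eq G
  omega

theorem antichain_sources {G : Digraph V} (S : Finset V) (hS : ∀ v ∈ S, idg G v = 0) :
    PathAntichain G S := by
  classical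
  intro u hu v hv _ h
  obtain ⟨b, -, hb⟩ := Relation.TransGen.tail'_iff.1 h
  have h1 := hS v hv
  unfold idg at h1
  rw [Finset.card_eq_zero, Finset.filter_eq_empty_iff] at h1
  exact h1 (Finset.mem_univ b) hb

theorem antichain_sinks {G : Digraph V} (S : Finset V) (hS : ∀ v ∈ S, od G v = 0) :
    PathAntichain G S := by
  classical
  intro u hu v hv _ h
  obtain ⟨b, hb, -⟩ := Relation.TransGen.head'_iff.1 h
  have h1 := hS u hu
  unfold od at h1
  rw [Finset.card_eq_zero, Finset.filter_eq_empty_iff] at h1
  exact h1 (Finset.mem_univ b) hb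

theorem count_aux (f : V → ℕ) (hf : ∑ v, f v + 1 = Fintype.card V) :
    (univ.filter (fun v => 2 ≤ f v)).card + 1 ≤ (univ.filter (fun v => f v = 0)).card ∧
      ∑ v ∈ univ.filter (fun v => 2 ≤ f v), f v + 2 ≤ 2 * (univ.filter (fun v => f v = 0)).card := by
  have h1 : ∑ v : V, (1 + (if 2 ≤ f v then 1 else 0)) ≤
      ∑ v : V, (f v + (if f v = 0 then 1 else 0)) := by
    refine Finset.sum_le_sum (fun v _ => ?_)
    split_ifs <;> omega
  have h2 : ∑ v : V, (2 + (if 2 ≤ f v then f v else 0)) ≤
      ∑ v : V, (2 * f v + 2 * (if f v = 0 then 1 else 0)) := by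
    refine Finset.sum_le_sum (fun v _ => ?_)
    split_ifs <;> omega
  rw [Finset.sum_add_distrib, Finset.sum_add_distrib, ← Finset.card_filter,
    ← Finset.card_filter, Finset.sum_const, Finset.card_univ, smul_eq_mul] at h1
  rw [Finset.sum_add_distrib, Finset.sum_add_distrib, ← Finset.sum_filter, ← Finset.mul_sum,
    ← Finset.mul_sum, ← Finset.card_filter, Finset.sum_const, Finset.card_univ,
    smul_eq_mul] at h2
  constructor <;> omega

/-- The number of vertices which do not follow their unique predecessor in a segment. -/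
theorem IsDirectedTree.starts_le {G : Digraph V} (h : IsDirectedTree G) (S : Finset V)
    (hS : ∀ v ∈ S, ∀ u, G.Adj u v → od G u = 1 → idg G v ≠ 1) :
    S.card ≤ 4 * width G := by
  classical
  obtain ⟨h1, h2⟩ := h.sum_deg
  obtain ⟨h3, -⟩ := count_aux (idg G) h2
  obtain ⟨-, h4⟩ := count_aux (od G) h1
  have h5 := (antichain_sources (G := G) (univ.filter (fun v => idg G v = 0))
    (by intro v hv; exact (Finset.mem_filter.1 hv).2)).card_le_width
  have h6 := (antichain_sinks (G := G) (univ.filter (fun v => od G v = 0))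
    (by intro v hv; exact (Finset.mem_filter.1 hv).2)).card_le_width
  have hsub : S ⊆ (univ.filter (fun v => idg G v = 0)) ∪ ((univ.filter (fun v => 2 ≤ idg G v)) ∪
      (univ.filter (fun u => 2 ≤ od G u)).biUnion (fun u => univ.filter (fun v => G.Adj u v))) := by
    intro v hv
    rw [Finset.mem_union, Finset.mem_union, Finset.mem_filter, Finset.mem_filter,
      Finset.mem_biUnion]
    rcases Nat.lt_trichotomy (idg G v) 1 with h7 | h7 | h7
    · exact Or.inl ⟨Finset.mem_univ _, by omega⟩
    · right; right
      have h8 := h7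
      unfold idg at h8
      obtain ⟨u, hu⟩ := Finset.card_pos.1 (by rw [h8]; exact Nat.one_pos)
      rw [Finset.mem_filter] at hu
      have h9 : od G u ≠ 1 := fun h9 => hS v hv u hu.2 h9 h7
      have h10 : 0 < od G u := by
        unfold od
        exact Finset.card_pos.2 ⟨v, Finset.mem_filter.2 ⟨Finset.mem_univ _, hu.2⟩⟩
      exact ⟨u, Finset.mem_filter.2 ⟨Finset.mem_univ _, by omega⟩,
        Finset.mem_filter.2 ⟨Finset.mem_univ _, hu.2⟩⟩
    · exact Or.inr (Or.inl ⟨Finset.mem_univ _, by omega⟩)
  have h7 := (Finset.card_le_card hsub).trans ((Finset.card_union_le _ _).trans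
    (Nat.add_le_add_left (Finset.card_union_le _ _) _))
  have h8 : ((univ.filter (fun u => 2 ≤ od G u)).biUnion
      (fun u => univ.filter (fun v => G.Adj u v))).card ≤
      ∑ u ∈ univ.filter (fun u => 2 ≤ od G u), od G u := Finset.card_biUnion_le
  omega

end

section

variable {n : ℕ} {A : ℕ → ℕ → Bool}

theorem length_filter_range (p : ℕ → Bool) :
    ((List.range n).filter p).length = (univ.filter (fun i : Fin n => p i = true)).card := by
  rw [← List.toFinset_card_of_nodup (List.Nodup.filter _ List.nodup_range)]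
  refine Eq.symm (Finset.card_bij (fun i _ => (i : ℕ)) ?_ ?_ ?_)
  · intro i hi
    rw [List.mem_toFinset, List.mem_filter, List.mem_range]
    exact ⟨i.2, (Finset.mem_filter.1 hi).2⟩
  · intro i _ j _ hij
    exact Fin.ext hij
  · intro i hi
    rw [List.mem_toFinset, List.mem_filter, List.mem_range] at hi
    exact ⟨⟨i, hi.1⟩, Finset.mem_filter.2 ⟨Finset.mem_univ _, hi.2⟩, rfl⟩

theorem length_outs {G : Digraph (Fin n)} (hG : ∀ u v : Fin n, G.Adj u v ↔ A u v = true)
    (u : Fin n) : (outs n A u).length = od G u := by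
  classical
  unfold outs od
  rw [length_filter_range]
  congr 1
  ext v
  simp [hG]

theorem length_inns {G : Digraph (Fin n)} (hG : ∀ u v : Fin n, G.Adj u v ↔ A u v = true)
    (v : Fin n) : (inns n A v).length = idg G v := by
  classical
  unfold inns idg
  rw [length_filter_range]
  congr 1
  ext u
  simp [hG]

/-- The number of segments. -/
theorem length_starts_le {G : Digraph (Fin n)} (hG : ∀ u v : Fin n, G.Adj u v ↔ A u v = true)
    (h : IsDirectedTree G) : (starts n A).length ≤ 4 * width G := by
  classical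
  have h1 : (starts n A).length =
      (univ.filter (fun v : Fin n => (v : ℕ) ∈ starts n A)).card := by
    rw [← List.toFinset_card_of_nodup starts_nodup]
    refine Eq.symm (Finset.card_bij (fun i _ => (i : ℕ)) ?_ ?_ ?_)
    · intro i hi
      rw [List.mem_toFinset]
      exact (Finset.mem_filter.1 hi).2
    · intro i _ j _ hij
      exact Fin.ext hij
    · intro i hi
      rw [List.mem_toFinset] at hi
      exact ⟨⟨i, (mem_starts.1 hi).1⟩, Finset.mem_filter.2 ⟨Finset.mem_univ _, hi⟩, rfl⟩
  rw [h1]
  refine h.starts_le _ (fun v hv u huv hu hv1 => ?_)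
  have h2 := (mem_starts.1 (Finset.mem_filter.1 hv).2).2 u
  refine h2 ⟨u.2, v.2, internal_iff.2 ⟨(hG u v).1 huv, ?_, ?_⟩⟩
  · rw [length_outs hG]; exact hu
  · rw [length_inns hG]; exact hv1

end

section

variable {V : Type} {G : Digraph V} {q : ℕ} {len : ℕ → ℕ} {H : ℕ → ℕ → Bool} {seg pos : V → ℕ}

theorem Rep.path (hr : Rep G q len H seg pos) : ∀ (k : ℕ) (u v : V), seg u = seg v →
    pos v = pos u + (k + 1) → Relation.TransGen G.Adj u v
  | 0, u, v, h1, h2 => Relation.TransGen.single ((hr.adj u v).2 (Or.inl ⟨h1, h2⟩))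
  | k + 1, u, v, h1, h2 => by
    obtain ⟨x, hx1, hx2⟩ := hr.surj (seg v) (hr.seg_lt v) (pos u + (k + 1))
      (by have := hr.pos_lt v; omega)
    exact (hr.path k u x (h1.trans hx1.symm) hx2).tail
      ((hr.adj x v).2 (Or.inl ⟨hx1, by omega⟩))

/-- The width is at most the number of segments. -/
theorem Rep.width_le [Fintype V] (hr : Rep G q len H seg pos) : width G ≤ q := by
  classical
  unfold width
  refine csSup_le ⟨0, ∅, by intro u hu; simp at hu, rfl⟩ ?_
  rintro k ⟨S, hS, rfl⟩
  have h1 : (S.image seg).card = S.card := by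
    refine Finset.card_image_of_injOn (fun u hu v hv huv => ?_)
    by_contra hne
    rcases Nat.lt_trichotomy (pos u) (pos v) with h | h | h
    · exact hS u hu v hv hne (hr.path (pos v - pos u - 1) u v huv (by omega))
    · exact hne (hr.inj u v huv h)
    · exact hS v hv u hu (Ne.symm hne) (hr.path (pos u - pos v - 1) v u huv.symm (by omega))
  rw [← h1]
  have h2 : S.image seg ⊆ Finset.range q := by
    intro i hi
    obtain ⟨v, -, rfl⟩ := Finset.mem_image.1 hi
    exact Finset.mem_range.2 (hr.seg_lt v)
  simpa using Finset.card_le_card h2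

theorem DirectedBandwidthLE.mono [Fintype V] {B B' : ℕ} (h : DirectedBandwidthLE G B)
    (hB : B ≤ B') : DirectedBandwidthLE G B' := by
  obtain ⟨f, hf⟩ := h
  exact ⟨f, fun u v huv => ⟨(hf u v huv).1, (hf u v huv).2.trans (by omega)⟩⟩

/-- Large bounds may be replaced by twice the number of segments. -/
theorem Rep.cap [Fintype V] (hr : Rep G q len H seg pos) (hT : IsDirectedTree G) (B : ℕ) :
    DirectedBandwidthLE G B ↔ DirectedBandwidthLE G (min B (2 * q)) := by
  have h1 := hT.bandwidth_le
  have h2 := hr.width_le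
  rcases le_total B (2 * q) with h | h
  · rw [min_eq_left h]
  · rw [min_eq_right h]
    exact ⟨fun _ => h1.mono (by omega), fun h' => h'.mono h⟩

end

end Pool.Agent.Lib.MP_7c7c4f_lc
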