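import Mathlib

/-!
# Directed bandwidth of directed trees: the basic notions
-/

namespace Pool.Agent.Lib.MP_7c7c4f_lc

variable {V : Type}

/-- A directed tree: a directed graph without loops and without pairs of opposite arcs, whose
underlying undirected graph is a tree. -/
def IsDirectedTree (G : Digraph V) : Prop :=
  (∀ u v, G.Adj u v → ¬ G.Adj v u) ∧ G.toSimpleGraphInclusive.IsTree

/-- `S` is a set of vertices no two of which are joined by a directed path. -/
def PathAntichain (G : Digraph V) (S : Finset V) : Prop :=
  ∀ u ∈ S, ∀ v ∈ S, u ≠ v → ¬ Relation.TransGen G.Adj u v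

/-- The width of `G`: the largest size of a set of vertices no two of which are joined by a
directed path. -/
noncomputable def width [Fintype V] (G : Digraph V) : ℕ :=
  sSup {k : ℕ | ∃ S : Finset V, PathAntichain G S ∧ S.card = k}

/-- `G` has a topological ordering of directed bandwidth at most `B`: there is a bijection `f`
from the vertices to `{0, …, n - 1}` with `f u < f v ≤ f u + B` for each arc `(u, v)`. -/
def DirectedBandwidthLE [Fintype V] (G : Digraph V) (B : ℕ) : Prop :=
  ∃ f : V ≃ Fin (Fintype.card V), ∀ u v, G.Adj u v →
    (f u : ℕ) < (f v : ℕ) ∧ (f v : ℕ) ≤ (f u : ℕ) + B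

end Pool.Agent.Lib.MP_7c7c4f_lc
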