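import Pool.Agent.Lib.MP_7c7c4f_lc.Defs

/-!
# Fixed-parameter tractability of Directed Bandwidth on directed trees: the statement
-/

namespace Pool.Agent.Lib.MP_7c7c4f_lc

/-- An instance of Directed Bandwidth: a directed graph on `{0, …, n - 1}`, given by its adjacency
matrix, and a bound `B`. -/
structure Inst where
  /-- the number of vertices -/
  n : ℕ
  /-- the adjacency matrix -/
  adj : Fin n → Fin n → Bool
  /-- the bound -/
  B : ℕ

/-- The directed graph of an instance. -/
def Inst.graph (x : Inst) : Digraph (Fin x.n) where
  Adj u v := x.adj u v = true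

/-- The input word of an instance: `n` ones, a zero, the `n ^ 2` entries of the adjacency matrix
(row by row), and `B` in binary. -/
def Inst.code (x : Inst) : List Bool :=
  List.replicate x.n true ++
    (false :: ((List.ofFn fun k : Fin (x.n * x.n) => x.adj k.divNat k.modNat) ++ Nat.bits x.B))

/-- A parameterized promise problem, with inputs `x : X` given by words `code x`, parameter `κ`,
promise `P` and question `L`, is (strongly uniformly) fixed-parameter tractable: one multi-stack
Turing machine with finite stack alphabets decides whether `L x` holds, for each `x` fulfilling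
the promise, within `g (κ x) * N ^ c` steps, where `N` is the length of the input word, `g` is a
computable function and `c` is a constant. -/
def IsFPT {X : Type} (code : X → List Bool) (κ : X → ℕ) (P L : X → Prop) : Prop :=
  ∃ (M : Turing.FinTM2) (e₀ : M.Γ M.k₀ ≃ Bool) (e₁ : M.Γ M.k₁ ≃ Bool) (g : ℕ → ℕ) (c : ℕ),
    (∀ k, Finite (M.Γ k)) ∧ Computable g ∧
      ∀ x, P x → ∃ b : Bool, (b = true ↔ L x) ∧
        Nonempty (Turing.TM2OutputsInTime M ((code x).map e₀.symm) (some ([b].map e₁.symm))
          (g (κ x) * (code x).length ^ c))

end Pool.Agent.Lib.MP_7c7c4f_lc
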