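import Pool.Agent.Lib.MP_7c7c4f_lc.PExtra

/-!
# Functions computable in fixed-parameter time
-/

namespace Pool.Agent.Lib.MP_7c7c4f_lc

open Function TM

variable {α β γ : Type} [TrEnc α] [TrEnc β] [TrEnc γ]

/-- Functions computable in time polynomial in the size of the input plus a computable function
of the parameter. -/
def FT (κ : α → ℕ) (f : α → β) : Prop :=
  ∃ (P : Polynomial ℕ) (g : ℕ → ℕ), Monotone g ∧ Computable g ∧
    TimeB f (fun a => P.eval (sz a + g (κ a)))

theorem computable_add {g g' : ℕ → ℕ} (hg : Computable g) (hg' : Computable g') :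
    Computable (fun k => g k + g' k) :=
  Computable.of_eq (Primrec.nat_add.to_comp.comp hg hg') (fun _ => rfl)

theorem computable_mul {g g' : ℕ → ℕ} (hg : Computable g) (hg' : Computable g') :
    Computable (fun k => g k * g' k) :=
  Computable.of_eq (Primrec.nat_mul.to_comp.comp hg hg') (fun _ => rfl)

theorem computable_pow_const {g : ℕ → ℕ} (hg : Computable g) (d : ℕ) :
    Computable (fun k => g k ^ d) := by
  induction d with
  | zero => simpa using Computable.const 1
  | succ d ih =>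
    refine Computable.of_eq (computable_mul ih hg) (fun k => ?_)
    rw [pow_succ]

theorem primrec_two_pow : Primrec (fun n : ℕ => 2 ^ n) := by
  refine (Primrec.nat_rec₁ (f := fun _ x => x + x) 1
    (Primrec.nat_add.comp Primrec.snd Primrec.snd)).of_eq (fun n => ?_)
  induction n with
  | zero => rfl
  | succ n ih =>
    rw [pow_succ, ← ih]
    ring

theorem computable_two_pow {g : ℕ → ℕ} (hg : Computable g) : Computable (fun k => 2 ^ g k) :=
  primrec_two_pow.to_comp.comp hg

theorem _root_.Pool.Agent.Lib.MP_7c7c4f_lc.TM.PTime.toFT {f : α → β} (hf : PTime f)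
    (κ : α → ℕ) : FT κ f := by
  obtain ⟨p, P, hp⟩ := hf.exists_poly
  exact ⟨P, fun _ => 0, fun _ _ _ => le_rfl, Computable.const 0, p, fun a => hp a⟩

theorem FT.comp {κ : α → ℕ} {κ' : β → ℕ} {f : α → β} {h : β → γ} (G : ℕ → ℕ)
    (hG : Computable G) (hGm : Monotone G) (hκ : ∀ a, κ' (f a) ≤ G (κ a))
    (hh : FT κ' h) (hf : FT κ f) : FT κ (fun a => h (f a)) := by
  obtain ⟨P, g, hgm, hgc, hf⟩ := hf
  obtain ⟨P', g', hgm', hgc', hh⟩ := hh
  refine ⟨P + P'.comp (Polynomial.X + P), fun k => g k + g' (G k),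
    fun a b hab => add_le_add (hgm hab) (hgm' (hGm hab)),
    computable_add hgc (hgc'.comp hG), (hh.comp hf).mono (fun a => ?_)⟩
  obtain ⟨p, hp⟩ := hf
  have h1 : sz (f a) ≤ sz a + P.eval (sz a + g (κ a)) := (hp a).size_le
  have h2 : g' (κ' (f a)) ≤ g' (G (κ a)) := hgm' (hκ a)
  have h3 : P.eval (sz a + g (κ a)) ≤ P.eval (sz a + (g (κ a) + g' (G (κ a)))) :=
    polyEval_mono P (by omega)
  beta_reduce
  rw [Polynomial.eval_add, Polynomial.eval_comp, Polynomial.eval_add, Polynomial.eval_X]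
  refine add_le_add h3 (polyEval_mono P' ?_)
  omega

theorem FT.post {κ : α → ℕ} {f : α → β} {h : β → γ} (hh : PTime h) (hf : FT κ f) :
    FT κ (fun a => h (f a)) :=
  FT.comp (κ' := fun _ => 0) (fun _ => 0) (Computable.const 0) (fun _ _ _ => le_rfl)
    (fun _ => le_rfl) (hh.toFT _) hf

theorem FT.pair {κ : α → ℕ} {f : α → β} {h : α → γ} (hf : FT κ f) (hh : FT κ h) :
    FT κ (fun a => (f a, h a)) := by
  obtain ⟨P, g, hgm, hgc, p, hp⟩ := hf
  obtain ⟨P', g', hgm', hgc', p', hp'⟩ := hh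
  refine ⟨40 * Polynomial.X + P + 10 * P' + 12, fun k => g k + g' k,
    fun a b hab => add_le_add (hgm hab) (hgm' hab),
    computable_add hgc hgc', pPair p p', fun a => ((hp a).pair (hp' a)).mono ?_⟩
  have h3 : P.eval (sz a + g (κ a)) ≤ P.eval (sz a + (g (κ a) + g' (κ a))) :=
    polyEval_mono P (by omega)
  have h4 : P'.eval (sz a + g' (κ a)) ≤ P'.eval (sz a + (g (κ a) + g' (κ a))) :=
    polyEval_mono P' (by omega)
  have h5 : (enc a).size = sz a := rfl
  simp only [Polynomial.eval_add, Polynomial.eval_mul, Polynomial.eval_ofNat, Polynomial.eval_X]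
  omega

/-- Doubling loop. -/
def dblStep (s : ℕ × ℕ) : ℕ × ℕ := (s.1 - 1, s.2 + s.2)

theorem dblStep_iterate (i : ℕ) : ∀ s : ℕ × ℕ, dblStep^[i] s = (s.1 - i, 2 ^ i * s.2) := by
  induction i with
  | zero => intro s; simp
  | succ i ih =>
    intro s
    rw [Function.iterate_succ_apply', ih]
    unfold dblStep
    refine Prod.ext ?_ ?_
    · show s.1 - i - 1 = s.1 - (i + 1)
      omega
    · show 2 ^ i * s.2 + 2 ^ i * s.2 = 2 ^ (i + 1) * s.2
      rw [pow_succ]; ring

/-- Exponentiation. -/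
theorem ft_two_pow : FT (fun n : ℕ => n) (fun n : ℕ => 2 ^ n) := by
  have hstep : PTime dblStep := by unfold dblStep; fun_prop
  have htest : PTime (fun s : ℕ × ℕ => !(decide (s.1 = 0))) := by fun_prop
  have hloop : FT (fun s : ℕ × ℕ => s.1) (fun s : ℕ × ℕ => dblStep^[s.1] s) := by
    obtain ⟨P, p, hp⟩ := TimeB.loop htest hstep
    refine ⟨(Polynomial.X + 2) * P.comp (2 * Polynomial.X + 2 * Polynomial.X ^ 2 + 3),
      fun k => 2 ^ k, fun a b hab => Nat.pow_le_pow_right (by omega) hab,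
      computable_two_pow Computable.id, p, fun s => ?_⟩
    refine (hp s s.1 (2 * s.1 + 2 * (2 ^ s.1 * s.2) + 3) ?_ ?_ ?_).mono ?_
    · intro i hi
      rw [dblStep_iterate]
      have : s.1 - i ≠ 0 := by omega
      simp [this]
    · rw [dblStep_iterate]
      simp
    · intro i hi
      rw [dblStep_iterate, sz_prod, sz_nat, sz_nat]
      have : 2 ^ i * s.2 ≤ 2 ^ s.1 * s.2 :=
        Nat.mul_le_mul_right _ (Nat.pow_le_pow_right (by omega) hi)
      omega
    · beta_reduce
      rw [Polynomial.eval_mul, Polynomial.eval_add, Polynomial.eval_X, Polynomial.eval_comp]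
      simp only [Polynomial.eval_add, Polynomial.eval_mul, Polynomial.eval_ofNat,
        Polynomial.eval_X, Polynomial.eval_pow]
      have h0 : 0 < 2 ^ s.1 := Nat.two_pow_pos _
      have h1 : s.1 ≤ sz s := by rw [sz_prod', sz_nat]; omega
      have h2 : s.2 ≤ sz s := by rw [sz_prod', sz_nat, sz_nat]; omega
      have h3 : 2 ^ s.1 * s.2 ≤ (sz s + 2 ^ s.1) ^ 2 := by
        rw [sq]
        exact Nat.mul_le_mul (by omega) (by omega)
      refine Nat.mul_le_mul (by omega) (polyEval_mono P ?_)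
      omega
  have hinit : FT (fun n : ℕ => n) (fun n : ℕ => (n, 1)) :=
    PTime.toFT (by fun_prop) _
  have h1 := FT.comp (fun k => k) Computable.id monotone_id (fun a => le_rfl) hloop hinit
  have h2 := FT.post (h := fun s : ℕ × ℕ => s.2) (by fun_prop) h1
  have e : (fun n : ℕ => (dblStep^[n] (n, 1)).2) = fun n : ℕ => 2 ^ n := by
    funext n
    rw [dblStep_iterate]
    simp
  rw [← e]
  exact h2

theorem FT.two_pow {κ : α → ℕ} {f : α → ℕ} (G : ℕ → ℕ)
    (hG : Computable G) (hGm : Monotone G) (hκ : ∀ a, f a ≤ G (κ a)) (hf : FT κ f) :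
    FT κ (fun a => 2 ^ f a) :=
  FT.comp (κ' := fun n => n) G hG hGm hκ ft_two_pow hf

theorem poly_bound (P : Polynomial ℕ) : ∃ C d, ∀ x, P.eval x ≤ C * (x + 1) ^ d := by
  induction P using Polynomial.induction_on' with
  | add P Q hP hQ =>
    obtain ⟨C, d, h⟩ := hP
    obtain ⟨C', d', h'⟩ := hQ
    refine ⟨C + C', d + d', fun x => ?_⟩
    rw [Polynomial.eval_add, add_mul]
    refine add_le_add ((h x).trans ?_) ((h' x).trans ?_)
    · exact Nat.mul_le_mul_left _ (Nat.pow_le_pow_right (by omega) (by omega))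
    · exact Nat.mul_le_mul_left _ (Nat.pow_le_pow_right (by omega) (by omega))
  | monomial n a =>
    refine ⟨a, n, fun x => ?_⟩
    rw [Polynomial.eval_monomial]
    exact Nat.mul_le_mul_left _ (Nat.pow_le_pow_left (by omega) _)

end Pool.Agent.Lib.MP_7c7c4f_lc
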