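import Pool.Agent.Lib.MP_7c7c4f_lc.Defs

/-!
# Orderings as histories
-/

namespace Pool.Agent.Lib.MP_7c7c4f_lc

variable {V : Type}

/-- Histories: lists of vertices, latest vertex first, such that all predecessors of each vertex
are among the `B` vertices placed just before it. -/
def Good (G : Digraph V) (B : ℕ) : List V → Prop
  | [] => True
  | v :: h => v ∉ h ∧ (∀ u, G.Adj u v → u ∈ h.take B) ∧ Good G B h

theorem Good.nodup {G : Digraph V} {B : ℕ} : ∀ {h : List V}, Good G B h → h.Nodup
  | [], _ => List.nodup_nil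
  | _ :: _, hg => List.nodup_cons.2 ⟨hg.1, Good.nodup hg.2.2⟩

theorem Good.idx [DecidableEq V] {G : Digraph V} {B : ℕ} : ∀ {h : List V}, Good G B h →
    ∀ v ∈ h, ∀ u, G.Adj u v → u ∈ h ∧ h.idxOf v < h.idxOf u ∧ h.idxOf u ≤ h.idxOf v + B
  | [], _ => by simp
  | x :: h, hg => by
    intro v hv u huv
    obtain ⟨hx, hpred, hg'⟩ := hg
    by_cases hvx : v = x
    · subst hvx
      have hu := hpred u huv
      have hu' : u ∈ h := List.mem_of_mem_take hu
      have hne : v ≠ u := by rintro rfl; exact hx hu'
      refine ⟨List.mem_cons_of_mem _ hu', ?_⟩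
      rw [List.idxOf_cons_self, List.idxOf_cons_ne _ hne]
      have : h.idxOf u < B := by
        obtain ⟨l, hl⟩ := List.take_prefix B h
        have h1 : (h.take B).idxOf u < (h.take B).length := List.idxOf_lt_length_of_mem hu
        have h2 : h.idxOf u = (h.take B).idxOf u := by
          conv_lhs => rw [← hl]
          exact List.idxOf_append_of_mem hu
        rw [h2]
        exact h1.trans_le (List.length_take_le _ _)
      omega
    · have hv' : v ∈ h := by
        rcases List.mem_cons.1 hv with h1 | h1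
        · exact absurd h1 hvx
        · exact h1
      obtain ⟨h1, h2, h3⟩ := Good.idx hg' v hv' u huv
      have hne : x ≠ u := by rintro rfl; exact hx h1
      refine ⟨List.mem_cons_of_mem _ h1, ?_⟩
      rw [List.idxOf_cons_ne _ (Ne.symm hvx), List.idxOf_cons_ne _ hne]
      omega

/-- The history of an ordering. -/
def hist {n : ℕ} (f : V ≃ Fin n) : ℕ → List V
  | 0 => []
  | k + 1 => if hk : k < n then f.symm ⟨k, hk⟩ :: hist f k else hist f k

theorem mem_take_hist {n : ℕ} (f : V ≃ Fin n) (u : V) : ∀ (k B : ℕ), k ≤ n →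
    (u ∈ (hist f k).take B ↔ (f u : ℕ) < k ∧ k ≤ (f u : ℕ) + B)
  | 0, B, _ => by simp [hist]
  | k + 1, 0, _ => by simp
  | k + 1, B + 1, hk => by
    have hk' : k < n := hk
    have ih := mem_take_hist f u k B hk'.le
    rw [hist, dif_pos hk', List.take_succ_cons, List.mem_cons, ih]
    have : u = f.symm ⟨k, hk'⟩ ↔ (f u : ℕ) = k := by
      rw [Equiv.eq_symm_apply, Fin.ext_iff]
    rw [this]
    omega

theorem length_hist {n : ℕ} (f : V ≃ Fin n) : ∀ k ≤ n, (hist f k).length = k
  | 0, _ => rfl
  | k + 1, hk => by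
    have hk' : k < n := hk
    rw [hist, dif_pos hk', List.length_cons, length_hist f k hk'.le]

theorem mem_hist {n : ℕ} (f : V ≃ Fin n) (u : V) (k : ℕ) (hk : k ≤ n) :
    u ∈ hist f k ↔ (f u : ℕ) < k := by
  have := mem_take_hist f u k k hk
  rw [List.take_of_length_le (length_hist f k hk).le] at this
  rw [this]
  omega

theorem good_hist {n : ℕ} {G : Digraph V} {B : ℕ} (f : V ≃ Fin n)
    (hf : ∀ u v, G.Adj u v → (f u : ℕ) < (f v : ℕ) ∧ (f v : ℕ) ≤ (f u : ℕ) + B) :
    ∀ k ≤ n, Good G B (hist f k)
  | 0, _ => trivial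
  | k + 1, hk => by
    have hk' : k < n := hk
    rw [hist, dif_pos hk']
    refine ⟨?_, ?_, good_hist f hf k hk'.le⟩
    · rw [mem_hist f _ k hk'.le]
      simp
    · intro u hu
      have := hf _ _ hu
      rw [mem_take_hist f _ k B hk'.le]
      simpa using this

theorem directedBandwidthLE_iff [Fintype V] {G : Digraph V} {B : ℕ} :
    DirectedBandwidthLE G B ↔ ∃ h : List V, Good G B h ∧ ∀ v, v ∈ h := by
  classical
  constructor
  · rintro ⟨f, hf⟩
    refine ⟨hist f (Fintype.card V), good_hist f hf _ le_rfl, fun v => ?_⟩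
    rw [mem_hist f v _ le_rfl]
    exact (f v).2
  · rintro ⟨h, hg, hall⟩
    have hnd := hg.nodup
    have hlen : h.length = Fintype.card V := by
      have h1 : h.toFinset = Finset.univ := by
        ext v; simp [hall v]
      rw [← List.toFinset_card_of_nodup hnd, h1, Finset.card_univ]
    have hidx : ∀ v, h.idxOf v < Fintype.card V := fun v => by
      rw [← hlen]; exact List.idxOf_lt_length_of_mem (hall v)
    let f : V → Fin (Fintype.card V) := fun v =>
      ⟨Fintype.card V - 1 - h.idxOf v, by have := hidx v; omega⟩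
    have hinj : Function.Injective f := by
      intro u v huv
      have h1 : Fintype.card V - 1 - h.idxOf u = Fintype.card V - 1 - h.idxOf v :=
        congrArg Fin.val huv
      have h2 := hidx u
      have h3 := hidx v
      have h4 : h.idxOf u = h.idxOf v := by omega
      exact (List.idxOf_inj (hall u)).1 h4
    have hbij : Function.Bijective f :=
      (Fintype.bijective_iff_injective_and_card f).2 ⟨hinj, by simp⟩
    refine ⟨Equiv.ofBijective f hbij, fun u v huv => ?_⟩
    obtain ⟨-, h1, h2⟩ := hg.idx v (hall v) u huv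
    have h3 := hidx u
    have h4 := hidx v
    show Fintype.card V - 1 - h.idxOf u < Fintype.card V - 1 - h.idxOf v ∧
      Fintype.card V - 1 - h.idxOf v ≤ Fintype.card V - 1 - h.idxOf u + B
    omega

end Pool.Agent.Lib.MP_7c7c4f_lc
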