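import Pool.Agent.Lib.MP_7c7c4f_lc.Defs

/-!
# The level function of a directed tree
-/

namespace Pool.Agent.Lib.MP_7c7c4f_lc

open SimpleGraph

variable {V : Type}

/-- Adjacency in the underlying undirected graph. -/
theorem adj_incl_iff {G : Digraph V} (h : ∀ u v, G.Adj u v → ¬ G.Adj v u) {u v : V} :
    G.toSimpleGraphInclusive.Adj u v ↔ G.Adj u v ∨ G.Adj v u := by
  unfold Digraph.toSimpleGraphInclusive
  rw [SimpleGraph.fromRel_adj]
  constructor
  · exact fun h => h.2
  · intro h1
    refine ⟨?_, h1⟩
    rintro rfl
    rcases h1 with h1 | h1 <;> exact h _ _ h1 h1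

open Classical in
/-- Signed length of a walk. -/
noncomputable def signedLength {G : Digraph V} {u v : V}
    (p : G.toSimpleGraphInclusive.Walk u v) : ℤ :=
  (p.darts.map fun d => if G.Adj d.fst d.snd then (1 : ℤ) else -1).sum

/-- A directed tree has a level function which increases by one along each arc. -/
theorem IsDirectedTree.exists_level {G : Digraph V} (h : IsDirectedTree G) :
    ∃ τ : V → ℤ, ∀ u v, G.Adj u v → τ v = τ u + 1 := by
  classical
  obtain ⟨h1, hT⟩ := h
  obtain ⟨r⟩ := hT.connected.nonempty
  have hex := fun v => (hT.existsUnique_path r v).exists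
  choose p hp using hex
  refine ⟨fun v => signedLength (p v), fun u v huv => ?_⟩
  have hadj : G.toSimpleGraphInclusive.Adj u v := (adj_incl_iff h1).2 (Or.inl huv)
  have huniq : ∀ (w : V) (q : G.toSimpleGraphInclusive.Walk r w), q.IsPath → q = p w :=
    fun w q hq => (hT.existsUnique_path r w).unique hq (hp w)
  show signedLength (p v) = signedLength (p u) + 1
  by_cases hmem : v ∈ (p u).support
  · -- the path to `u` passes through `v`
    have hlast := hT.isAcyclic.path_concat (hp v) (hp u) hadj.symm hmem
    rw [hlast]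
    have h2 := h1 _ _ huv
    simp [signedLength, SimpleGraph.Walk.darts_concat, h2]
  · have hq : ((p u).concat hadj).IsPath := (hp u).concat hmem hadj
    have := huniq v _ hq
    rw [← this]
    simp [signedLength, SimpleGraph.Walk.darts_concat, huv]

theorem level_transGen {G : Digraph V} {τ : V → ℤ} (hτ : ∀ u v, G.Adj u v → τ v = τ u + 1)
    {u v : V} (h : Relation.TransGen G.Adj u v) : τ u < τ v := by
  induction h with
  | single h => have := hτ _ _ h; omega
  | tail _ h ih => have := hτ _ _ h; omega

/-- The width is at least the size of each antichain. -/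
theorem PathAntichain.card_le_width [Fintype V] {G : Digraph V} {S : Finset V}
    (h : PathAntichain G S) : S.card ≤ width G := by
  refine le_csSup ⟨Fintype.card V, ?_⟩ ⟨S, h, rfl⟩
  rintro k ⟨T, -, rfl⟩
  exact Finset.card_le_univ T

/-- The size of each level is at most the width. -/
theorem level_card_le [Fintype V] {G : Digraph V} {τ : V → ℤ}
    (hτ : ∀ u v, G.Adj u v → τ v = τ u + 1) (S : Finset V) (c : ℤ) (hS : ∀ v ∈ S, τ v = c) :
    S.card ≤ width G := by
  refine PathAntichain.card_le_width (fun u hu v hv _ h => ?_)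
  have := level_transGen hτ h
  rw [hS u hu, hS v hv] at this
  exact lt_irrefl _ this

/-- Every directed tree of width `w` has directed bandwidth at most `2 w - 1`. -/
theorem IsDirectedTree.bandwidth_le [Fintype V] {G : Digraph V} (h : IsDirectedTree G) :
    DirectedBandwidthLE G (2 * width G - 1) := by
  classical
  obtain ⟨τ, hτ⟩ := h.exists_level
  -- order the vertices by level, ties broken by an arbitrary enumeration
  let e : V ≃ Fin (Fintype.card V) := Fintype.equivFin V
  let key : V → ℤ ×ₗ Fin (Fintype.card V) := fun v => toLex (τ v, e v)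
  have hkey : Function.Injective key := by
    intro u v huv
    have : (τ u, e u) = (τ v, e v) := toLex.injective huv
    exact e.injective (Prod.ext_iff.1 this).2
  let _ : LinearOrder V := LinearOrder.lift' key hkey
  have hlt : ∀ u v : V, u < v ↔ key u < key v := fun u v => Iff.rfl
  have hlt1 : ∀ u v : V, τ u < τ v → u < v := by
    intro u v huv
    rw [hlt]
    exact Prod.Lex.toLex_lt_toLex.2 (Or.inl huv)
  have hle1 : ∀ u v : V, u ≤ v → τ u ≤ τ v := by
    intro u v huv
    by_contra hc
    exact absurd (hlt1 v u (not_le.1 hc)) (not_lt.2 huv)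
  let f : Fin (Fintype.card V) ≃o V := Fintype.orderIsoFinOfCardEq V rfl
  refine ⟨f.symm.toEquiv, fun u v huv => ?_⟩
  have h1 : f.symm u < f.symm v := f.symm.lt_iff_lt.2 (hlt1 u v (by rw [hτ u v huv]; omega))
  refine ⟨h1, ?_⟩
  show (f.symm v : ℕ) ≤ (f.symm u : ℕ) + (2 * width G - 1)
  -- the vertices between `u` and `v`
  let S : Finset V := (Finset.Ico (f.symm u) (f.symm v)).map f.toEquiv.toEmbedding
  have hS : S.card = (f.symm v : ℕ) - (f.symm u : ℕ) := by
    rw [Finset.card_map, Fin.card_Ico]
  have hmem : ∀ x ∈ S, u ≤ x ∧ x < v := by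
    intro x hx
    obtain ⟨i, hi, rfl⟩ := Finset.mem_map.1 hx
    rw [Finset.mem_Ico] at hi
    constructor
    · have := f.le_iff_le.2 hi.1
      rwa [f.apply_symm_apply] at this
    · have := f.lt_iff_lt.2 hi.2
      rwa [f.apply_symm_apply] at this
  let S0 := S.filter (fun x => τ x = τ u)
  let S1 := S.filter (fun x => ¬ τ x = τ u)
  have hc : S0.card + S1.card = S.card := Finset.card_filter_add_card_filter_not _
  have h0 : S0.card ≤ width G := level_card_le hτ S0 (τ u) (fun x hx => (Finset.mem_filter.1 hx).2)
  have hv1 : v ∉ S1 := by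
    intro hv
    exact lt_irrefl _ (hmem v (Finset.mem_filter.1 hv).1).2
  have h2 : (insert v S1).card ≤ width G := by
    refine level_card_le hτ _ (τ v) (fun x hx => ?_)
    rcases Finset.mem_insert.1 hx with rfl | hx
    · rfl
    · obtain ⟨hx1, hx2⟩ := Finset.mem_filter.1 hx
      have h3 := hle1 _ _ (hmem x hx1).1
      have h4 := hle1 _ _ (hmem x hx1).2.le
      have := hτ u v huv
      omega
  rw [Finset.card_insert_of_notMem hv1] at h2
  omega

end Pool.Agent.Lib.MP_7c7c4f_lc
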