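import Pool.Agent.Lib.MP_7c7c4f_lc.PSkel
import Pool.Agent.Lib.MP_7c7c4f_lc.FTime
import Pool.Agent.Lib.MP_7c7c4f_lc.FPTDefs

/-!
# Directed Bandwidth on directed trees is fixed-parameter tractable in the width
-/

namespace Pool.Agent.Lib.MP_7c7c4f_lc

open Function TM

/-! ### The constants -/

/-- Bound for the number of states. -/
def Mq (q : ℕ) : ℕ := 2 ^ (4 * (q * q))

/-- Bound for the length of the words. -/
def Kq (q : ℕ) : ℕ := Mq q * (Mq q + 1)

/-- Exponent of the padding. -/
def Eq' (q K : ℕ) : ℕ := 2 * q * K + q * (2 * q * K + K + 3)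

/-- The padding. -/
def padq (q : ℕ) : ℕ := 2 ^ Eq' q (Kq q)

theorem succ_le_two_pow (q : ℕ) : q + 1 ≤ 2 ^ q := Nat.lt_two_pow_self

theorem Kq_spec {q B : ℕ} (hB : B ≤ 2 * q) :
    (q + 1) ^ (B + (q + q)) * ((q + 1) ^ (B + (q + q)) + 1) ≤ Kq q := by
  have h1 : (q + 1) ^ (B + (q + q)) ≤ Mq q := by
    calc (q + 1) ^ (B + (q + q)) ≤ (q + 1) ^ (4 * q) :=
          Nat.pow_le_pow_right (by omega) (by omega)
      _ ≤ (2 ^ q) ^ (4 * q) := Nat.pow_le_pow_left (succ_le_two_pow q) _
      _ = Mq q := by unfold Mq; rw [← pow_mul]; congr 1; ring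
  exact Nat.mul_le_mul h1 (by omega)

theorem one_add_le (q K : ℕ) : (1 + 2 * q) ^ K ≤ 2 ^ (2 * q * K) := by
  rw [pow_mul]
  refine Nat.pow_le_pow_left ?_ _
  have := succ_le_two_pow (2 * q)
  omega

theorem padq_spec1 (q : ℕ) : (1 + 2 * q) ^ (Kq q) ≤ padq q := by
  refine (one_add_le q _).trans (Nat.pow_le_pow_right (by omega) ?_)
  unfold Eq'
  omega

theorem padq_spec2 (q : ℕ) : (2 * ((1 + 2 * q) ^ (Kq q) * Kq q) + 3) ^ q ≤ padq q := by
  have h1 := one_add_le q (Kq q)
  have h2 : Kq q ≤ 2 ^ (Kq q) := (Nat.lt_two_pow_self).le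
  have h3 : (1 + 2 * q) ^ (Kq q) * Kq q ≤ 2 ^ (2 * q * Kq q + Kq q) := by
    rw [pow_add]
    exact Nat.mul_le_mul h1 h2
  have h4 : 2 * ((1 + 2 * q) ^ (Kq q) * Kq q) + 3 ≤ 2 ^ (2 * q * Kq q + Kq q + 3) := by
    have h5 : 0 < 2 ^ (2 * q * Kq q + Kq q) := Nat.two_pow_pos _
    have h6 : 2 ^ (2 * q * Kq q + Kq q + 3) = 8 * 2 ^ (2 * q * Kq q + Kq q) := by
      rw [pow_add]; ring
    omega
  refine (Nat.pow_le_pow_left h4 q).trans ?_
  rw [← pow_mul]
  refine Nat.pow_le_pow_right (by omega) ?_
  unfold Eq'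
  rw [mul_comm (2 * q * Kq q + Kq q + 3) q]
  omega

/-! ### Correctness -/

section

variable (x : Inst)

theorem drop_code1 : x.code.drop (x.n + 1) =
    (List.ofFn fun k : Fin (x.n * x.n) => x.adj k.divNat k.modNat) ++ Nat.bits x.B := by
  unfold Inst.code
  rw [List.append_cons]
  exact List.drop_left' (by simp)

theorem drop_code2 : x.code.drop (x.n + 1 + x.n * x.n) = Nat.bits x.B := by
  rw [← List.drop_drop, drop_code1]
  exact List.drop_left' (by simp)

theorem lead_code' : lead x.code = x.n := lead_code _ _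

theorem Ab_code (u v : Fin x.n) : Ab x.n (x.code.drop (x.n + 1)) u v = x.adj u v := by
  rw [drop_code1]
  unfold Ab
  have h1 : (u : ℕ) * x.n + v < x.n * x.n := by
    have h2 := u.2
    have h3 := v.2
    calc (u : ℕ) * x.n + v < u * x.n + x.n := by omega
      _ = (u + 1) * x.n := by ring
      _ ≤ x.n * x.n := Nat.mul_le_mul_right _ h2
  rw [List.getD_append _ _ _ _ (by simpa using h1), List.getD_eq_getElem _ _ (by simpa using h1),
    List.getElem_ofFn]
  have h2 : Fin.divNat (⟨(u : ℕ) * x.n + v, h1⟩ : Fin (x.n * x.n)) = u := by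
    refine Fin.ext ?_
    show ((u : ℕ) * x.n + v) / x.n = u
    rw [mul_comm, Nat.mul_add_div (by have := v.2; omega), Nat.div_eq_of_lt v.2, add_zero]
  have h3 : Fin.modNat (⟨(u : ℕ) * x.n + v, h1⟩ : Fin (x.n * x.n)) = v := by
    refine Fin.ext ?_
    show ((u : ℕ) * x.n + v) % x.n = v
    rw [mul_comm, Nat.mul_add_mod, Nat.mod_eq_of_lt v.2]
  rw [h2, h3]

theorem adj_iff (u v : Fin x.n) :
    x.graph.Adj u v ↔ Ab x.n (x.code.drop (x.n + 1)) u v = true := by
  rw [Ab_code]
  rfl

theorem qOf_code : qOf x.code = (starts x.n (Ab x.n (x.code.drop (x.n + 1)))).length := by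
  unfold qOf startsB
  rw [lead_code']

theorem chain_length_le {n : ℕ} {A : ℕ → ℕ → Bool} (s : ℕ) : (chain n A s).length ≤ n + 1 :=
  (bd_chainStep (n := n) (A := A) (s := s) n).1

theorem vf_tvec_le {n : ℕ} {A : ℕ → ℕ → Bool} (i : ℕ) : vf (tvec n A) i ≤ n := by
  unfold vf
  rcases Nat.lt_or_ge i (tvec n A).length with hi | hi
  · rw [List.getD_eq_getElem _ _ hi]
    obtain ⟨s, -, hs⟩ := List.mem_map.1 (List.getElem_mem hi)
    rw [← hs]
    have := chain_length_le (n := n) (A := A) s
    omega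
  · rw [List.getD_eq_default _ _ hi]; exact Nat.zero_le _

variable {x}

theorem solve_iff (hT : IsDirectedTree x.graph) :
    solve x.code (Kq (qOf x.code)) (padq (qOf x.code)) = true ↔
      DirectedBandwidthLE x.graph x.B := by
  obtain ⟨τ', hτ'⟩ := hT.exists_level
  let τ : ℕ → ℤ := fun k => if h : k < x.n then τ' ⟨k, h⟩ else 0
  have hτ : ∀ u < x.n, ∀ v < x.n, Ab x.n (x.code.drop (x.n + 1)) u v = true →
      τ v = τ u + 1 := by
    intro u hu v hv huv
    have := hτ' ⟨u, hu⟩ ⟨v, hv⟩ ((adj_iff x ⟨u, hu⟩ ⟨v, hv⟩).2 huv)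
    simp only [τ, hu, hv, dif_pos]
    exact this
  obtain ⟨seg, pos, hr⟩ := exists_rep (G := x.graph) (adj_iff x) hτ
  rw [hr.cap hT x.B, hr.bandwidth_iff]
  unfold solve
  rw [lead_code', drop_code2, capval_bits, qOf_code]
  set q := (starts x.n (Ab x.n (x.code.drop (x.n + 1)))).length with hq
  unfold HmatB tvecB
  rw [mainAlg_iff (length_tvec) (fun i => lt_of_le_of_lt (vf_tvec_le i) Nat.lt_two_pow_self)
    (Kq_spec (min_le_right _ _)) (padq_spec1 q) (padq_spec2 q)]
  refine exists_congr (fun ω => and_congr Iff.rfl (and_congr Iff.rfl ?_))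
  refine forall_congr' (fun i => forall_congr' (fun hi => ?_))
  rw [vf_tvec hi]

end

/-! ### Time -/

theorem monotone_Mq : Monotone Mq := fun _ _ hab =>
  Nat.pow_le_pow_right (by omega) (Nat.mul_le_mul_left _ (Nat.mul_le_mul hab hab))

theorem monotone_Kq : Monotone Kq := fun _ _ hab =>
  Nat.mul_le_mul (monotone_Mq hab) (Nat.succ_le_succ (monotone_Mq hab))

theorem monotone_Eq' : Monotone (fun q => Eq' q (Kq q)) := by
  intro a b hab
  have h1 := monotone_Kq hab
  have h2 : 2 * a * Kq a ≤ 2 * b * Kq b := Nat.mul_le_mul (by omega) h1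
  have h3 : a * (2 * a * Kq a + Kq a + 3) ≤ b * (2 * b * Kq b + Kq b + 3) :=
    Nat.mul_le_mul hab (by omega)
  show Eq' a (Kq a) ≤ Eq' b (Kq b)
  unfold Eq'
  omega

theorem computable_Mq : Computable Mq :=
  computable_two_pow (computable_mul (Computable.const 4)
    (computable_mul Computable.id Computable.id))

theorem computable_Kq : Computable Kq :=
  computable_mul computable_Mq (computable_add computable_Mq (Computable.const 1))

theorem computable_Eq' : Computable (fun q => Eq' q (Kq q)) :=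
  computable_add (computable_mul (computable_mul (Computable.const 2) Computable.id)
    computable_Kq) (computable_mul Computable.id (computable_add (computable_add
      (computable_mul (computable_mul (Computable.const 2) Computable.id) computable_Kq)
      computable_Kq) (Computable.const 3)))

theorem ft_Mq : FT qOf (fun w : List Bool => Mq (qOf w)) :=
  FT.two_pow (f := fun w : List Bool => 4 * (qOf w * qOf w)) (fun k => 4 * (k * k))
    (computable_mul (Computable.const 4) (computable_mul Computable.id Computable.id))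
    (fun _ _ hab => Nat.mul_le_mul_left _ (Nat.mul_le_mul hab hab)) (fun _ => le_rfl)
    (PTime.toFT (by fun_prop) _)

theorem ft_Kq : FT qOf (fun w : List Bool => Kq (qOf w)) :=
  FT.post (h := fun m : ℕ => m * (m + 1)) (by fun_prop) ft_Mq

theorem ft_Eq : FT qOf (fun w : List Bool => Eq' (qOf w) (Kq (qOf w))) := by
  have h1 : FT qOf (fun w : List Bool => (w, Kq (qOf w))) :=
    FT.pair (PTime.toFT (by fun_prop) _) ft_Kq
  have h2 : PTime (fun p : List Bool × ℕ => Eq' (qOf p.1) p.2) := by unfold Eq'; fun_prop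
  have h3 := FT.post h2 h1
  beta_reduce at h3
  dsimp only at h3
  exact h3

theorem ft_padq : FT qOf (fun w : List Bool => padq (qOf w)) :=
  FT.two_pow (f := fun w : List Bool => Eq' (qOf w) (Kq (qOf w))) (fun k => Eq' k (Kq k))
    computable_Eq' monotone_Eq' (fun _ => le_rfl) ft_Eq

/-- The algorithm. -/
theorem ft_solve : FT qOf (fun w : List Bool => [solve w (Kq (qOf w)) (padq (qOf w))]) := by
  have h0 : FT qOf (fun w : List Bool => (Kq (qOf w), padq (qOf w))) := FT.pair ft_Kq ft_padq
  have h1 : FT qOf (fun w : List Bool => (w, (Kq (qOf w), padq (qOf w)))) :=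
    FT.pair (PTime.toFT (by fun_prop) _) h0
  have h2 : PTime (fun p : List Bool × (ℕ × ℕ) => [solve p.1 p.2.1 p.2.2]) := by fun_prop
  have h3 := FT.post h2 h1
  beta_reduce at h3
  dsimp only at h3
  exact h3

theorem qOf_le {x : Inst} (hT : IsDirectedTree x.graph) : qOf x.code ≤ 4 * width x.graph := by
  rw [qOf_code]
  exact length_starts_le (adj_iff x) hT

theorem one_le_length_code (x : Inst) : 1 ≤ x.code.length := by
  unfold Inst.code
  simp only [List.length_append, List.length_cons]
  omega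

/-- Directed Bandwidth restricted to directed trees is fixed-parameter tractable with respect to
the width. -/
theorem directedBandwidth_fpt : IsFPT Inst.code (fun x => width x.graph)
    (fun x => IsDirectedTree x.graph) (fun x => DirectedBandwidthLE x.graph x.B) := by
  obtain ⟨P, g, hgm, hgc, hsolve⟩ := ft_solve
  obtain ⟨p, hp⟩ := hsolve.machine
  obtain ⟨C, d, hC⟩ := poly_bound P
  refine ⟨toTM p, Equiv.refl _, Equiv.refl _,
    fun k => C * 6 ^ d * (g (4 * k) + 1) ^ d + 31, d + 1, fun k => inferInstanceAs (Finite Bool),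
    ?_, fun x hT => ⟨solve x.code (Kq (qOf x.code)) (padq (qOf x.code)), solve_iff hT, ?_⟩⟩
  · exact computable_add (computable_mul (Computable.const _) (computable_pow_const
      (computable_add (hgc.comp (computable_mul (Computable.const 4) Computable.id))
        (Computable.const 1)) d)) (Computable.const 31)
  · obtain ⟨⟨e, he⟩⟩ := hp x.code
    have hle : P.eval (sz x.code + g (qOf x.code)) + 12 * x.code.length + 12 * 1 + 7 ≤
        (C * 6 ^ d * (g (4 * width x.graph) + 1) ^ d + 31) * x.code.length ^ (d + 1) := by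
      have h1 := one_le_length_code x
      have h2 := sz_bools_le x.code
      have h3 : g (qOf x.code) ≤ g (4 * width x.graph) := hgm (qOf_le hT)
      set N := x.code.length with hN
      set G := g (4 * width x.graph) with hG
      have h4 : P.eval (sz x.code + g (qOf x.code)) ≤ C * (6 * N * (G + 1)) ^ d := by
        refine (polyEval_mono P (b := (4 * N + 1) + G) (by omega)).trans ((hC _).trans ?_)
        refine Nat.mul_le_mul_left _ (Nat.pow_le_pow_left ?_ d)
        calc 4 * N + 1 + G + 1 ≤ 6 * N + G := by omega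
          _ ≤ 6 * N * (G + 1) := by nlinarith
      have h5 : C * (6 * N * (G + 1)) ^ d ≤ C * 6 ^ d * (G + 1) ^ d * N ^ (d + 1) := by
        rw [mul_pow, mul_pow]
        have h6 : N ^ d ≤ N ^ (d + 1) := Nat.pow_le_pow_right h1 (by omega)
        calc C * (6 ^ d * N ^ d * (G + 1) ^ d) = C * 6 ^ d * (G + 1) ^ d * N ^ d := by ring
          _ ≤ _ := Nat.mul_le_mul_left _ h6
      have h7 : 12 * N + 12 * 1 + 7 ≤ 31 * N ^ (d + 1) := by
        have h8 : N ≤ N ^ (d + 1) := Nat.le_self_pow (by omega) N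
        omega
      rw [add_mul]
      omega
    have h2 : ∀ u v : List Bool, u = x.code →
        v = [solve x.code (Kq (qOf x.code)) (padq (qOf x.code))] →
        Nonempty (Turing.TM2OutputsInTime (toTM p) u (some v)
          ((C * 6 ^ d * (g (4 * width x.graph) + 1) ^ d + 31) * x.code.length ^ (d + 1))) := by
      rintro u v rfl rfl
      exact ⟨⟨e, he.trans hle⟩⟩
    exact h2 _ _ (List.map_id _) (List.map_id _)

end Pool.Agent.Lib.MP_7c7c4f_lc
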