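import Pool.Agent.Lib.MP_7c7c4f_lc.PExtra
import Pool.Agent.Lib.MP_7c7c4f_lc.Algo

/-!
# The algorithm on the compressed instance runs in polynomial time (in its input and `pad`)
-/

namespace Pool.Agent.Lib.MP_7c7c4f_lc

open Function TM

variable {α β γ δ : Type} [TrEnc α] [TrEnc β] [TrEnc γ] [TrEnc δ]

/-! ### Vectors -/

@[fun_prop] theorem ptime_vsub {v g : α → List ℕ} (hv : PTime v) (hg : PTime g) :
    PTime (fun a => vsub (v a) (g a)) := by
  unfold vsub
  exact PTime.zipWith (F := fun _ a b => a - b) hv hg (by fun_prop)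

@[fun_prop] theorem ptime_vle {g v : α → List ℕ} (hg : PTime g) (hv : PTime v) :
    PTime (fun a => vle (g a) (v a)) := by
  unfold vle
  exact PTime.all (F := fun _ b => b)
    (PTime.zipWith (F := fun _ a b => decide (a ≤ b)) hg hv (by fun_prop)) (by fun_prop)

@[fun_prop] theorem ptime_veq {v w : α → List ℕ} (hv : PTime v) (hw : PTime w) :
    PTime (fun a => veq (v a) (w a)) := by
  unfold veq
  refine PTime.and (by fun_prop) ?_
  exact PTime.all (F := fun _ b => b)
    (PTime.zipWith (F := fun _ a b => decide (a = b)) hv hw (by fun_prop)) (by fun_prop)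

@[fun_prop] theorem ptime_vhalf {v : α → List ℕ} (hv : PTime v) :
    PTime (fun a => vhalf (v a)) := by
  unfold vhalf
  exact PTime.map (F := fun _ a => a / 2) hv (by fun_prop)

@[fun_prop] theorem ptime_veven {v : α → List ℕ} (hv : PTime v) :
    PTime (fun a => veven (v a)) := by
  unfold veven
  exact PTime.all (F := fun _ a => decide (a % 2 = 0)) hv (by fun_prop)

theorem sz_vsub_le : ∀ v g : List ℕ, sz (vsub v g) ≤ sz v
  | [], g => by simp [vsub]
  | a :: v, [] => by simp [vsub]
  | a :: v, b :: g => by
    have ih := sz_vsub_le v g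
    unfold vsub at ih ⊢
    rw [List.zipWith_cons_cons, sz_cons, sz_cons, sz_nat, sz_nat]
    omega

theorem sz_vhalf_le : ∀ v : List ℕ, sz (vhalf v) ≤ sz v
  | [] => by simp [vhalf]
  | a :: v => by
    have ih := sz_vhalf_le v
    unfold vhalf at ih ⊢
    rw [List.map_cons, sz_cons, sz_cons, sz_nat, sz_nat]
    omega

/-! ### Bounded lists of vectors -/

/-- A list of at most `L` objects of size at most `c`. -/
def Bd (L c : ℕ) (S : List β) : Prop := S.length ≤ L ∧ ∀ v ∈ S, sz v ≤ c

theorem Bd.sz_le {L c : ℕ} {S : List β} (h : Bd L c S) : sz S ≤ L * (c + 1) + 1 := by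
  refine (sz_le_of_forall _ c h.2).trans ?_
  have := h.1
  gcongr

theorem Bd.self (S : List β) (pad : ℕ) : Bd (S.length + pad) (sz S) S :=
  ⟨by omega, fun _ hv => sz_le_of_mem hv⟩

theorem bd_ins {L c pad : ℕ} {S : List (List ℕ)} {v : List ℕ} (h : Bd L c S) (hv : sz v ≤ c)
    (hp : pad ≤ L) : Bd L c (ins pad S v) := by
  unfold ins
  split_ifs
  · exact h
  · refine ⟨(List.length_take_le _ _).trans hp, fun w hw => ?_⟩
    rcases List.mem_cons.1 (List.mem_of_mem_take hw) with rfl | hw
    · exact hv
    · exact h.2 w hw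

theorem bd_foldl_ins {L c pad : ℕ} (hp : pad ≤ L) (l : List (List ℕ)) (hl : ∀ v ∈ l, sz v ≤ c) :
    ∀ S : List (List ℕ), Bd L c S → Bd L c (l.foldl (ins pad) S) := by
  induction l with
  | nil => exact fun S hS => hS
  | cons v l ih =>
    intro S hS
    exact ih (fun w hw => hl w (by simp [hw])) _ (bd_ins hS (hl v (by simp)) hp)

theorem bd_stepG {L c pad : ℕ} {S : List (List ℕ)} {g : List ℕ} (h : Bd L c S)
    (hp : pad ≤ L) : Bd L c (stepG pad S g) := by
  unfold stepG
  refine bd_foldl_ins hp _ (fun v hv => ?_) _ h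
  obtain ⟨w, hw, rfl⟩ := List.mem_map.1 hv
  exact (sz_vsub_le w g).trans (h.2 w (List.mem_filter.1 hw).1)

theorem bd_foldl_stepG {L c pad : ℕ} (hp : pad ≤ L) (l : List (List ℕ)) :
    ∀ S : List (List ℕ), Bd L c S → Bd L c (l.foldl (stepG pad) S) := by
  induction l with
  | nil => exact fun S hS => hS
  | cons v l ih => exact fun S hS => ih _ (bd_stepG hS hp)

theorem bd_round {L c pad : ℕ} {S gens : List (List ℕ)} (h : Bd L c S)
    (hp : pad ≤ L) : Bd L c (round pad gens S) := by
  unfold round
  refine bd_foldl_ins hp _ (fun v hv => ?_) _ ⟨by simp, by simp⟩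
  obtain ⟨w, hw, rfl⟩ := List.mem_map.1 hv
  exact (sz_vhalf_le w).trans ((bd_foldl_stepG hp gens S h).2 w (List.mem_filter.1 hw).1)

theorem bd_iterate_round {L c pad : ℕ} {S gens : List (List ℕ)} (h : Bd L c S)
    (hp : pad ≤ L) : ∀ m, Bd L c ((round pad gens)^[m] S)
  | 0 => h
  | m + 1 => by
    rw [Function.iterate_succ_apply']
    exact bd_round (bd_iterate_round h hp m) hp

@[fun_prop] theorem ptime_ins {pad : α → ℕ} {S : α → List (List ℕ)} {v : α → List ℕ}
    (hp : PTime pad) (hS : PTime S) (hv : PTime v) :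
    PTime (fun a => ins (pad a) (S a) (v a)) := by
  unfold ins
  refine PTime.ite ?_ (by fun_prop) (by fun_prop)
  exact PTime.any (F := fun a w => veq w (v a)) hS
    (ptime_veq (by fun_prop) (hv.comp' (f := fun p : α × List ℕ => p.1) (by fun_prop)))

theorem PB.foldBound {S : α → List (List ℕ)} {pad : α → ℕ} {C : α → ℕ} (hS : PTime S)
    (hp : PTime pad) (hC : PB C) :
    PB (fun a => ((S a).length + pad a) * (C a + 1) + 1) :=
  (((PB.length hS).add (PB.nat hp)).mul (hC.add (PB.const 1))).add (PB.const 1)

@[fun_prop] theorem ptime_foldl_ins {pad : α → ℕ} {S l : α → List (List ℕ)}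
    (hp : PTime pad) (hS : PTime S) (hl : PTime l) :
    PTime (fun a => (l a).foldl (ins (pad a)) (S a)) := by
  refine PTime.foldl (F := fun a S v => ins (pad a) S v) hl hS ?_
    (fun a => ((S a).length + pad a) * ((sz (S a) + sz (l a)) + 1) + 1)
    (PB.foldBound hS hp (hS.pb_sz.add hl.pb_sz)) ?_
  · exact ptime_ins (hp.comp' (f := fun p : α × List (List ℕ) × List ℕ => p.1) (by fun_prop))
      (by fun_prop) (by fun_prop)
  · intro a l₁ l₂ h
    refine Bd.sz_le (bd_foldl_ins (by omega) _ (fun v hv => ?_) _ ⟨by omega, fun v hv => ?_⟩)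
    · have : sz v ≤ sz (l a) := sz_le_of_mem (by rw [h]; simp [hv])
      omega
    · have : sz v ≤ sz (S a) := sz_le_of_mem hv
      omega

@[fun_prop] theorem ptime_stepG {pad : α → ℕ} {S : α → List (List ℕ)} {g : α → List ℕ}
    (hp : PTime pad) (hS : PTime S) (hg : PTime g) :
    PTime (fun a => stepG (pad a) (S a) (g a)) := by
  unfold stepG
  refine ptime_foldl_ins hp hS ?_
  refine PTime.map (F := fun a v => vsub v (g a)) (PTime.filter (F := fun a v => vle (g a) v)
    hS ?_) ?_
  · exact ptime_vle (hg.comp' (f := fun p : α × List ℕ => p.1) (by fun_prop)) (by fun_prop)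
  · exact ptime_vsub (by fun_prop) (hg.comp' (f := fun p : α × List ℕ => p.1) (by fun_prop))

@[fun_prop] theorem ptime_foldl_stepG {pad : α → ℕ} {S l : α → List (List ℕ)}
    (hp : PTime pad) (hS : PTime S) (hl : PTime l) :
    PTime (fun a => (l a).foldl (stepG (pad a)) (S a)) := by
  refine PTime.foldl (F := fun a S v => stepG (pad a) S v) hl hS ?_
    (fun a => ((S a).length + pad a) * (sz (S a) + 1) + 1)
    (PB.foldBound hS hp hS.pb_sz) ?_
  · exact ptime_stepG (hp.comp' (f := fun p : α × List (List ℕ) × List ℕ => p.1) (by fun_prop))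
      (by fun_prop) (by fun_prop)
  · intro a l₁ l₂ h
    exact Bd.sz_le (bd_foldl_stepG (by omega) _ _ (Bd.self _ _))

@[fun_prop] theorem ptime_round {pad : α → ℕ} {gens S : α → List (List ℕ)}
    (hp : PTime pad) (hg : PTime gens) (hS : PTime S) :
    PTime (fun a => round (pad a) (gens a) (S a)) := by
  unfold round
  refine ptime_foldl_ins hp (by fun_prop) ?_
  refine PTime.map (F := fun _ v => vhalf v) (PTime.filter (F := fun _ v => veven v)
    (by fun_prop) (by fun_prop)) (by fun_prop)

@[fun_prop] theorem ptime_memb {pad : α → ℕ} {gens : α → List (List ℕ)} {t : α → List ℕ}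
    {m : α → ℕ} (hp : PTime pad) (hg : PTime gens) (ht : PTime t) (hm : PTime m) :
    PTime (fun a => memb (pad a) (gens a) (t a) (m a)) := by
  unfold memb
  have h1 : PTime (fun a => (round (pad a) (gens a))^[m a] [t a]) := by
    refine PTime.iterate (F := fun a S => round (pad a) (gens a) S) hm (by fun_prop) ?_
      (fun a => (([t a] : List (List ℕ)).length + pad a) * (sz [t a] + 1) + 1)
      (PB.foldBound (S := fun a => [t a]) (by fun_prop) hp
        (PTime.pb_sz (f := fun a => [t a]) (by fun_prop))) ?_
    · exact ptime_round (hp.comp' (f := fun p : α × List (List ℕ) => p.1) (by fun_prop))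
        (hg.comp' (f := fun p : α × List (List ℕ) => p.1) (by fun_prop)) (by fun_prop)
    · intro a i _
      exact Bd.sz_le (bd_iterate_round (Bd.self _ _) (by omega) i)
  fun_prop

/-! ### Words -/

@[fun_prop] theorem ptime_Hf {H : α → List (List Bool)} {i j : α → ℕ} (hH : PTime H)
    (hi : PTime i) (hj : PTime j) : PTime (fun a => Hf (H a) (i a) (j a)) := by
  unfold Hf
  fun_prop

@[fun_prop] theorem ptime_started {x : α → List Letter} {i : α → ℕ} (hx : PTime x)
    (hi : PTime i) : PTime (fun a => started (x a) (i a)) := by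
  unfold started
  exact PTime.any (F := fun a b => decide (b.1 = i a)) hx
    (PTime.decEqNat (by fun_prop) (hi.comp' (f := fun p : α × Letter => p.1) (by fun_prop)))

@[fun_prop] theorem ptime_ended {x : α → List Letter} {i : α → ℕ} (hx : PTime x)
    (hi : PTime i) : PTime (fun a => ended (x a) (i a)) := by
  unfold ended
  refine PTime.any (F := fun a b => b.2 && decide (b.1 = i a)) hx (PTime.and (by fun_prop) ?_)
  exact PTime.decEqNat (by fun_prop) (hi.comp' (f := fun p : α × Letter => p.1) (by fun_prop))

@[fun_prop] theorem ptime_inwin {B : α → ℕ} {x : α → List Letter} {i : α → ℕ} (hB : PTime B)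
    (hx : PTime x) (hi : PTime i) : PTime (fun a => inwin (B a) (x a) (i a)) := by
  unfold inwin
  fun_prop

@[fun_prop] theorem ptime_okb {q B : α → ℕ} {H : α → List (List Bool)} {x : α → List Letter}
    {b : α → Letter} (hq : PTime q) (hB : PTime B) (hH : PTime H) (hx : PTime x) (hb : PTime b) :
    PTime (fun a => okb (q a) (B a) (H a) (x a) (b a)) := by
  unfold okb
  refine PTime.and (by fun_prop) (PTime.and (by fun_prop) (PTime.ite (by fun_prop) (by fun_prop)
    ?_))
  have c1 : ∀ {δ : Type} [TrEnc δ] {f : α → δ}, PTime f →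
      PTime (fun p : α × ℕ => f p.1) := fun hf => hf.comp' (by fun_prop)
  refine PTime.all (F := fun a j => !(Hf (H a) j (b a).1) || (ended (x a) j &&
    inwin (B a) (x a) j)) (by fun_prop) ?_
  have h1 := c1 hH
  have h2 := c1 hb
  have h3 := c1 hx
  have h4 := c1 hB
  fun_prop

@[fun_prop] theorem ptime_validb {q B : α → ℕ} {H : α → List (List Bool)}
    {x : α → List Letter} (hq : PTime q) (hB : PTime B) (hH : PTime H) (hx : PTime x) :
    PTime (fun a => validb (q a) (B a) (H a) (x a)) := by
  unfold validb
  refine PTime.snd ?_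
  refine PTime.foldr (F := fun a c s => (c :: s.1, okb (q a) (B a) (H a) s.1 c && s.2))
    (g := fun _ => (([] : List Letter), true)) hx (by fun_prop) ?_
    (fun a => sz (x a) + 3 + 1) ((hx.pb_sz.add (PB.const 3)).add (PB.const 1)) ?_
  · have c1 : ∀ {δ : Type} [TrEnc δ] {f : α → δ}, PTime f →
      PTime (fun p : α × Letter × (List Letter × Bool) => f p.1) :=
        fun hf => hf.comp' (by fun_prop)
    have h1 := c1 hH
    have h2 := c1 hq
    have h4 := c1 hB
    fun_prop
  · intro a l₁ l₂ h
    have h1 := validb_fst (q := q a) (B := B a) (H := H a) l₂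
    rw [sz_prod', h1]
    have h2 := sz_bool_le (l₂.foldr (fun c s => (c :: s.1, okb (q a) (B a) (H a) s.1 c && s.2))
      (([] : List Letter), true)).2
    have h3 := sz_append l₁ l₂
    have h4 := one_le_sz l₁
    rw [h]
    omega

@[fun_prop] theorem ptime_winAt {q : α → ℕ} {x : α → List Letter} {k : α → ℕ} (hq : PTime q)
    (hx : PTime x) (hk : PTime k) : PTime (fun a => winAt (q a) (x a) (k a)) := by
  unfold winAt
  fun_prop

@[fun_prop] theorem ptime_stl {q B : α → ℕ} {x : α → List Letter} (hq : PTime q)
    (hB : PTime B) (hx : PTime x) : PTime (fun a => stl (q a) (B a) (x a)) := by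
  have c1 : ∀ {δ : Type} [TrEnc δ] {f : α → δ}, PTime f →
      PTime (fun p : α × ℕ => f p.1) := fun hf => hf.comp' (by fun_prop)
  have h1 := c1 hq
  have h2 := c1 hx
  unfold stl
  refine PTime.append (PTime.map (F := fun a k => winAt (q a) (x a) k) (by fun_prop)
    (by fun_prop)) (PTime.append (PTime.map (F := fun a i => if started (x a) i = true then 1 else 0)
    (by fun_prop) (PTime.ite (by fun_prop) (by fun_prop) (by fun_prop)))
    (PTime.map (F := fun a i => if ended (x a) i = true then 1 else 0)
    (by fun_prop) (PTime.ite (by fun_prop) (by fun_prop) (by fun_prop))))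

@[fun_prop] theorem ptime_psi {q : α → ℕ} {x : α → List Letter} (hq : PTime q)
    (hx : PTime x) : PTime (fun a => psi (q a) (x a)) := by
  have c1 : ∀ {δ : Type} [TrEnc δ] {f : α → δ}, PTime f →
      PTime (fun p : α × ℕ => f p.1) := fun hf => hf.comp' (by fun_prop)
  have h2 := c1 hx
  unfold psi
  refine PTime.map (l := fun a => List.range (q a))
    (F := fun a i => ((x a).filter (fun b => !(b.2) && decide (b.1 = i))).length)
    (by fun_prop) (PTime.length ?_)
  exact PTime.filter (l := fun p : α × ℕ => x p.1)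
    (F := fun p b => !(b.2) && decide (b.1 = p.2)) h2 (by fun_prop)

@[fun_prop] theorem ptime_accb {q : α → ℕ} {x : α → List Letter} (hq : PTime q)
    (hx : PTime x) : PTime (fun a => accb (q a) (x a)) := by
  unfold accb
  exact PTime.all (F := fun a i => ended (x a) i) (by fun_prop)
    (ptime_ended (hx.comp' (f := fun p : α × ℕ => p.1) (by fun_prop)) (by fun_prop))

@[fun_prop] theorem ptime_letters {q : α → ℕ} (hq : PTime q) :
    PTime (fun a => letters (q a)) := by
  unfold letters
  exact PTime.flatMap (F := fun _ i => [(i, false), (i, true)]) (by fun_prop) (by fun_prop)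

@[fun_prop] theorem ptime_sufs {x : α → List Letter} (hx : PTime x) :
    PTime (fun a => sufs (x a)) := by
  unfold sufs
  exact PTime.map (F := fun a k => (x a).drop k) (by fun_prop)
    (PTime.drop (by fun_prop) (hx.comp' (f := fun p : α × ℕ => p.1) (by fun_prop)))

@[fun_prop] theorem ptime_isCyc {q B : α → ℕ} {H : α → List (List Bool)}
    {c x : α → List Letter} (hq : PTime q) (hB : PTime B) (hH : PTime H) (hc : PTime c)
    (hx : PTime x) : PTime (fun a => isCyc (q a) (B a) (H a) (c a) (x a)) := by
  unfold isCyc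
  fun_prop

@[fun_prop] theorem ptime_gensOf {q B : α → ℕ} {H : α → List (List Bool)}
    {Ws : α → List (List Letter)} {x : α → List Letter} (hq : PTime q) (hB : PTime B)
    (hH : PTime H) (hW : PTime Ws) (hx : PTime x) :
    PTime (fun a => gensOf (q a) (B a) (H a) (Ws a) (x a)) := by
  have c1 : ∀ {δ : Type} [TrEnc δ] {f : α → δ}, PTime f →
      PTime (fun p : α × List Letter => f p.1) := fun hf => hf.comp' (by fun_prop)
  have h1 := c1 hq
  have h2 := c1 hB
  have h3 := c1 hH
  have h4 := c1 hx
  unfold gensOf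
  refine PTime.map (F := fun a c => psi (q a) c) (PTime.filter
    (F := fun a c => (sufs (x a)).any (fun x => isCyc (q a) (B a) (H a) c x)) hW ?_)
    (by fun_prop)
  have c2 : ∀ {δ : Type} [TrEnc δ] {f : α → δ}, PTime f →
      PTime (fun p : (α × List Letter) × List Letter => f p.1.1) := fun hf =>
    hf.comp' (by fun_prop)
  have h5 := c2 hq
  have h6 := c2 hB
  have h7 := c2 hH
  exact PTime.any (l := fun p : α × List Letter => sufs (x p.1))
    (F := fun p z => isCyc (q p.1) (B p.1) (H p.1) p.2 z) (by fun_prop) (by fun_prop)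

theorem allWords_bd {pad : ℕ} {L : List Letter} : ∀ k : ℕ,
    Bd (1 + pad) (k * (sz L + 1) + 1) (allWords pad L k)
  | 0 => by
    refine ⟨by simp [allWords], fun w hw => ?_⟩
    have : w = [] := by simpa [allWords] using hw
    rw [this]; simp
  | k + 1 => by
    have ih := allWords_bd (pad := pad) (L := L) k
    have e : allWords pad L (k + 1) = (allWords pad L k ++ (allWords pad L k).flatMap
        (fun w => L.map (fun a => a :: w))).take pad := by
      unfold allWords
      rw [Function.iterate_succ_apply']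
    rw [e]
    refine ⟨(List.length_take_le _ _).trans (by omega), fun w hw => ?_⟩
    have hmul : (k + 1) * (sz L + 1) = k * (sz L + 1) + (sz L + 1) := by ring
    rcases List.mem_append.1 (List.mem_of_mem_take hw) with h | h
    · have := ih.2 w h
      omega
    · obtain ⟨v, hv, hw⟩ := List.mem_flatMap.1 h
      obtain ⟨a, ha, rfl⟩ := List.mem_map.1 hw
      have h1 := ih.2 v hv
      have h2 := sz_le_of_mem ha
      rw [sz_cons]
      omega

@[fun_prop] theorem ptime_allWords {pad k : α → ℕ} {L : α → List Letter} (hp : PTime pad)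
    (hL : PTime L) (hk : PTime k) : PTime (fun a => allWords (pad a) (L a) (k a)) := by
  have c1 : ∀ {δ : Type} [TrEnc δ] {f : α → δ}, PTime f →
      PTime (fun p : α × List (List Letter) => f p.1) := fun hf => hf.comp' (by fun_prop)
  have h1 := c1 hp
  have h2 := c1 hL
  refine PTime.iterate (F := fun a W => (W ++ W.flatMap
    (fun w => (L a).map (fun b => b :: w))).take (pad a)) (g := fun _ => [[]]) hk (by fun_prop) ?_
    (fun a => (1 + pad a) * ((k a * (sz (L a) + 1) + 1) + 1) + 1)
    ((((PB.const 1).add (PB.nat hp)).mul ((((PB.nat hk).mul (hL.pb_sz.add (PB.const 1))).add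
      (PB.const 1)).add (PB.const 1))).add (PB.const 1)) ?_
  · have h3 : PTime (fun p : (α × List (List Letter)) × List Letter => L p.1.1) :=
      hL.comp' (f := fun p : (α × List (List Letter)) × List Letter => p.1.1) (by fun_prop)
    have h4 : PTime (fun p : α × List (List Letter) =>
        p.2.flatMap (fun w => (L p.1).map (fun b => b :: w))) := by
      refine PTime.flatMap (l := fun p : α × List (List Letter) => p.2)
        (F := fun p w => (L p.1).map (fun b => b :: w)) (by fun_prop) ?_
      exact PTime.map (l := fun p : (α × List (List Letter)) × List Letter => L p.1.1)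
        (F := fun p b => b :: p.2) h3 (by fun_prop)
    have h5 : PTime (fun p : α × List (List Letter) => p.2) := by fun_prop
    exact PTime.take h1 (PTime.append h5 h4)
  · intro a i hi
    refine (Bd.sz_le (allWords_bd i)).trans ?_
    gcongr

@[fun_prop] theorem ptime_mainAlg {q B : α → ℕ} {H : α → List (List Bool)}
    {t : α → List ℕ} {K pad m : α → ℕ} (hq : PTime q) (hB : PTime B) (hH : PTime H)
    (ht : PTime t) (hK : PTime K) (hp : PTime pad) (hm : PTime m) :
    PTime (fun a => mainAlg (q a) (B a) (H a) (t a) (K a) (pad a) (m a)) := by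
  have c1 : ∀ {δ : Type} [TrEnc δ] {f : α → δ}, PTime f →
      PTime (fun p : α × List Letter => f p.1) := fun hf => hf.comp' (by fun_prop)
  have h1 := c1 hq
  have h2 := c1 hB
  have h3 := c1 hH
  have h4 := c1 ht
  have h5 := c1 hK
  have h6 := c1 hp
  have h7 := c1 hm
  unfold mainAlg
  exact PTime.any (F := fun a ω => validb (q a) (B a) (H a) ω && (accb (q a) ω &&
    (vle (psi (q a) ω) (t a) &&
      memb (pad a) (gensOf (q a) (B a) (H a) (allWords (pad a) (letters (q a)) (K a)) ω)
        (vsub (t a) (psi (q a) ω)) (m a)))) (by fun_prop) (by fun_prop)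

end Pool.Agent.Lib.MP_7c7c4f_lc
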