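import Pool.Agent.Lib.MP_7c7c4f_lc.TM.PLists

/-!
# More polynomial-time functions
-/

namespace Pool.Agent.Lib.MP_7c7c4f_lc.TM

open Function

variable {α β γ δ : Type} [TrEnc α] [TrEnc β] [TrEnc γ] [TrEnc δ]

@[fun_prop] theorem PTime.decZero {n : α → ℕ} (hn : PTime n) :
    PTime (fun a => decide (n a = 0)) := by
  refine (PTime.isEmpty (PTime.units hn)).of_eq (fun a => ?_)
  cases n a <;> simp [List.replicate_succ]

@[fun_prop] theorem PTime.decLe {n m : α → ℕ} (hn : PTime n) (hm : PTime m) :
    PTime (fun a => decide (n a ≤ m a)) := by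
  refine (PTime.decZero (PTime.sub hn hm)).of_eq (fun a => ?_)
  rw [decide_eq_decide]
  omega

@[fun_prop] theorem PTime.decLt {n m : α → ℕ} (hn : PTime n) (hm : PTime m) :
    PTime (fun a => decide (n a < m a)) := by
  refine (PTime.decLe (PTime.succ hn) hm).of_eq (fun a => ?_)
  rw [decide_eq_decide]
  omega

@[fun_prop] theorem PTime.decEqNat {n m : α → ℕ} (hn : PTime n) (hm : PTime m) :
    PTime (fun a => decide (n a = m a)) := by
  refine (PTime.and (PTime.decLe hn hm) (PTime.decLe hm hn)).of_eq (fun a => ?_)
  rw [Bool.eq_iff_iff, Bool.and_eq_true, decide_eq_true_eq, decide_eq_true_eq, decide_eq_true_eq]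
  omega

theorem sz_range_le (n : ℕ) : sz (List.range n) ≤ n * (2 * n + 1 + 1) + 1 := by
  refine (sz_le_of_forall _ (2 * n + 1) ?_).trans ?_
  · intro k hk
    rw [sz_nat]
    have := List.mem_range.1 hk
    omega
  · rw [List.length_range]

@[fun_prop] theorem PTime.range {n : α → ℕ} (hn : PTime n) :
    PTime (fun a => List.range (n a)) := by
  have key : ∀ i : ℕ, (fun l : List ℕ => l ++ [l.length])^[i] [] = List.range i := by
    intro i
    induction i with
    | zero => rfl
    | succ i ih => rw [Function.iterate_succ_apply', ih, List.length_range, List.range_succ]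
  refine (PTime.iterate (F := fun _ (l : List ℕ) => l ++ [l.length]) (g := fun _ => []) hn
    (by fun_prop) (by fun_prop) (fun a => n a * (2 * n a + 1 + 1) + 1)
    (((PB.nat hn).mul ((((PB.const 2).mul (PB.nat hn)).add (PB.const 1)).add
      (PB.const 1))).add (PB.const 1)) ?_).of_eq (fun a => (key _).symm)
  intro a i hi
  rw [key]
  refine (sz_range_le i).trans ?_
  gcongr

/-- Division by two with remainder. -/
def halfStep (s : Bool × ℕ) : Bool × ℕ := (!s.1, if s.1 = true then s.2 + 1 else s.2)

theorem halfStep_iterate (n : ℕ) : halfStep^[n] (false, 0) = (decide (n % 2 = 1), n / 2) := by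
  induction n with
  | zero => rfl
  | succ n ih =>
    rw [Function.iterate_succ_apply', ih]
    unfold halfStep
    rcases Nat.mod_two_eq_zero_or_one n with h | h
    · have h1 : (n + 1) % 2 = 1 := by omega
      simp only [h, h1]
      refine Prod.ext (by simp) ?_
      show (if decide (0 = 1) = true then n / 2 + 1 else n / 2) = (n + 1) / 2
      rw [if_neg (by decide)]
      omega
    · have h1 : (n + 1) % 2 = 0 := by omega
      simp only [h, h1]
      refine Prod.ext (by simp) ?_
      show (if decide (1 = 1) = true then n / 2 + 1 else n / 2) = (n + 1) / 2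
      rw [if_pos (by decide)]
      omega

theorem PTime.halfAux {n : α → ℕ} (hn : PTime n) :
    PTime (fun a => (decide (n a % 2 = 1), n a / 2)) := by
  refine (PTime.iterate (F := fun _ s => halfStep s) (g := fun _ => (false, 0)) hn
    (by fun_prop) ?_ (fun a => 3 + (2 * n a + 1) + 1)
    (((PB.const 3).add (((PB.const 2).mul (PB.nat hn)).add (PB.const 1))).add (PB.const 1))
    ?_).of_eq (fun a => (halfStep_iterate _).symm)
  · unfold halfStep
    refine PTime.pair (by fun_prop) (PTime.ite (by fun_prop) (by fun_prop) (by fun_prop))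
  · intro a i hi
    rw [show (fun s => halfStep s) = halfStep from rfl, halfStep_iterate, sz_prod, sz_nat]
    have := sz_bool_le (decide (i % 2 = 1))
    omega

@[fun_prop] theorem PTime.half {n : α → ℕ} (hn : PTime n) : PTime (fun a => n a / 2) :=
  (PTime.halfAux hn).snd

@[fun_prop] theorem PTime.isEven {n : α → ℕ} (hn : PTime n) :
    PTime (fun a => decide (n a % 2 = 0)) := by
  refine (PTime.not (PTime.halfAux hn).fst).of_eq (fun a => ?_)
  rcases Nat.mod_two_eq_zero_or_one (n a) with h | h <;> simp [h]

@[fun_prop] theorem PTime.natMin {n m : α → ℕ} (hn : PTime n) (hm : PTime m) :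
    PTime (fun a => min (n a) (m a)) := by
  refine (PTime.sub hn (PTime.sub hn hm)).of_eq (fun a => ?_)
  omega

end Pool.Agent.Lib.MP_7c7c4f_lc.TM
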