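import Pool.Agent.Lib.MP_7c7c4f_lc.PAlgo
import Pool.Agent.Lib.MP_7c7c4f_lc.Count

/-!
# Parsing the input and computing the segments in polynomial time
-/

namespace Pool.Agent.Lib.MP_7c7c4f_lc

open Function TM

variable {α : Type} [TrEnc α]

/-- Entry of a matrix given by a list of bits. -/
def Ab (n : ℕ) (bits : List Bool) (u v : ℕ) : Bool := bits.getD (u * n + v) false

@[fun_prop] theorem ptime_Ab {n u v : α → ℕ} {bits : α → List Bool} (hn : PTime n)
    (hb : PTime bits) (hu : PTime u) (hv : PTime v) :
    PTime (fun a => Ab (n a) (bits a) (u a) (v a)) := by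
  unfold Ab
  fun_prop

/-- Out-neighbours. -/
def outsB (n : ℕ) (bits : List Bool) (u : ℕ) : List ℕ := outs n (Ab n bits) u
/-- In-neighbours. -/
def innsB (n : ℕ) (bits : List Bool) (u : ℕ) : List ℕ := inns n (Ab n bits) u
/-- Internal arcs. -/
def internalB (n : ℕ) (bits : List Bool) (u v : ℕ) : Bool := internal n (Ab n bits) u v
/-- The next vertex. -/
def nextsB (n : ℕ) (bits : List Bool) (u : ℕ) : List ℕ := nexts n (Ab n bits) u
/-- First vertices of the segments. -/
def startsB (n : ℕ) (bits : List Bool) : List ℕ := starts n (Ab n bits)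
/-- Extend a segment. -/
def chainStepB (n : ℕ) (bits : List Bool) (l : List ℕ) : List ℕ := chainStep n (Ab n bits) l
/-- The segment starting at `s`. -/
def chainB (n : ℕ) (bits : List Bool) (s : ℕ) : List ℕ := chain n (Ab n bits) s
/-- The arcs between segments. -/
def HmatB (n : ℕ) (bits : List Bool) : List (List Bool) := Hmat n (Ab n bits)
/-- The lengths of the segments, minus one. -/
def tvecB (n : ℕ) (bits : List Bool) : List ℕ := tvec n (Ab n bits)

@[fun_prop] theorem ptime_outsB {n u : α → ℕ} {bits : α → List Bool} (hn : PTime n)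
    (hb : PTime bits) (hu : PTime u) : PTime (fun a => outsB (n a) (bits a) (u a)) := by
  have c1 : ∀ {δ : Type} [TrEnc δ] {f : α → δ}, PTime f →
      PTime (fun p : α × ℕ => f p.1) := fun hf => hf.comp' (by fun_prop)
  have h1 := c1 hn
  have h2 := c1 hb
  have h3 := c1 hu
  unfold outsB outs
  exact PTime.filter (l := fun a => List.range (n a)) (F := fun a v => Ab (n a) (bits a) (u a) v)
    (by fun_prop) (by fun_prop)

@[fun_prop] theorem ptime_innsB {n u : α → ℕ} {bits : α → List Bool} (hn : PTime n)
    (hb : PTime bits) (hu : PTime u) : PTime (fun a => innsB (n a) (bits a) (u a)) := by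
  have c1 : ∀ {δ : Type} [TrEnc δ] {f : α → δ}, PTime f →
      PTime (fun p : α × ℕ => f p.1) := fun hf => hf.comp' (by fun_prop)
  have h1 := c1 hn
  have h2 := c1 hb
  have h3 := c1 hu
  unfold innsB inns
  exact PTime.filter (l := fun a => List.range (n a)) (F := fun a v => Ab (n a) (bits a) v (u a))
    (by fun_prop) (by fun_prop)

@[fun_prop] theorem ptime_internalB {n u v : α → ℕ} {bits : α → List Bool} (hn : PTime n)
    (hb : PTime bits) (hu : PTime u) (hv : PTime v) :
    PTime (fun a => internalB (n a) (bits a) (u a) (v a)) := by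
  refine PTime.of_eq (f := fun a => Ab (n a) (bits a) (u a) (v a) &&
    (decide ((outsB (n a) (bits a) (u a)).length = 1) &&
      decide ((innsB (n a) (bits a) (v a)).length = 1))) (by fun_prop) (fun a => rfl)

@[fun_prop] theorem ptime_nextsB {n u : α → ℕ} {bits : α → List Bool} (hn : PTime n)
    (hb : PTime bits) (hu : PTime u) : PTime (fun a => nextsB (n a) (bits a) (u a)) := by
  have c1 : ∀ {δ : Type} [TrEnc δ] {f : α → δ}, PTime f →
      PTime (fun p : α × ℕ => f p.1) := fun hf => hf.comp' (by fun_prop)
  have h1 := c1 hn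
  have h2 := c1 hb
  have h3 := c1 hu
  exact PTime.filter (l := fun a => List.range (n a))
    (F := fun a v => internalB (n a) (bits a) (u a) v) (by fun_prop) (by fun_prop)

@[fun_prop] theorem ptime_startsB {n : α → ℕ} {bits : α → List Bool} (hn : PTime n)
    (hb : PTime bits) : PTime (fun a => startsB (n a) (bits a)) := by
  have c1 : ∀ {δ : Type} [TrEnc δ] {f : α → δ}, PTime f →
      PTime (fun p : α × ℕ => f p.1) := fun hf => hf.comp' (by fun_prop)
  have c2 : ∀ {δ : Type} [TrEnc δ] {f : α → δ}, PTime f →
      PTime (fun p : (α × ℕ) × ℕ => f p.1.1) := fun hf => hf.comp' (by fun_prop)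
  have h1 := c1 hn
  have h2 := c1 hb
  have h3 := c2 hn
  have h4 := c2 hb
  refine PTime.filter (l := fun a => List.range (n a))
    (F := fun a v => !((List.range (n a)).any (fun u => internalB (n a) (bits a) u v)))
    (by fun_prop) (PTime.not ?_)
  exact PTime.any (l := fun p : α × ℕ => List.range (n p.1))
    (F := fun p u => internalB (n p.1) (bits p.1) u p.2) (by fun_prop) (by fun_prop)

@[fun_prop] theorem ptime_chainStepB {n : α → ℕ} {bits : α → List Bool} {l : α → List ℕ}
    (hn : PTime n) (hb : PTime bits) (hl : PTime l) :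
    PTime (fun a => chainStepB (n a) (bits a) (l a)) := by
  refine PTime.of_eq (f := fun a => if (nextsB (n a) (bits a) ((l a).headD 0)).isEmpty = true
    then l a else (nextsB (n a) (bits a) ((l a).headD 0)).headD 0 :: l a) ?_ (fun a => rfl)
  exact PTime.ite (by fun_prop) (by fun_prop) (by fun_prop)

theorem bd_chainStep {n : ℕ} {A : ℕ → ℕ → Bool} {s : ℕ} : ∀ i : ℕ,
    Bd (i + 1) (2 * (n + s) + 1) ((chainStep n A)^[i] [s])
  | 0 => by
    refine ⟨by simp, fun v hv => ?_⟩
    rw [Function.iterate_zero, id, List.mem_singleton] at hv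
    rw [hv, sz_nat]; omega
  | i + 1 => by
    have ih := bd_chainStep (n := n) (A := A) (s := s) i
    rw [Function.iterate_succ_apply']
    generalize (chainStep n A)^[i] [s] = l at ih
    unfold chainStep
    by_cases h : (nexts n A (l.headD 0)).isEmpty = true
    · rw [if_pos h]
      exact ⟨ih.1.trans (by omega), ih.2⟩
    · rw [if_neg h]
      refine ⟨by rw [List.length_cons]; have := ih.1; omega, fun v hv => ?_⟩
      rcases List.mem_cons.1 hv with rfl | hv
      · rw [List.isEmpty_iff] at h
        obtain ⟨b, m, hbm⟩ := List.exists_cons_of_ne_nil h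
        rw [hbm, List.headD_cons, sz_nat]
        have : b ∈ nexts n A (l.headD 0) := by rw [hbm]; simp
        unfold nexts at this
        rw [List.mem_filter, List.mem_range] at this
        omega
      · exact ih.2 v hv

@[fun_prop] theorem ptime_chainB {n s : α → ℕ} {bits : α → List Bool}
    (hn : PTime n) (hb : PTime bits) (hs : PTime s) :
    PTime (fun a => chainB (n a) (bits a) (s a)) := by
  have c1 : ∀ {δ : Type} [TrEnc δ] {f : α → δ}, PTime f →
      PTime (fun p : α × List ℕ => f p.1) := fun hf => hf.comp' (by fun_prop)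
  have h1 := c1 hn
  have h2 := c1 hb
  refine PTime.iterate (F := fun a l => chainStepB (n a) (bits a) l) (g := fun a => [s a])
    (n := n) hn (by fun_prop) (by fun_prop)
    (fun a => (n a + 1) * ((2 * (n a + s a) + 1) + 1) + 1)
    ((((PB.nat hn).add (PB.const 1)).mul ((((PB.const 2).mul ((PB.nat hn).add
      (PB.nat hs))).add (PB.const 1)).add (PB.const 1))).add (PB.const 1)) ?_
  intro a i hi
  refine (Bd.sz_le (bd_chainStep i)).trans ?_
  gcongr

@[fun_prop] theorem ptime_HmatB {n : α → ℕ} {bits : α → List Bool} (hn : PTime n)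
    (hb : PTime bits) : PTime (fun a => HmatB (n a) (bits a)) := by
  have c1 : ∀ {δ : Type} [TrEnc δ] {f : α → δ}, PTime f →
      PTime (fun p : α × ℕ => f p.1) := fun hf => hf.comp' (by fun_prop)
  have c2 : ∀ {δ : Type} [TrEnc δ] {f : α → δ}, PTime f →
      PTime (fun p : (α × ℕ) × ℕ => f p.1.1) := fun hf => hf.comp' (by fun_prop)
  have h1 := c1 hn
  have h2 := c1 hb
  have h3 := c2 hn
  have h4 := c2 hb
  refine PTime.map (l := fun a => startsB (n a) (bits a)) (F := fun a s =>
    (startsB (n a) (bits a)).map (fun s' => Ab (n a) (bits a)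
      ((chainB (n a) (bits a) s).headD 0) s')) (by fun_prop) ?_
  exact PTime.map (l := fun p : α × ℕ => startsB (n p.1) (bits p.1)) (F := fun p s' =>
    Ab (n p.1) (bits p.1) ((chainB (n p.1) (bits p.1) p.2).headD 0) s')
    (by fun_prop) (by fun_prop)

@[fun_prop] theorem ptime_tvecB {n : α → ℕ} {bits : α → List Bool} (hn : PTime n)
    (hb : PTime bits) : PTime (fun a => tvecB (n a) (bits a)) := by
  have c1 : ∀ {δ : Type} [TrEnc δ] {f : α → δ}, PTime f →
      PTime (fun p : α × ℕ => f p.1) := fun hf => hf.comp' (by fun_prop)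
  have h1 := c1 hn
  have h2 := c1 hb
  exact PTime.map (l := fun a => startsB (n a) (bits a)) (F := fun a s =>
    (chainB (n a) (bits a) s).length - 1) (by fun_prop) (by fun_prop)

/-! ### Parsing -/

/-- The number of leading ones. -/
def lead (w : List Bool) : ℕ := w.foldr (fun b k => if b = true then k + 1 else 0) 0

theorem lead_le (w : List Bool) : lead w ≤ w.length := by
  induction w with
  | nil => simp [lead]
  | cons b w ih =>
    unfold lead at ih ⊢
    rw [List.foldr_cons, List.length_cons]
    split_ifs <;> omega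

@[fun_prop] theorem ptime_lead {w : α → List Bool} (hw : PTime w) :
    PTime (fun a => lead (w a)) := by
  unfold lead
  refine PTime.foldr (F := fun _ b k => if b = true then k + 1 else 0) (g := fun _ => 0) hw
    (by fun_prop) (PTime.ite (by fun_prop) (by fun_prop) (by fun_prop))
    (fun a => 2 * (w a).length + 1) (((PB.const 2).mul (PB.length hw)).add (PB.const 1)) ?_
  intro a l₁ l₂ h
  have h1 : l₂.foldr (fun b k => if b = true then k + 1 else 0) 0 ≤ l₂.length := lead_le l₂
  rw [sz_nat, h, List.length_append]
  omega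

theorem lead_code (n : ℕ) (l : List Bool) : lead (List.replicate n true ++ (false :: l)) = n := by
  induction n with
  | zero => simp [lead]
  | succ n ih =>
    unfold lead at ih ⊢
    rw [List.replicate_succ, List.cons_append, List.foldr_cons, ih]
    simp

/-- The value of a binary number, capped. -/
def capval (cap : ℕ) (l : List Bool) : ℕ :=
  l.foldr (fun b x => min (x + x + (if b = true then 1 else 0)) cap) 0

@[fun_prop] theorem ptime_capval {cap : α → ℕ} {w : α → List Bool} (hc : PTime cap)
    (hw : PTime w) : PTime (fun a => capval (cap a) (w a)) := by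
  have c1 : PTime (fun p : α × Bool × ℕ => cap p.1) := hc.comp' (by fun_prop)
  have c2 : PTime (fun p : α × Bool × ℕ => if p.2.1 = true then 1 else 0) :=
    PTime.ite (by fun_prop) (by fun_prop) (by fun_prop)
  unfold capval
  refine PTime.foldr (F := fun a b x => min (x + x + (if b = true then 1 else 0)) (cap a))
    (g := fun _ => 0) hw (by fun_prop) (by fun_prop)
    (fun a => 2 * cap a + 1) (((PB.const 2).mul (PB.nat hc)).add (PB.const 1)) ?_
  intro a l₁ l₂ h
  rw [sz_nat]
  have : l₂.foldr (fun b x => min (x + x + (if b = true then 1 else 0)) (cap a)) 0 ≤ cap a := by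
    cases l₂ with
    | nil => simp
    | cons b l => rw [List.foldr_cons]; exact min_le_right _ _
  omega

theorem capval_eq (cap : ℕ) (l : List Bool) :
    capval cap l = min (Nat.ofDigits 2 (l.map (fun b => cond b 1 0))) cap := by
  induction l with
  | nil => simp [capval]
  | cons b l ih =>
    unfold capval at ih ⊢
    rw [List.foldr_cons, ih, List.map_cons, Nat.ofDigits_cons]
    cases b
    · simp only [Bool.false_eq_true, if_false, cond_false, Nat.cast_zero]
      omega
    · simp only [if_true, cond_true, Nat.cast_one]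
      omega

theorem capval_bits (cap B : ℕ) : capval cap (Nat.bits B) = min B cap := by
  rw [capval_eq, ← Nat.digits_two_eq_bits, Nat.ofDigits_digits]

/-- The number of segments, from the input. -/
def qOf (w : List Bool) : ℕ := (startsB (lead w) (w.drop (lead w + 1))).length

/-- The polynomial-time part of the algorithm. -/
def solve (w : List Bool) (K pad : ℕ) : Bool :=
  mainAlg (qOf w) (capval (2 * qOf w) (w.drop (lead w + 1 + lead w * lead w)))
    (HmatB (lead w) (w.drop (lead w + 1))) (tvecB (lead w) (w.drop (lead w + 1))) K pad (lead w)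

@[fun_prop] theorem ptime_qOf {w : α → List Bool} (hw : PTime w) :
    PTime (fun a => qOf (w a)) := by
  unfold qOf
  fun_prop

@[fun_prop] theorem ptime_solve {w : α → List Bool} {K pad : α → ℕ} (hw : PTime w)
    (hK : PTime K) (hp : PTime pad) : PTime (fun a => solve (w a) (K a) (pad a)) := by
  unfold solve
  fun_prop

end Pool.Agent.Lib.MP_7c7c4f_lc
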