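import Pool.Agent.Lib.MP_7c7c4f_lc.Algo
import Pool.Agent.Lib.MP_7c7c4f_lc.Level

/-!
# Computing the segments of an acyclic digraph
-/

namespace Pool.Agent.Lib.MP_7c7c4f_lc

/-- Out-neighbours. -/
def outs (n : ℕ) (A : ℕ → ℕ → Bool) (u : ℕ) : List ℕ := (List.range n).filter (fun v => A u v)

/-- In-neighbours. -/
def inns (n : ℕ) (A : ℕ → ℕ → Bool) (v : ℕ) : List ℕ := (List.range n).filter (fun u => A u v)

/-- Arcs inside a segment: the only arc leaving `u` and the only arc entering `v`. -/
def internal (n : ℕ) (A : ℕ → ℕ → Bool) (u v : ℕ) : Bool :=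
  A u v && (decide ((outs n A u).length = 1) && decide ((inns n A v).length = 1))

/-- The next vertex of the segment, if any. -/
def nexts (n : ℕ) (A : ℕ → ℕ → Bool) (u : ℕ) : List ℕ :=
  (List.range n).filter (fun v => internal n A u v)

/-- First vertices of the segments. -/
def starts (n : ℕ) (A : ℕ → ℕ → Bool) : List ℕ :=
  (List.range n).filter (fun v => !((List.range n).any (fun u => internal n A u v)))

/-- Extend a segment (last vertex first). -/
def chainStep (n : ℕ) (A : ℕ → ℕ → Bool) (l : List ℕ) : List ℕ :=
  if (nexts n A (l.headD 0)).isEmpty = true then l else (nexts n A (l.headD 0)).headD 0 :: l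

/-- The segment starting at `s`, last vertex first. -/
def chain (n : ℕ) (A : ℕ → ℕ → Bool) (s : ℕ) : List ℕ := (chainStep n A)^[n] [s]

/-- The arcs between segments. -/
def Hmat (n : ℕ) (A : ℕ → ℕ → Bool) : List (List Bool) :=
  (starts n A).map (fun s => (starts n A).map (fun s' => A ((chain n A s).headD 0) s'))

/-- The lengths of the segments, minus one. -/
def tvec (n : ℕ) (A : ℕ → ℕ → Bool) : List ℕ :=
  (starts n A).map (fun s => (chain n A s).length - 1)

section

variable {n : ℕ} {A : ℕ → ℕ → Bool}

/-- Internal arcs. -/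
def Rint (n : ℕ) (A : ℕ → ℕ → Bool) (u v : ℕ) : Prop := u < n ∧ v < n ∧ internal n A u v = true

theorem eq_of_length_one {l : List ℕ} (h : l.length = 1) {a b : ℕ} (ha : a ∈ l) (hb : b ∈ l) :
    a = b := by
  obtain ⟨c, rfl⟩ := List.length_eq_one_iff.1 h
  rw [List.mem_singleton.1 ha, List.mem_singleton.1 hb]

theorem internal_iff {u v : ℕ} : internal n A u v = true ↔
    A u v = true ∧ (outs n A u).length = 1 ∧ (inns n A v).length = 1 := by
  unfold internal
  rw [Bool.and_eq_true, Bool.and_eq_true, decide_eq_true_eq, decide_eq_true_eq]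

theorem mem_outs {u v : ℕ} : v ∈ outs n A u ↔ v < n ∧ A u v = true := by
  unfold outs
  rw [List.mem_filter, List.mem_range]

theorem mem_inns {u v : ℕ} : u ∈ inns n A v ↔ u < n ∧ A u v = true := by
  unfold inns
  rw [List.mem_filter, List.mem_range]

theorem Rint.right {u v v' : ℕ} (h : Rint n A u v) (hv : v' < n) (h' : A u v' = true) :
    v = v' := by
  obtain ⟨-, h2, h3⟩ := h
  rw [internal_iff] at h3
  exact eq_of_length_one h3.2.1 (mem_outs.2 ⟨h2, h3.1⟩) (mem_outs.2 ⟨hv, h'⟩)

theorem Rint.left {u u' v : ℕ} (h : Rint n A u v) (hu : u' < n) (h' : A u' v = true) :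
    u = u' := by
  obtain ⟨h1, -, h3⟩ := h
  rw [internal_iff] at h3
  exact eq_of_length_one h3.2.2 (mem_inns.2 ⟨h1, h3.1⟩) (mem_inns.2 ⟨hu, h'⟩)

theorem Rint.adj {u v : ℕ} (h : Rint n A u v) : A u v = true := (internal_iff.1 h.2.2).1

theorem Rint.right' {u v v' : ℕ} (h : Rint n A u v) (h' : Rint n A u v') : v = v' :=
  h.right h'.2.1 h'.adj

theorem Rint.left' {u u' v : ℕ} (h : Rint n A u v) (h' : Rint n A u' v) : u = u' :=
  h.left h'.1 h'.adj

theorem mem_nexts {u v : ℕ} (hu : u < n) : v ∈ nexts n A u ↔ Rint n A u v := by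
  unfold nexts Rint
  rw [List.mem_filter, List.mem_range]
  exact ⟨fun h => ⟨hu, h⟩, fun h => h.2⟩

theorem mem_starts {v : ℕ} : v ∈ starts n A ↔ v < n ∧ ∀ u, ¬ Rint n A u v := by
  unfold starts Rint
  rw [List.mem_filter, List.mem_range]
  refine and_congr_right (fun hv => ?_)
  rw [Bool.not_eq_true', ← Bool.not_eq_true, List.any_eq_true]
  constructor
  · intro h u hu
    exact h ⟨u, List.mem_range.2 hu.1, hu.2.2⟩
  · rintro h ⟨u, hu, h1⟩
    exact h u ⟨List.mem_range.1 hu, hv, h1⟩

theorem starts_nodup : (starts n A).Nodup := List.Nodup.filter _ List.nodup_range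

theorem chainStep_spec {s : ℕ} (hs : s < n) (k : ℕ) :
    ((chainStep n A)^[k] [s]) ≠ [] ∧ (∀ x ∈ (chainStep n A)^[k] [s], x < n) ∧
      List.IsChain (fun a b => Rint n A b a) ((chainStep n A)^[k] [s]) ∧
      ((chainStep n A)^[k] [s]).getLast? = some s ∧
      (nexts n A (((chainStep n A)^[k] [s]).headD 0) = [] ∨
        ((chainStep n A)^[k] [s]).length = k + 1) := by
  induction k with
  | zero => simp [hs]
  | succ k ih =>
    rw [Function.iterate_succ_apply']
    obtain ⟨h1, h2, h3, h4, h5⟩ := ih
    set l := (chainStep n A)^[k] [s] with hl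
    by_cases hn : nexts n A (l.headD 0) = []
    · have e : chainStep n A l = l := by
        unfold chainStep
        rw [hn]
        simp
      rw [e]
      exact ⟨h1, h2, h3, h4, Or.inl hn⟩
    · have e : chainStep n A l = (nexts n A (l.headD 0)).headD 0 :: l := by
        unfold chainStep
        have : ¬ (nexts n A (l.headD 0)).isEmpty = true := by
          rw [List.isEmpty_iff]; exact hn
        rw [if_neg this]
      rw [e]
      have h6 : l.length = k + 1 := by
        rcases h5 with h5 | h5
        · exact absurd h5 hn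
        · exact h5
      obtain ⟨a, l', hal⟩ : ∃ a l', l = a :: l' := List.exists_cons_of_ne_nil h1
      obtain ⟨b, m', hbm⟩ : ∃ b m', nexts n A (l.headD 0) = b :: m' :=
        List.exists_cons_of_ne_nil hn
      rw [hbm, List.headD_cons]
      rw [hal, List.headD_cons] at hbm
      have ha : a < n := h2 a (by rw [hal]; simp)
      have hR : Rint n A a b := (mem_nexts ha).1 (by rw [hbm]; simp)
      refine ⟨by simp, ?_, ?_, ?_, Or.inr (by rw [List.length_cons, h6])⟩
      · intro x hx
        rcases List.mem_cons.1 hx with rfl | hx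
        · exact hR.2.1
        · exact h2 x hx
      · rw [hal, List.isChain_cons_cons, ← hal]
        exact ⟨hR, h3⟩
      · rw [hal] at h4 ⊢
        rw [List.getLast?_cons_cons]
        exact h4

theorem chain_nexts {τ : ℕ → ℤ} (hτ : ∀ u < n, ∀ v < n, A u v = true → τ v = τ u + 1) {s : ℕ}
    (hs : s < n) : nexts n A ((chain n A s).headD 0) = [] := by
  obtain ⟨h1, h2, h3, h4, h5⟩ := chainStep_spec (A := A) hs n
  rcases h5 with h5 | h5
  · exact h5
  · exfalso
    have h6 : List.IsChain (fun a b => τ b < τ a) ((chainStep n A)^[n] [s]) := by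
      refine h3.imp (fun a b hab => ?_)
      have := hτ b hab.1 a hab.2.1 hab.adj
      omega
    have : Trans (fun a b : ℕ => τ b < τ a) (fun a b : ℕ => τ b < τ a)
        (fun a b : ℕ => τ b < τ a) := ⟨fun h h' => lt_trans h' h⟩
    have h7 := h6.pairwise
    have h8 : ((chainStep n A)^[n] [s]).Nodup := h7.imp (fun {a b} h => by
      rintro rfl; exact lt_irrefl _ h)
    have h9 : ((chainStep n A)^[n] [s]).length ≤ (List.range n).length :=
      (h8.subperm (fun x hx => List.mem_range.2 (h2 x hx))).length_le
    rw [List.length_range] at h9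
    omega

/-- Forward segment. -/
def fc (n : ℕ) (A : ℕ → ℕ → Bool) (s : ℕ) : List ℕ := (chain n A s).reverse

theorem length_fc (s : ℕ) : (fc n A s).length = (chain n A s).length := by simp [fc]

theorem fc_zero {s : ℕ} (hs : s < n) : (fc n A s)[0]? = some s := by
  obtain ⟨h1, h2, h3, h4, h5⟩ := chainStep_spec (A := A) hs n
  unfold fc
  rw [← List.head?_eq_getElem?, List.head?_reverse]
  exact h4

theorem fc_lt {s : ℕ} (hs : s < n) {j v : ℕ} (h : (fc n A s)[j]? = some v) : v < n := by
  obtain ⟨h1, h2, h3, h4, h5⟩ := chainStep_spec (A := A) hs n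
  refine h2 v ?_
  have := List.mem_of_getElem? h
  unfold fc at this
  rwa [List.mem_reverse] at this

theorem fc_step {s : ℕ} (hs : s < n) {j u v : ℕ} (hu : (fc n A s)[j]? = some u)
    (hv : (fc n A s)[j + 1]? = some v) : Rint n A u v := by
  obtain ⟨h1, h2, h3, h4, h5⟩ := chainStep_spec (A := A) hs n
  have h6 : List.IsChain (fun a b => Rint n A a b) (fc n A s) := by
    unfold fc
    rw [List.isChain_reverse]
    exact h3
  rw [List.isChain_iff_getElem] at h6
  obtain ⟨hj, hj2⟩ := List.getElem?_eq_some_iff.1 hv
  obtain ⟨hj3, hj4⟩ := List.getElem?_eq_some_iff.1 hu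
  have := h6 j hj
  rwa [hj2, hj4] at this

theorem fc_max {τ : ℕ → ℤ} (hτ : ∀ u < n, ∀ v < n, A u v = true → τ v = τ u + 1) {s : ℕ}
    (hs : s < n) {j u v : ℕ} (hu : (fc n A s)[j]? = some u)
    (h : Rint n A u v) : (fc n A s)[j + 1]? = some v := by
  obtain ⟨hj, hj2⟩ := List.getElem?_eq_some_iff.1 hu
  rcases Nat.lt_or_ge (j + 1) (fc n A s).length with hl | hl
  · have h1 := fc_step hs hu (List.getElem?_eq_getElem hl)
    rw [List.getElem?_eq_getElem hl, h.right' h1]
  · exfalso
    have h1 := chain_nexts hτ hs
    have h2 : (chain n A s).headD 0 = u := by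
      unfold fc at hj hj2 hl
      rw [List.getElem_reverse] at hj2
      rw [List.length_reverse] at hj hl
      cases hc : chain n A s with
      | nil => rw [hc] at hj; simp at hj
      | cons a l =>
        rw [List.headD_cons]
        have h3 : (chain n A s)[0]? = some u := by
          rw [← hj2]
          have : (chain n A s).length - 1 - j = 0 := by omega
          rw [List.getElem?_eq_getElem (by omega)]
          simp only [this]
        rw [hc] at h3
        simpa using h3
    rw [h2] at h1
    have := (mem_nexts h.1).2 h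
    rw [h1] at this
    simp at this

/-- `v` is the vertex number `j` of the segment number `i`. -/
def At (n : ℕ) (A : ℕ → ℕ → Bool) (i j v : ℕ) : Prop :=
  i < (starts n A).length ∧ (fc n A ((starts n A).getD i 0))[j]? = some v

theorem starts_getD_mem {i : ℕ} (hi : i < (starts n A).length) :
    (starts n A).getD i 0 ∈ starts n A := by
  rw [List.getD_eq_getElem _ _ hi]
  exact List.getElem_mem hi

theorem starts_getD_lt {i : ℕ} (hi : i < (starts n A).length) :
    (starts n A).getD i 0 < n := (mem_starts.1 (starts_getD_mem hi)).1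

theorem At.unique {i j i' j' v : ℕ} (h : At n A i j v) (h' : At n A i' j' v) :
    i = i' ∧ j = j' := by
  induction j generalizing j' v with
  | zero =>
    have h1 := starts_getD_lt h.1
    have h2 := fc_zero (A := A) h1
    have hv : v = (starts n A).getD i 0 := by
      have := h.2
      rw [h2] at this
      exact (Option.some.inj this).symm
    have hvs : v ∈ starts n A := by rw [hv]; exact starts_getD_mem h.1
    cases j' with
    | zero =>
      have h3 := fc_zero (A := A) (starts_getD_lt h'.1)
      have hv' : v = (starts n A).getD i' 0 := by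
        have := h'.2
        rw [h3] at this
        exact (Option.some.inj this).symm
      refine ⟨?_, rfl⟩
      rw [hv, List.getD_eq_getElem _ _ h.1, List.getD_eq_getElem _ _ h'.1] at hv'
      exact (starts_nodup.getElem_inj_iff).1 hv'
    | succ j' =>
      exfalso
      obtain ⟨hj, -⟩ := List.getElem?_eq_some_iff.1 h'.2
      have hj2 : j' < (fc n A ((starts n A).getD i' 0)).length := by omega
      have := fc_step (starts_getD_lt h'.1) (List.getElem?_eq_getElem hj2) h'.2
      exact (mem_starts.1 hvs).2 _ this
  | succ j ih =>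
    obtain ⟨hj, -⟩ := List.getElem?_eq_some_iff.1 h.2
    have hj2 : j < (fc n A ((starts n A).getD i 0)).length := by omega
    have h3 := fc_step (starts_getD_lt h.1) (List.getElem?_eq_getElem hj2) h.2
    cases j' with
    | zero =>
      exfalso
      have h4 := fc_zero (A := A) (starts_getD_lt h'.1)
      have hv' : v = (starts n A).getD i' 0 := by
        have := h'.2
        rw [h4] at this
        exact (Option.some.inj this).symm
      have hvs : v ∈ starts n A := by rw [hv']; exact starts_getD_mem h'.1
      exact (mem_starts.1 hvs).2 _ h3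
    | succ j' =>
      obtain ⟨hj', -⟩ := List.getElem?_eq_some_iff.1 h'.2
      have hj2' : j' < (fc n A ((starts n A).getD i' 0)).length := by omega
      have h5 := fc_step (starts_getD_lt h'.1) (List.getElem?_eq_getElem hj2') h'.2
      have h6 : At n A i j (fc n A ((starts n A).getD i 0))[j] :=
        ⟨h.1, List.getElem?_eq_getElem hj2⟩
      have h7 : At n A i' j' (fc n A ((starts n A).getD i 0))[j] :=
        ⟨h'.1, by rw [h3.left' h5]; exact List.getElem?_eq_getElem hj2'⟩
      obtain ⟨h8, h9⟩ := ih h6 h7
      exact ⟨h8, by rw [h9]⟩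

theorem exists_at {τ : ℕ → ℤ} (hτ : ∀ u < n, ∀ v < n, A u v = true → τ v = τ u + 1) :
    ∀ v < n, ∃ i j, At n A i j v := by
  obtain ⟨c, hc⟩ : ∃ c : ℤ, ∀ v < n, c ≤ τ v := by
    obtain ⟨c, hc⟩ := ((Finset.range n).image τ).bddBelow
    exact ⟨c, fun v hv => hc (Finset.mem_coe.2
      (Finset.mem_image_of_mem _ (Finset.mem_range.2 hv)))⟩
  have key : ∀ k : ℕ, ∀ v < n, (τ v - c).toNat ≤ k → ∃ i j, At n A i j v := by
    intro k
    induction k with
    | zero =>
      intro v hv hk
      by_cases hs : v ∈ starts n A
      · obtain ⟨i, hi, rfl⟩ := List.mem_iff_getElem.1 hs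
        refine ⟨i, 0, hi, ?_⟩
        rw [List.getD_eq_getElem _ _ hi]
        exact fc_zero hv
      · rw [mem_starts] at hs
        push Not at hs
        obtain ⟨u, hu⟩ := hs hv
        have h1 := hτ u hu.1 v hv hu.adj
        have h2 := hc u hu.1
        omega
    | succ k ih =>
      intro v hv hk
      by_cases hs : v ∈ starts n A
      · obtain ⟨i, hi, rfl⟩ := List.mem_iff_getElem.1 hs
        refine ⟨i, 0, hi, ?_⟩
        rw [List.getD_eq_getElem _ _ hi]
        exact fc_zero hv
      · rw [mem_starts] at hs
        push Not at hs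
        obtain ⟨u, hu⟩ := hs hv
        have h1 := hτ u hu.1 v hv hu.adj
        have h2 := hc u hu.1
        obtain ⟨i, j, hi, hj⟩ := ih u hu.1 (by omega)
        exact ⟨i, j + 1, hi, fc_max hτ (starts_getD_lt hi) hj hu⟩
  exact fun v hv => key _ v hv le_rfl

/-- The number of vertices of the segment number `i`. -/
def lenf (n : ℕ) (A : ℕ → ℕ → Bool) (i : ℕ) : ℕ := (fc n A ((starts n A).getD i 0)).length

theorem length_tvec : (tvec n A).length = (starts n A).length := by simp [tvec]

theorem vf_tvec {i : ℕ} (hi : i < (starts n A).length) : vf (tvec n A) i = lenf n A i - 1 := by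
  unfold vf tvec lenf
  rw [List.getD_eq_getElem _ _ (by simpa using hi), List.getElem_map,
    List.getD_eq_getElem _ _ hi, length_fc]

theorem Hf_Hmat {i j : ℕ} (hi : i < (starts n A).length) (hj : j < (starts n A).length) :
    Hf (Hmat n A) i j = A ((chain n A ((starts n A).getD i 0)).headD 0) ((starts n A).getD j 0) := by
  unfold Hf Hmat
  rw [List.getD_eq_getElem (n := i) _ _ (by simpa using hi), List.getElem_map,
    List.getD_eq_getElem (n := j) _ _ (by simpa using hj), List.getElem_map,
    List.getD_eq_getElem _ _ hi, List.getD_eq_getElem _ _ hj]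

theorem headD_chain {s u : ℕ} (h : (fc n A s)[(fc n A s).length - 1]? = some u) :
    (chain n A s).headD 0 = u := by
  unfold fc at h
  rw [List.length_reverse] at h
  cases hc : chain n A s with
  | nil => rw [hc] at h; simp at h
  | cons a l =>
    rw [hc] at h
    rw [List.headD_cons]
    rw [List.getElem?_reverse (by simp)] at h
    simpa using h

/-- The segments describe the digraph. -/
theorem exists_rep {G : Digraph (Fin n)} (hG : ∀ u v : Fin n, G.Adj u v ↔ A u v = true)
    {τ : ℕ → ℤ} (hτ : ∀ u < n, ∀ v < n, A u v = true → τ v = τ u + 1) :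
    ∃ seg pos : Fin n → ℕ, Rep G (starts n A).length (lenf n A) (Hf (Hmat n A)) seg pos := by
  have hex := fun v : Fin n => exists_at hτ v v.2
  choose seg pos hat using hex
  have hpos : ∀ v, pos v < lenf n A (seg v) := fun v =>
    (List.getElem?_eq_some_iff.1 (hat v).2).1
  have huniq : ∀ (v : Fin n) i j, At n A i j v → seg v = i ∧ pos v = j :=
    fun v i j h => (hat v).unique h
  refine ⟨seg, pos, ⟨fun v => (hat v).1, hpos, ?_, ?_, ?_, ?_⟩⟩
  · intro u v h1 h2
    have h3 := (hat u).2
    rw [h1, h2, (hat v).2] at h3
    exact Fin.ext (Option.some.inj h3).symm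
  · intro i hi j hj
    have h1 : (fc n A ((starts n A).getD i 0))[j]? =
        some ((fc n A ((starts n A).getD i 0))[j]) := List.getElem?_eq_getElem hj
    have h2 := fc_lt (starts_getD_lt hi) h1
    exact ⟨⟨_, h2⟩, huniq _ _ _ ⟨hi, h1⟩⟩
  · intro i hi
    have h1 := fc_zero (A := A) (starts_getD_lt hi)
    exact (List.getElem?_eq_some_iff.1 h1).1
  · intro u v
    rw [hG]
    constructor
    · intro huv
      by_cases hR : Rint n A u v
      · left
        have h1 := fc_max hτ (starts_getD_lt (hat u).1) (hat u).2 hR
        obtain ⟨h2, h3⟩ := huniq v _ _ ⟨(hat u).1, h1⟩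
        exact ⟨h2.symm, h3⟩
      · right
        have hu : pos u + 1 = lenf n A (seg u) := by
          by_contra hc
          have h1 := hpos u
          have h2 : pos u + 1 < (fc n A ((starts n A).getD (seg u) 0)).length := by
            unfold lenf at hc h1; omega
          have h3 := fc_step (starts_getD_lt (hat u).1) (hat u).2 (List.getElem?_eq_getElem h2)
          have h4 := h3.right v.2 huv
          rw [h4] at h3
          exact hR h3
        have hv : pos v = 0 := by
          by_contra hc
          have h1 := hpos v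
          unfold lenf at h1
          have h2 : pos v - 1 < (fc n A ((starts n A).getD (seg v) 0)).length := by omega
          have h3 := fc_step (u := (fc n A ((starts n A).getD (seg v) 0))[pos v - 1]) (v := v)
            (starts_getD_lt (hat v).1) (List.getElem?_eq_getElem h2) (by
              have : pos v - 1 + 1 = pos v := by omega
              rw [this]; exact (hat v).2)
          have h4 := h3.left u.2 huv
          rw [h4] at h3
          exact hR h3
        refine ⟨hu, hv, ?_⟩
        rw [Hf_Hmat (hat u).1 (hat v).1]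
        have h1 : (chain n A ((starts n A).getD (seg u) 0)).headD 0 = u := by
          refine headD_chain ?_
          have : (fc n A ((starts n A).getD (seg u) 0)).length - 1 = pos u := by
            unfold lenf at hu; omega
          rw [this]; exact (hat u).2
        have h2 : (starts n A).getD (seg v) 0 = v := by
          have h3 := fc_zero (A := A) (starts_getD_lt (hat v).1)
          have h4 := (hat v).2
          rw [hv, h3] at h4
          exact Option.some.inj h4
        rw [h1, h2]
        exact huv
    · rintro (⟨h1, h2⟩ | ⟨h1, h2, h3⟩)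
      · have h4 := (hat v).2
        rw [← h1, h2] at h4
        exact (fc_step (starts_getD_lt (hat u).1) (hat u).2 h4).adj
      · rw [Hf_Hmat (hat u).1 (hat v).1] at h3
        have h4 : (chain n A ((starts n A).getD (seg u) 0)).headD 0 = u := by
          refine headD_chain ?_
          have : (fc n A ((starts n A).getD (seg u) 0)).length - 1 = pos u := by
            unfold lenf at h1; omega
          rw [this]; exact (hat u).2
        have h5 : (starts n A).getD (seg v) 0 = v := by
          have h6 := fc_zero (A := A) (starts_getD_lt (hat v).1)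
          have h7 := (hat v).2
          rw [h2, h6] at h7
          exact Option.some.inj h7
        rw [h4, h5] at h3
        exact h3

end

end Pool.Agent.Lib.MP_7c7c4f_lc
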