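import Pool.Agent.Lib.MP_7c7c4f_lc.Hist

/-!
# Histories as words over the segments
-/

namespace Pool.Agent.Lib.MP_7c7c4f_lc

variable {V : Type}

/-- The digraph `G` is described by `q` directed paths (segments) of lengths `len i` and arcs
`H i i'` from the last vertex of segment `i` to the first vertex of segment `i'`. -/
structure Rep (G : Digraph V) (q : ℕ) (len : ℕ → ℕ) (H : ℕ → ℕ → Bool) (seg pos : V → ℕ) :
    Prop where
  seg_lt : ∀ v, seg v < q
  pos_lt : ∀ v, pos v < len (seg v)
  inj : ∀ u v, seg u = seg v → pos u = pos v → u = v
  surj : ∀ i < q, ∀ j < len i, ∃ v, seg v = i ∧ pos v = j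
  len_pos : ∀ i < q, 0 < len i
  adj : ∀ u v, G.Adj u v ↔ (seg u = seg v ∧ pos v = pos u + 1) ∨
    (pos u + 1 = len (seg u) ∧ pos v = 0 ∧ H (seg u) (seg v) = true)

/-- Letters: a segment, and a flag telling if this is the last vertex of the segment. -/
abbrev Letter := ℕ × Bool

/-- The letter `a` may be written after the word `ω` (latest letter first). -/
def Ok (q B : ℕ) (H : ℕ → ℕ → Bool) (ω : List Letter) (a : Letter) : Prop :=
  a.1 < q ∧ (a.1, true) ∉ ω ∧
    (a.1 ∈ ω.map Prod.fst → a.1 ∈ (ω.map Prod.fst).take B) ∧
    (a.1 ∉ ω.map Prod.fst → ∀ j < q, H j a.1 = true →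
      (j, true) ∈ ω ∧ j ∈ (ω.map Prod.fst).take B)

/-- Valid words. -/
def Valid (q B : ℕ) (H : ℕ → ℕ → Bool) : List Letter → Prop
  | [] => True
  | a :: ω => Ok q B H ω a ∧ Valid q B H ω

section
variable {G : Digraph V} {q : ℕ} {len : ℕ → ℕ} {H : ℕ → ℕ → Bool} {seg pos : V → ℕ}

theorem Rep.mem_iff (hr : Rep G q len H seg pos) {B : ℕ} : ∀ {h : List V}, Good G B h →
    ∀ v, v ∈ h ↔ pos v < (h.map seg).count (seg v)
  | [], _ => by simp
  | x :: h, hg => by
    intro v
    obtain ⟨hx, hpred, hg'⟩ := hg
    have ih := hr.mem_iff hg'
    have hc : (h.map seg).count (seg x) = pos x := by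
      have h1 : ¬ pos x < (h.map seg).count (seg x) := fun hh => hx ((ih x).2 hh)
      rcases Nat.eq_zero_or_pos (pos x) with h0 | h0
      · omega
      · obtain ⟨u, hu1, hu2⟩ := hr.surj (seg x) (hr.seg_lt x) (pos x - 1)
          (by have := hr.pos_lt x; omega)
        have hu : u ∈ h := List.mem_of_mem_take (hpred u ((hr.adj u x).2 (Or.inl ⟨hu1, by omega⟩)))
        have := (ih u).1 hu
        rw [hu1] at this
        omega
    rw [List.mem_cons, ih, List.map_cons, List.count_cons]
    by_cases hs : seg x = seg v
    · simp only [hs, beq_self_eq_true, if_true]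
      rw [hs] at hc
      constructor
      · rintro (rfl | h1)
        · omega
        · omega
      · intro h1
        rcases Nat.lt_or_ge (pos v) ((h.map seg).count (seg v)) with h2 | h2
        · exact Or.inr h2
        · exact Or.inl (hr.inj v x hs.symm (by omega))
    · have : ¬ ((seg x == seg v) = true) := by simpa using hs
      rw [if_neg this, add_zero]
      constructor
      · rintro (rfl | h1)
        · exact absurd rfl hs
        · exact h1
      · exact Or.inr

theorem Rep.count_eq (hr : Rep G q len H seg pos) {B : ℕ} {x : V} {h : List V}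
    (hg : Good G B (x :: h)) : (h.map seg).count (seg x) = pos x := by
  have h1 := (hr.mem_iff hg.2.2 x).not.1 hg.1
  have h2 := (hr.mem_iff hg x).1 (List.mem_cons_self)
  rw [List.map_cons, List.count_cons] at h2
  simp only [beq_self_eq_true, if_true] at h2
  omega

theorem Rep.count_le (hr : Rep G q len H seg pos) {B : ℕ} : ∀ {h : List V}, Good G B h →
    ∀ i, i < q → (h.map seg).count i ≤ len i
  | [], _ => by simp
  | x :: h, hg => by
    intro i hi
    have h1 := hr.count_eq hg
    have h2 := hr.count_le hg.2.2 i hi
    rw [List.map_cons, List.count_cons]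
    by_cases hs : seg x = i
    · subst hs
      have := hr.pos_lt x
      simp only [beq_self_eq_true, if_true]
      omega
    · have : ¬ ((seg x == i) = true) := by simpa using hs
      rw [if_neg this]
      omega

theorem Rep.window (hr : Rep G q len H seg pos) {B : ℕ} : ∀ {h : List V}, Good G B h →
    ∀ u, u ∈ h → pos u + 1 = (h.map seg).count (seg u) → ∀ K,
      (u ∈ h.take K ↔ seg u ∈ (h.map seg).take K)
  | [], _ => by simp
  | x :: h, hg => by
    intro u hu hc K
    have h1 := hr.count_eq hg
    rw [List.map_cons, List.count_cons] at hc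
    cases K with
    | zero => simp
    | succ K =>
      rw [List.map_cons, List.take_succ_cons, List.take_succ_cons, List.mem_cons, List.mem_cons]
      by_cases hs : seg x = seg u
      · have hux : u = x := by
          refine hr.inj u x hs.symm ?_
          rw [hs] at h1
          simp only [hs, beq_self_eq_true, if_true] at hc
          omega
        subst hux
        simp
      · have hne : u ≠ x := by rintro rfl; exact hs rfl
        have hu' : u ∈ h := by
          rcases List.mem_cons.1 hu with h2 | h2
          · exact absurd h2 hne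
          · exact h2
        have : ¬ ((seg x == seg u) = true) := by simpa using hs
        rw [if_neg this, add_zero] at hc
        have ih := hr.window hg.2.2 u hu' hc K
        rw [ih]
        constructor
        · rintro (h2 | h2)
          · exact absurd h2 hne
          · exact Or.inr h2
        · rintro (h2 | h2)
          · exact absurd h2.symm hs
          · exact Or.inr h2

/-- The letter of a vertex. -/
def letter (len : ℕ → ℕ) (seg pos : V → ℕ) (v : V) : Letter :=
  (seg v, decide (pos v + 1 = len (seg v)))

theorem map_fst_letter (h : List V) :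
    (h.map (letter len seg pos)).map Prod.fst = h.map seg := by
  rw [List.map_map]; rfl

theorem Rep.mem_true_iff (hr : Rep G q len H seg pos) {B : ℕ} {h : List V} (hg : Good G B h)
    {i : ℕ} (hi : i < q) :
    (i, true) ∈ h.map (letter len seg pos) ↔ (h.map seg).count i = len i := by
  have h1 := hr.count_le hg i hi
  have h3 := hr.len_pos i hi
  constructor
  · intro hm
    obtain ⟨v, hv, he⟩ := List.mem_map.1 hm
    simp only [letter, Prod.mk.injEq, decide_eq_true_eq] at he
    obtain ⟨rfl, he⟩ := he
    have := (hr.mem_iff hg v).1 hv
    omega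
  · intro hc
    obtain ⟨v, hv1, hv2⟩ := hr.surj i hi (len i - 1) (by omega)
    have hv : v ∈ h := (hr.mem_iff hg v).2 (by rw [hv1]; omega)
    refine List.mem_map.2 ⟨v, hv, ?_⟩
    simp only [letter, Prod.mk.injEq, decide_eq_true_eq]
    refine ⟨hv1, ?_⟩
    rw [hv1]; omega

/-- The word of a good history is valid, and the converse. -/
theorem Rep.good_cons_iff (hr : Rep G q len H seg pos) {B : ℕ} {x : V} {h : List V}
    (hg : Good G B h) (hx : pos x = (h.map seg).count (seg x)) :
    Good G B (x :: h) ↔ Ok q B H (h.map (letter len seg pos)) (letter len seg pos x) := by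
  have hmem := hr.mem_iff hg
  have hposx := hr.pos_lt x
  have hsegx := hr.seg_lt x
  unfold Ok
  rw [map_fst_letter]
  have e1 : (letter len seg pos x).1 = seg x := rfl
  rw [e1]
  have hstart : seg x ∈ h.map seg ↔ 0 < pos x := by
    rw [hx, List.count_pos_iff]
  constructor
  · rintro ⟨hx1, hpred, -⟩
    refine ⟨hsegx, ?_, ?_, ?_⟩
    · rw [hr.mem_true_iff hg hsegx]; omega
    · intro hs
      rw [hstart] at hs
      obtain ⟨u, hu1, hu2⟩ := hr.surj (seg x) hsegx (pos x - 1) (by omega)
      have hu := hpred u ((hr.adj u x).2 (Or.inl ⟨hu1, by omega⟩))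
      have := (hr.window hg u (List.mem_of_mem_take hu) (by rw [hu1, hu2]; omega) B).1 hu
      rwa [hu1] at this
    · intro hs j hj hH
      rw [hstart] at hs
      obtain ⟨u, hu1, hu2⟩ := hr.surj j hj (len j - 1) (by have := hr.len_pos j hj; omega)
      have hlj := hr.len_pos j hj
      have hu := hpred u ((hr.adj u x).2 (Or.inr ⟨by rw [hu1, hu2]; omega, by omega, by
        rw [hu1]; exact hH⟩))
      have hu' := List.mem_of_mem_take hu
      have hct := hr.count_le hg j hj
      have hu3 := (hmem u).1 hu'
      rw [hu1] at hu3
      refine ⟨?_, ?_⟩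
      · rw [hr.mem_true_iff hg hj]; omega
      · have := (hr.window hg u hu' (by rw [hu1, hu2]; omega) B).1 hu
        rwa [hu1] at this
  · rintro ⟨-, h1, h2, h3⟩
    refine ⟨?_, ?_, hg⟩
    · rw [hmem]; omega
    · intro u hu
      rcases (hr.adj u x).1 hu with ⟨hs, hp⟩ | ⟨hp, h0, hH⟩
      · have hux : u ∈ h := (hmem u).2 (by rw [hs]; omega)
        rw [hr.window hg u hux (by rw [hs]; omega) B, hs]
        exact h2 (hstart.2 (by omega))
      · have hsu := hr.seg_lt u
        obtain ⟨h4, h5⟩ := h3 (by rw [hstart]; omega) (seg u) hsu hH
        rw [hr.mem_true_iff hg hsu] at h4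
        have hux : u ∈ h := (hmem u).2 (by omega)
        rw [hr.window hg u hux (by omega) B]
        exact h5

/-- The word of a good history. -/
theorem Rep.valid_of_good (hr : Rep G q len H seg pos) {B : ℕ} : ∀ {h : List V}, Good G B h →
    Valid q B H (h.map (letter len seg pos))
  | [], _ => trivial
  | x :: h, hg => by
    have h1 := hr.count_eq hg
    exact ⟨(hr.good_cons_iff hg.2.2 h1.symm).1 hg, hr.valid_of_good hg.2.2⟩

/-- Counting letters of a good history. -/
theorem Rep.count_false (hr : Rep G q len H seg pos) {B : ℕ} : ∀ {h : List V}, Good G B h →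
    ∀ i < q, (h.map (letter len seg pos)).count (i, false) =
      min ((h.map seg).count i) (len i - 1)
  | [], _ => by simp
  | x :: h, hg => by
    intro i hi
    have h1 := hr.count_eq hg
    have h2 := hr.count_false hg.2.2 i hi
    have h3 := hr.pos_lt x
    rw [List.map_cons, List.map_cons, List.count_cons, List.count_cons, h2]
    by_cases hs : seg x = i
    · subst hs
      by_cases hl : pos x + 1 = len (seg x)
      · have : ¬ ((letter len seg pos x == (seg x, false)) = true) := by
          simp [letter, hl]
        rw [if_neg this]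
        simp only [beq_self_eq_true, if_true]
        omega
      · have : ((letter len seg pos x == (seg x, false)) = true) := by
          simp [letter, hl]
        rw [if_pos this]
        simp only [beq_self_eq_true, if_true]
        omega
    · have h4 : ¬ ((letter len seg pos x == (i, false)) = true) := by
        simp [letter, hs]
      have h5 : ¬ ((seg x == i) = true) := by simpa using hs
      rw [if_neg h4, if_neg h5]
      omega

theorem Valid.of_append' {B : ℕ} : ∀ {y x : List Letter}, Valid q B H (y ++ x) → Valid q B H x
  | [], _, h => h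
  | _ :: _, _, h => Valid.of_append' h.2

theorem Valid.seg_lt {B : ℕ} : ∀ {ω : List Letter}, Valid q B H ω → ∀ a ∈ ω, a.1 < q
  | [], _ => by simp
  | a :: ω, hv => by
    intro b hb
    rcases List.mem_cons.1 hb with rfl | hb
    · exact hv.1.1
    · exact Valid.seg_lt hv.2 b hb

/-- In a valid word with the right counts, the flags are right. Decoding. -/
theorem Rep.good_of_valid (hr : Rep G q len H seg pos) {B : ℕ} : ∀ {ω : List Letter},
    Valid q B H ω → ∀ (ω' : List Letter), Valid q B H (ω' ++ ω) →
      (∀ i < q, (ω' ++ ω).count (i, false) = len i - 1) →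
      (∀ i < q, (i, true) ∈ ω' ++ ω) →
      ∃ h : List V, Good G B h ∧ h.map (letter len seg pos) = ω
  | [], _ => fun _ _ _ _ => ⟨[], trivial, rfl⟩
  | a :: ω, hv => by
    intro ω' hv' hcount htrue
    have e : ω' ++ a :: ω = (ω' ++ [a]) ++ ω := by simp
    obtain ⟨h, hg, hω⟩ := hr.good_of_valid hv.2 (ω' ++ [a]) (by rw [← e]; exact hv')
      (by rw [← e]; exact hcount) (by rw [← e]; exact htrue)
    obtain ⟨⟨ha, hnt, hok⟩, -⟩ := hv
    -- counts
    have hlp := hr.len_pos a.1 ha
    have hcf := hcount a.1 ha
    have hcf2 := hr.count_false hg a.1 ha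
    have hle := hr.count_le hg a.1 ha
    have hnt2 : ¬ (h.map seg).count a.1 = len a.1 := by
      rw [← hr.mem_true_iff hg ha, hω]; exact hnt
    rw [hω] at hcf2
    have hlt : (h.map seg).count a.1 < len a.1 := by omega
    obtain ⟨x, hx1, hx2⟩ := hr.surj a.1 ha _ hlt
    have hx : pos x = (h.map seg).count (seg x) := by rw [hx1]; exact hx2
    -- the flag is right
    have hflag : letter len seg pos x = a := by
      obtain ⟨i, b⟩ := a
      simp only at hx1 hx2 ha hcf hcf2 hle hnt2 hlt hlp
      subst hx1
      unfold letter
      rw [hx]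
      cases b with
      | false =>
        -- `(i, false)` occurs `len i - 1` times in total
        have : (h.map seg).count (seg x) + 1 ≤ len (seg x) - 1 := by
          rw [List.count_append, List.count_cons] at hcf
          simp only [beq_self_eq_true, if_true] at hcf
          omega
        simp only [Prod.mk.injEq, true_and, decide_eq_false_iff_not]
        omega
      | true =>
        -- no further occurrence
        have hno : ∀ b, (seg x, b) ∉ ω' := by
          intro b hb
          obtain ⟨s, t, hst⟩ := List.append_of_mem hb
          rw [hst] at hv'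
          have hv2 : ∀ (s r : List Letter), Valid q B H (s ++ r) → Valid q B H r := by
            intro s r
            induction s with
            | nil => exact fun h => h
            | cons c s ih => exact fun h => ih h.2
          have e2 : s ++ (seg x, b) :: t ++ (seg x, true) :: ω =
            s ++ ((seg x, b) :: (t ++ (seg x, true) :: ω)) := by simp
          rw [e2] at hv'
          have := (hv2 _ _ hv').1.2.1
          simp at this
        have : (h.map seg).count (seg x) = len (seg x) - 1 := by
          rw [List.count_append, List.count_cons] at hcf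
          have h0 : ω'.count (seg x, false) = 0 := List.count_eq_zero.2 (hno false)
          have h00 : ¬ (((seg x, true) == (seg x, false)) = true) := by simp
          rw [h0, if_neg h00] at hcf
          omega
        simp only [Prod.mk.injEq, true_and, decide_eq_true_eq]
        omega
    refine ⟨x :: h, ?_, ?_⟩
    · rw [hr.good_cons_iff hg hx, hω, hflag]
      exact ⟨ha, hnt, hok⟩
    · rw [List.map_cons, hω, hflag]

/-- Orderings of bandwidth at most `B` correspond to valid words with given letter counts. -/
theorem Rep.bandwidth_iff [Fintype V] (hr : Rep G q len H seg pos) {B : ℕ} :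
    DirectedBandwidthLE G B ↔ ∃ ω : List Letter, Valid q B H ω ∧ (∀ i < q, (i, true) ∈ ω) ∧
      ∀ i < q, ω.count (i, false) = len i - 1 := by
  rw [directedBandwidthLE_iff]
  constructor
  · rintro ⟨h, hg, hall⟩
    have hfull : ∀ i < q, (h.map seg).count i = len i := by
      intro i hi
      have h1 := hr.count_le hg i hi
      have h2 := hr.len_pos i hi
      obtain ⟨v, hv1, hv2⟩ := hr.surj i hi (len i - 1) (by omega)
      have := (hr.mem_iff hg v).1 (hall v)
      rw [hv1] at this
      omega
    refine ⟨h.map (letter len seg pos), hr.valid_of_good hg, fun i hi => ?_, fun i hi => ?_⟩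
    · rw [hr.mem_true_iff hg hi]; exact hfull i hi
    · rw [hr.count_false hg i hi, hfull i hi]; omega
  · rintro ⟨ω, hv, htrue, hcount⟩
    obtain ⟨h, hg, hω⟩ := hr.good_of_valid hv [] hv hcount htrue
    refine ⟨h, hg, fun v => ?_⟩
    have hs := hr.seg_lt v
    have := (hr.mem_true_iff hg hs).1 (by rw [hω]; exact htrue _ hs)
    rw [hr.mem_iff hg v, this]
    exact hr.pos_lt v

end

end Pool.Agent.Lib.MP_7c7c4f_lc
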